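import Mathlib

set_option autoImplicit false

/-!
Binary digit sums and carry-free addition.
-/

namespace Pool.Agent.H715.U8

open Finset

/-- binary digit sum -/
def sb (n : ℕ) : ℕ := (Nat.digits 2 n).sum

theorem sb_zero : sb 0 = 0 := by simp [sb]

theorem sb_two_mul_add (n e : ℕ) (he : e < 2) : sb (2 * n + e) = sb n + e := by
  unfold sb
  rcases Nat.eq_zero_or_pos (2 * n + e) with h | h
  · have h1 : n = 0 := by omega
    have h2 : e = 0 := by omega
    simp [h1, h2]
  · rw [Nat.digits_eq_cons_digits_div (by norm_num) (by omega), List.sum_cons,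
      show (2 * n + e) % 2 = e by omega, show (2 * n + e) / 2 = n by omega]
    ring

theorem sb_one : sb 1 = 1 := by
  have := sb_two_mul_add 0 1 (by norm_num)
  simpa [sb_zero] using this

theorem sb_block (r x y : ℕ) (hy : y < 2 ^ r) : sb (y + 2 ^ r * x) = sb y + sb x := by
  induction r generalizing y with
  | zero =>
    have : y = 0 := by simpa using hy
    simp [this, sb_zero]
  | succ r ih =>
    obtain ⟨y', e, he, rfl⟩ : ∃ y' e, e < 2 ∧ y = 2 * y' + e :=
      ⟨y / 2, y % 2, Nat.mod_lt _ (by norm_num), by omega⟩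
    have h1 : y' < 2 ^ r := by rw [pow_succ] at hy; omega
    have h2 : 2 * y' + e + 2 ^ (r + 1) * x = 2 * (y' + 2 ^ r * x) + e := by ring
    rw [h2, sb_two_mul_add _ _ he, sb_two_mul_add _ _ he, ih y' h1]
    ring

theorem sb_add_le (x y : ℕ) : sb (x + y) ≤ sb x + sb y := by
  induction x using Nat.strong_induction_on generalizing y with
  | _ x ih =>
    have key : ∀ x y : ℕ, (∀ m < x, ∀ y, sb (m + y) ≤ sb m + sb y) → 0 < x →
        sb (x + y) ≤ sb x + sb y := by
      intro x
      intro y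
      revert x
      induction y using Nat.strong_induction_on with
      | _ y ihy =>
        intro x ih hx
        obtain ⟨x', e, he, rfl⟩ : ∃ y' e, e < 2 ∧ x = 2 * y' + e :=
          ⟨x / 2, x % 2, Nat.mod_lt _ (by norm_num), by omega⟩
        obtain ⟨y', f, hf, rfl⟩ : ∃ y' e, e < 2 ∧ y = 2 * y' + e :=
          ⟨y / 2, y % 2, Nat.mod_lt _ (by norm_num), by omega⟩
        rw [sb_two_mul_add _ _ he, sb_two_mul_add _ _ hf]
        rcases Nat.lt_or_ge (e + f) 2 with h | h
        · have h2 : 2 * x' + e + (2 * y' + f) = 2 * (x' + y') + (e + f) := by ring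
          rw [h2, sb_two_mul_add _ _ h]
          rcases Nat.eq_zero_or_pos x' with h0 | h0
          · subst h0
            simp only [Nat.zero_add, sb_zero]
            omega
          · have := ih x' (by omega) y'
            omega
        · have he1 : e = 1 := by omega
          have hf1 : f = 1 := by omega
          subst he1 hf1
          have h2 : 2 * x' + 1 + (2 * y' + 1) = 2 * (x' + (y' + 1)) + 0 := by ring
          rw [h2, sb_two_mul_add _ _ (by norm_num)]
          have h3 : sb (y' + 1) ≤ sb y' + 1 := by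
            rcases Nat.eq_zero_or_pos x' with h0 | h0
            · -- x = 1
              subst h0
              rcases Nat.eq_zero_or_pos y' with h1 | h1
              · subst h1; simp [sb_zero, sb_one]
              · have := ihy y' (by omega) 1 (by
                  intro m hm y
                  have : m = 0 := by omega
                  subst this; simp [sb_zero]) (by norm_num)
                rw [sb_one] at this
                rw [Nat.add_comm y' 1]; omega
            · have := ih 1 (by omega) y'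
              rw [sb_one] at this
              rw [Nat.add_comm y' 1]; omega
          rcases Nat.eq_zero_or_pos x' with h0 | h0
          · subst h0
            simp only [Nat.zero_add, sb_zero]
            omega
          · have := ih x' (by omega) (y' + 1)
            omega
    rcases Nat.eq_zero_or_pos x with h0 | h0
    · subst h0; simp [sb_zero]
    · exact key x y ih h0

/-- carry-free addition -/
def Orth (x y : ℕ) : Prop := sb (x + y) = sb x + sb y

theorem orth_iff_le (x y : ℕ) : Orth x y ↔ sb x + sb y ≤ sb (x + y) :=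
  ⟨fun h => h.ge, fun h => le_antisymm (sb_add_le x y) h⟩

theorem orth_zero_left (y : ℕ) : Orth 0 y := by simp [Orth, sb_zero]

theorem orth_zero_right (y : ℕ) : Orth y 0 := by simp [Orth, sb_zero]

theorem Orth.lt {r : ℕ} : ∀ {x y : ℕ}, x < 2 ^ r → y < 2 ^ r → Orth x y → x + y < 2 ^ r := by
  induction r with
  | zero => intro x y hx hy _; simp at hx hy; simp [hx, hy]
  | succ r ih =>
    intro x y hx hy h
    obtain ⟨x', e, he, rfl⟩ : ∃ y' e, e < 2 ∧ x = 2 * y' + e :=
      ⟨x / 2, x % 2, Nat.mod_lt _ (by norm_num), by omega⟩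
    obtain ⟨y', f, hf, rfl⟩ : ∃ y' e, e < 2 ∧ y = 2 * y' + e :=
      ⟨y / 2, y % 2, Nat.mod_lt _ (by norm_num), by omega⟩
    rw [pow_succ] at hx hy ⊢
    unfold Orth at h
    rw [sb_two_mul_add _ _ he, sb_two_mul_add _ _ hf] at h
    rcases Nat.lt_or_ge (e + f) 2 with h1 | h1
    · have h2 : 2 * x' + e + (2 * y' + f) = 2 * (x' + y') + (e + f) := by ring
      rw [h2, sb_two_mul_add _ _ h1] at h
      have := ih (x := x') (y := y') (by omega) (by omega) (by unfold Orth; omega)
      omega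
    · have he1 : e = 1 := by omega
      have hf1 : f = 1 := by omega
      subst he1 hf1
      have h2 : 2 * x' + 1 + (2 * y' + 1) = 2 * (x' + (y' + 1)) + 0 := by ring
      rw [h2, sb_two_mul_add _ _ (by norm_num)] at h
      have h3 := sb_add_le x' (y' + 1)
      have h4 := sb_add_le y' 1
      rw [sb_one] at h4
      omega

theorem orth_block {r x0 y0 : ℕ} (hx : x0 < 2 ^ r) (hy : y0 < 2 ^ r) (x1 y1 : ℕ) :
    Orth (x0 + 2 ^ r * x1) (y0 + 2 ^ r * y1) ↔ Orth x0 y0 ∧ Orth x1 y1 := by
  have hs0 := sb_add_le x0 y0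
  have hs1 := sb_add_le x1 y1
  rcases Nat.lt_or_ge (x0 + y0) (2 ^ r) with h | h
  · have e : x0 + 2 ^ r * x1 + (y0 + 2 ^ r * y1) = (x0 + y0) + 2 ^ r * (x1 + y1) := by ring
    unfold Orth
    rw [e, sb_block _ _ _ h, sb_block _ _ _ hx, sb_block _ _ _ hy]
    omega
  · have hno : ¬ Orth x0 y0 := fun h1 => absurd (h1.lt hx hy) (by omega)
    have hlt : sb (x0 + y0) < sb x0 + sb y0 := lt_of_le_of_ne hs0 hno
    refine ⟨fun h1 => ?_, fun h1 => absurd h1.1 hno⟩
    exfalso
    obtain ⟨u, hu⟩ : ∃ u, x0 + y0 = u + 2 ^ r * 1 := ⟨x0 + y0 - 2 ^ r, by omega⟩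
    have hu2 : u < 2 ^ r := by omega
    have e : x0 + 2 ^ r * x1 + (y0 + 2 ^ r * y1) = u + 2 ^ r * (x1 + y1 + 1) := by
      have : x0 + 2 ^ r * x1 + (y0 + 2 ^ r * y1) = (x0 + y0) + 2 ^ r * (x1 + y1) := by ring
      rw [this, hu]; ring
    unfold Orth at h1
    rw [e, sb_block _ _ _ hu2, sb_block _ _ _ hx, sb_block _ _ _ hy] at h1
    rw [hu, sb_block _ _ _ hu2, sb_one] at hlt
    have h4 := sb_add_le (x1 + y1) 1
    rw [sb_one] at h4
    omega

theorem digits_lt {B : ℕ} {x : ℕ → ℕ} {L : ℕ} (hx : ∀ j < L, x j < B) :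
    ∑ j ∈ range L, x j * B ^ j < B ^ L := by
  induction L with
  | zero => simp
  | succ L ih =>
    rw [sum_range_succ]
    have h1 := ih (fun j hj => hx j (by omega))
    have h2 : (x L + 1) * B ^ L ≤ B * B ^ L := Nat.mul_le_mul_right _ (hx L (by omega))
    have h3 : B ^ (L + 1) = B * B ^ L := by ring
    rw [h3]
    linarith [Nat.add_mul (x L) 1 (B ^ L), Nat.one_mul (B ^ L)]

/-- carry-free addition is checked digitwise in base `2 ^ q` -/
theorem orth_digits {q : ℕ} {x m : ℕ → ℕ} {L : ℕ} (hx : ∀ j < L, x j < 2 ^ q)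
    (hm : ∀ j < L, m j < 2 ^ q) :
    Orth (∑ j ∈ range L, x j * (2 ^ q) ^ j) (∑ j ∈ range L, m j * (2 ^ q) ^ j) ↔
      ∀ j < L, Orth (x j) (m j) := by
  induction L with
  | zero => simp [orth_zero_left]
  | succ L ih =>
    rw [sum_range_succ, sum_range_succ]
    have h1 := digits_lt (fun j hj => hx j (by omega) : ∀ j < L, x j < 2 ^ q)
    have h2 := digits_lt (fun j hj => hm j (by omega) : ∀ j < L, m j < 2 ^ q)
    rw [← pow_mul] at h1 h2
    have e1 : x L * (2 ^ q) ^ L = 2 ^ (q * L) * x L := by rw [← pow_mul]; ring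
    have e2 : m L * (2 ^ q) ^ L = 2 ^ (q * L) * m L := by rw [← pow_mul]; ring
    rw [e1, e2, orth_block h1 h2, ih (fun j hj => hx j (by omega)) (fun j hj => hm j (by omega))]
    constructor
    · rintro ⟨h3, h4⟩ j hj
      rcases Nat.lt_succ_iff_lt_or_eq.1 hj with h | h
      · exact h3 j h
      · rw [h]; exact h4
    · intro h
      exact ⟨fun j hj => h j (by omega), h L (by omega)⟩

theorem sb_compl (r y : ℕ) (hy : y < 2 ^ r) : sb (2 ^ r - 1 - y) + sb y = r := by
  induction r generalizing y with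
  | zero => simp at hy; simp [hy, sb_zero]
  | succ r ih =>
    obtain ⟨y', e, he, rfl⟩ : ∃ y' e, e < 2 ∧ y = 2 * y' + e :=
      ⟨y / 2, y % 2, Nat.mod_lt _ (by norm_num), by omega⟩
    rw [pow_succ] at hy ⊢
    have h1 : 2 ^ r * 2 - 1 - (2 * y' + e) = 2 * (2 ^ r - 1 - y') + (1 - e) := by omega
    rw [h1, sb_two_mul_add _ _ (by omega), sb_two_mul_add _ _ he]
    have := ih y' (by omega)
    omega

/-- the index used in the central binomial coefficient -/
theorem sb_index {r S T : ℕ} (hS : S < 2 ^ r) (hT : T < 2 ^ r) :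
    sb ((2 ^ r - 1 - S) + 2 ^ r * ((2 ^ r - 1 - T) + 2 ^ r * (S + T))) + sb S + sb T =
      2 * r + sb (S + T) := by
  have h1 : 2 ^ r - 1 - S < 2 ^ r := by have := Nat.two_pow_pos r; omega
  have h2 : 2 ^ r - 1 - T < 2 ^ r := by have := Nat.two_pow_pos r; omega
  rw [sb_block _ _ _ h1, sb_block _ _ _ h2]
  have h3 := sb_compl r S hS
  have h4 := sb_compl r T hT
  omega

theorem sb_index_iff {r S T : ℕ} (hS : S < 2 ^ r) (hT : T < 2 ^ r) :
    2 * r ≤ sb ((2 ^ r - 1 - S) + 2 ^ r * ((2 ^ r - 1 - T) + 2 ^ r * (S + T))) ↔ Orth S T := by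
  have h1 := sb_index hS hT
  rw [orth_iff_le]
  omega

/- digit facts -/

theorem orth_full {q x : ℕ} (hx : x < 2 ^ q) : Orth x (2 ^ q - 1) ↔ x = 0 := by
  have hp := Nat.two_pow_pos q
  constructor
  · intro h
    have := h.lt hx (by omega)
    omega
  · rintro rfl; exact orth_zero_left _

theorem orth_low {q β x : ℕ} (hβ : β ≤ q) (hx : x < 2 ^ q) :
    Orth x (2 ^ q - 2 ^ β) ↔ x < 2 ^ β := by
  have hp := Nat.two_pow_pos q
  have hpβ := Nat.two_pow_pos β
  have hle : 2 ^ β ≤ 2 ^ q := Nat.pow_le_pow_right (by norm_num) hβ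
  constructor
  · intro h
    have := h.lt hx (by omega)
    omega
  · intro h
    have e1 : 2 ^ q - 2 ^ β = 0 + 2 ^ β * (2 ^ (q - β) - 1) := by
      rw [Nat.mul_sub, ← pow_add, Nat.add_sub_cancel' hβ]; simp
    have e2 : x = x + 2 ^ β * 0 := by simp
    rw [e1]
    nth_rewrite 1 [e2]
    rw [orth_block h hpβ]
    exact ⟨orth_zero_right _, orth_zero_left _⟩

theorem orth_half {h x : ℕ} (hx0 : 0 < x) (hx : x < 2 * 2 ^ h) :
    Orth x (2 ^ h - 1) ↔ x = 2 ^ h := by
  have hp := Nat.two_pow_pos h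
  obtain ⟨x0, x1, hx0', rfl⟩ : ∃ x0 x1, x0 < 2 ^ h ∧ x = x0 + 2 ^ h * x1 :=
    ⟨x % 2 ^ h, x / 2 ^ h, Nat.mod_lt _ hp, (Nat.mod_add_div _ _).symm⟩
  have hx1 : x1 < 2 := by
    by_contra hcon
    push Not at hcon
    have : 2 ^ h * 2 ≤ 2 ^ h * x1 := Nat.mul_le_mul_left _ hcon
    omega
  have e2 : 2 ^ h - 1 = (2 ^ h - 1) + 2 ^ h * 0 := by simp
  nth_rewrite 1 [e2]
  rw [orth_block hx0' (by omega), orth_full hx0']
  constructor
  · rintro ⟨rfl, -⟩
    interval_cases x1 <;> simp_all
  · intro he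
    interval_cases x1
    · omega
    · exact ⟨by omega, orth_zero_right _⟩

end Pool.Agent.H715.U8
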