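import Mathlib
import Pool.Agent.H715.U8.Digits

set_option autoImplicit false

/-!
The coefficients `4 ^ l ± C(2l, l)`.
-/

namespace Pool.Agent.H715.U8

open Finset

theorem val_centralBinom (n : ℕ) : padicValNat 2 (Nat.centralBinom n) = sb n := by
  haveI : Fact (Nat.Prime 2) := ⟨Nat.prime_two⟩
  have h := sub_one_mul_padicValNat_choose_eq_sub_sum_digits' (p := 2) (k := n) (n := n)
  have h2 : (Nat.digits 2 (n + n)).sum = sb n := by
    have := sb_two_mul_add n 0 (by norm_num)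
    rw [add_zero, add_zero] at this
    rw [← two_mul]; exact this
  rw [Nat.centralBinom_eq_two_mul_choose, two_mul]
  rw [h2] at h
  unfold sb at h ⊢
  omega

theorem two_pow_dvd_centralBinom (z n : ℕ) : 2 ^ z ∣ Nat.centralBinom n ↔ z ≤ sb n := by
  haveI : Fact (Nat.Prime 2) := ⟨Nat.prime_two⟩
  rw [padicValNat_dvd_iff_le (Nat.centralBinom_ne_zero n), val_centralBinom]

/-- the two coefficient sequences -/
def cc (ε : ℤ) (i : ℕ) : ℤ := 4 ^ i + ε * Nat.centralBinom i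

theorem dvd_cc_iff {z l : ℕ} {ε : ℤ} (hε : ε = 1 ∨ ε = -1) (hz : z ≤ 2 * l) :
    ((2 ^ z : ℕ) : ℤ) ∣ cc ε l ↔ z ≤ sb l := by
  have h4 : ((2 ^ z : ℕ) : ℤ) ∣ 4 ^ l := by
    have : (4 : ℤ) ^ l = ((2 ^ (2 * l) : ℕ) : ℤ) := by
      push_cast; rw [pow_mul]; norm_num
    rw [this]
    exact Int.natCast_dvd_natCast.2 (pow_dvd_pow 2 hz)
  unfold cc
  rw [← two_pow_dvd_centralBinom, dvd_add_right h4, ← Int.natCast_dvd_natCast]
  rcases hε with rfl | rfl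
  · rw [one_mul]
  · rw [neg_one_mul, dvd_neg]

theorem pow_two_of_dvd_cc {b Z l : ℕ} {ε : ℤ} (hb : b ≠ 0) (hbZ : b ∣ Z) (hbl : b ∣ l + 1)
    (h : (Z : ℤ) ∣ cc ε l) : ∃ β, b = 2 ^ β := by
  refine ⟨_, Nat.eq_prime_pow_of_unique_prime_dvd hb (fun {d} hd hdb => ?_)⟩
  have h1 : (d : ℤ) ∣ cc ε l := dvd_trans (Int.natCast_dvd_natCast.2 (hdb.trans hbZ)) h
  have h2 : (d : ℤ) ∣ ε * Nat.centralBinom l := by
    refine Dvd.dvd.mul_left ?_ _
    exact Int.natCast_dvd_natCast.2 ((hdb.trans hbl).trans (Nat.succ_dvd_centralBinom l))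
  unfold cc at h1
  have h3 : (d : ℤ) ∣ 4 ^ l := (dvd_add_left h2).1 h1
  have h4 : d ∣ 4 ^ l := by exact_mod_cast h3
  have h5 : d ∣ 4 := hd.dvd_of_dvd_pow h4
  have h6 : d ∣ 2 := hd.dvd_of_dvd_pow (n := 2) (by simpa using h5)
  exact (Nat.prime_dvd_prime_iff_eq hd Nat.prime_two).1 h6

theorem centralBinom_le (n : ℕ) : Nat.centralBinom n ≤ 4 ^ n := by
  rcases Nat.eq_zero_or_pos n with h | h
  · subst h; simp
  · exact (Nat.centralBinom_lt_four_pow (by omega)).le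

theorem cc_nonneg {ε : ℤ} (hε : ε = 1 ∨ ε = -1) (i : ℕ) : 0 ≤ cc ε i := by
  have h : (Nat.centralBinom i : ℤ) ≤ 4 ^ i := by exact_mod_cast centralBinom_le i
  have h0 : (0 : ℤ) ≤ Nat.centralBinom i := by positivity
  unfold cc
  rcases hε with rfl | rfl
  · linarith [pow_nonneg (by norm_num : (0 : ℤ) ≤ 4) i]
  · linarith

theorem cc_le {ε : ℤ} (hε : ε = 1 ∨ ε = -1) (i : ℕ) : cc ε i ≤ 2 * 4 ^ i := by
  have h : (Nat.centralBinom i : ℤ) ≤ 4 ^ i := by exact_mod_cast centralBinom_le i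
  have h0 : (0 : ℤ) ≤ Nat.centralBinom i := by positivity
  unfold cc
  rcases hε with rfl | rfl
  · linarith [pow_nonneg (by norm_num : (0 : ℤ) ≤ 4) i]
  · linarith [pow_nonneg (by norm_num : (0 : ℤ) ≤ 4) i]

end Pool.Agent.H715.U8
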