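import Mathlib
import Pool.Agent.H715.U8.Digits

set_option autoImplicit false

/-!
Quadratic systems and positions of digits.
-/

namespace Pool.Agent.H715.U8

open Finset

/-- exponents `0, 1, 3, 9, ...` -/
def ex : ℕ → ℕ
  | 0 => 0
  | i + 1 => 3 ^ i

theorem ex_lt_succ (i : ℕ) : 2 * ex i < ex (i + 1) := by
  cases i with
  | zero => simp [ex]
  | succ i =>
    simp only [ex, pow_succ]
    have : 0 < 3 ^ i := by positivity
    omega

theorem ex_strictMono : StrictMono ex := strictMono_nat_of_lt_succ (fun i => by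
  have := ex_lt_succ i; omega)

theorem ex_lt {i ν : ℕ} (h : i ≤ ν) : ex i < 3 ^ ν := by
  have h1 : ex i ≤ ex ν := ex_strictMono.monotone h
  have h2 := ex_lt_succ ν
  have h3 : ex (ν + 1) = 3 ^ ν := rfl
  omega

theorem ex_sum_aux {i j p q : ℕ} (hij : i ≤ j) (hpq : p ≤ q) (h : ex i + ex j = ex p + ex q) :
    i = p ∧ j = q := by
  have hj : j = q := by
    rcases lt_trichotomy j q with h1 | h1 | h1
    · exfalso
      have h2 : ex (j + 1) ≤ ex q := ex_strictMono.monotone h1
      have h3 := ex_lt_succ j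
      have h4 : ex i ≤ ex j := ex_strictMono.monotone hij
      omega
    · exact h1
    · exfalso
      have h2 : ex (q + 1) ≤ ex j := ex_strictMono.monotone h1
      have h3 := ex_lt_succ q
      have h4 : ex p ≤ ex q := ex_strictMono.monotone hpq
      omega
  subst hj
  have : ex i = ex p := by omega
  exact ⟨ex_strictMono.injective this, rfl⟩

theorem ex_sum {i j p q : ℕ} : ex i + ex j = ex p + ex q ↔ (i = p ∧ j = q) ∨ (i = q ∧ j = p) := by
  constructor
  · intro h
    rcases le_total i j with h1 | h1 <;> rcases le_total p q with h2 | h2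
    · exact Or.inl (ex_sum_aux h1 h2 h)
    · exact Or.inr (ex_sum_aux h1 h2 (by omega))
    · have := ex_sum_aux h1 h2 (by omega : ex j + ex i = ex p + ex q)
      exact Or.inr ⟨this.2, this.1⟩
    · have := ex_sum_aux h1 h2 (by omega : ex j + ex i = ex q + ex p)
      exact Or.inl ⟨this.2, this.1⟩
  · rintro (⟨rfl, rfl⟩ | ⟨rfl, rfl⟩)
    · rfl
    · ring

/-- multiplicity -/
def mu (p q : ℕ) : ℤ := if p = q then 2 else 1

/-- the coefficient of a square of a sum -/
theorem pair_sum {n : ℕ} (w : ℕ → ℤ) {p q : ℕ} (hp : p < n) (hq : q < n) :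
    mu p q * (∑ i ∈ range n, ∑ j ∈ range n, if ex i + ex j = ex p + ex q then w i * w j else 0) =
      2 * (w p * w q) := by
  have h1 : ∀ i ∈ range n, (∑ j ∈ range n, if ex i + ex j = ex p + ex q then w i * w j else 0) =
      (if i = p then w p * w q else 0) + (if i = q ∧ p ≠ q then w q * w p else 0) := by
    intro i _
    by_cases hip : i = p
    · subst hip
      rw [sum_eq_single q]
      · by_cases hiq : i = q
        · subst hiq; simp
        · simp [hiq]
      · intro j _ hj
        rw [if_neg]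
        intro h
        rcases ex_sum.1 h with h | h
        · exact hj h.2
        · exact hj (by omega)
      · intro h; exact absurd (mem_range.2 hq) h
    · by_cases hiq : i = q
      · subst hiq
        rw [sum_eq_single p]
        · have : p ≠ i := fun h => hip h.symm
          simp [hip, this, Nat.add_comm (ex i) (ex p)]
        · intro j _ hj
          rw [if_neg]
          intro h
          rcases ex_sum.1 h with h | h
          · exact hip h.1
          · exact hj h.2
        · intro h; exact absurd (mem_range.2 hp) h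
      · rw [sum_eq_zero]
        · simp [hip, hiq]
        · intro j _
          rw [if_neg]
          intro h
          rcases ex_sum.1 h with h | h
          · exact hip h.1
          · exact hiq h.1
  rw [sum_congr rfl h1, sum_add_distrib]
  have h2 : (∑ i ∈ range n, if i = p then w p * w q else 0) = w p * w q := by
    rw [sum_ite_eq' (range n) p, if_pos (mem_range.2 hp)]
  rw [h2]
  by_cases hpq : p = q
  · subst hpq
    simp [mu]
  · have h3 : (∑ i ∈ range n, if i = q ∧ p ≠ q then w q * w p else 0) = w q * w p := by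
      have : ∀ i ∈ range n, (if i = q ∧ p ≠ q then w q * w p else 0) =
          if i = q then w q * w p else 0 := by
        intro i _; simp [hpq]
      rw [sum_congr rfl this, sum_ite_eq' (range n) q, if_pos (mem_range.2 hq)]
    rw [h3, mu, if_neg hpq]
    ring

/-- a finite system of quadratic equations, three terms each -/
structure QS where
  ν : ℕ
  K : ℕ
  α : ℕ → ℕ → ℤ
  s : ℕ → ℕ → ℕ
  p : ℕ → ℕ → ℕ
  q : ℕ → ℕ → ℕ
  hs : ∀ k j, s k j ≤ 1
  hp : ∀ k j, p k j ≤ ν
  hq : ∀ k j, q k j ≤ ν

namespace QS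

variable (Q : QS)

/-- the value of the `k`-th quadratic form -/
def val (a : ℤ) (w : ℕ → ℤ) (k : ℕ) : ℤ :=
  ∑ j ∈ range 3, Q.α k j * a ^ Q.s k j * (w (Q.p k j) * w (Q.q k j))

/-- the system is satisfied -/
def Sat (a : ℕ) (w : ℕ → ℕ) : Prop := ∀ k < Q.K, Q.val a (fun i => (w i : ℤ)) k = 0

def A0 : ℕ := ∑ k ∈ range Q.K, ∑ j ∈ range 3, 2 * (Q.α k j).natAbs
def EE : ℕ := Q.A0 * (Q.ν + 1) ^ 2 + 4
def LL : ℕ := 3 ^ Q.ν
def TT (k : ℕ) : ℕ := 4 * Q.LL * (k + 1)
def JJ : ℕ := 4 * Q.LL * Q.K + 4 * Q.LL

theorem LL_pos : 0 < Q.LL := by unfold LL; positivity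

theorem ex_lt_LL {i : ℕ} (h : i ≤ Q.ν) : ex i < Q.LL := ex_lt h

end QS

/-- digits of a natural number -/
theorem exists_digits {B : ℕ} (hB : 0 < B) : ∀ (L g : ℕ), g < B ^ L →
    ∃ x : ℕ → ℕ, (∀ j, x j < B) ∧ g = ∑ j ∈ range L, x j * B ^ j := by
  intro L
  induction L with
  | zero => intro g hg; simp at hg; exact ⟨fun _ => 0, fun _ => hB, by simp [hg]⟩
  | succ L ih =>
    intro g hg
    have hBL : 0 < B ^ L := Nat.pow_pos hB
    obtain ⟨x, hx, hg2⟩ := ih (g % B ^ L) (Nat.mod_lt _ hBL)
    have h1 : g / B ^ L < B := by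
      rw [Nat.div_lt_iff_lt_mul hBL]; rw [pow_succ] at hg; rwa [mul_comm]
    refine ⟨fun j => if j < L then x j else g / B ^ L, ?_, ?_⟩
    · intro j
      by_cases hj : j < L
      · simp only [hj, if_true]; exact hx j
      · simp only [hj, if_false]; exact h1
    · rw [sum_range_succ]
      have h2 : ∑ j ∈ range L, (if j < L then x j else g / B ^ L) * B ^ j =
          ∑ j ∈ range L, x j * B ^ j := by
        refine sum_congr rfl (fun j hj => ?_)
        rw [mem_range] at hj
        rw [if_pos hj]
      show g = ∑ j ∈ range L, (if j < L then x j else g / B ^ L) * B ^ j +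
        (if L < L then x L else g / B ^ L) * B ^ L
      rw [h2, ← hg2, if_neg (lt_irrefl L), mul_comm (g / B ^ L)]
      exact (Nat.mod_add_div _ _).symm

/-- grouping a sum of powers by exponent -/
theorem group_sum {ι : Type*} (I : Finset ι) (cf : ι → ℤ) (e : ι → ℕ) (J : ℕ) (B : ℤ)
    (he : ∀ i ∈ I, e i ≤ J) :
    ∑ i ∈ I, cf i * B ^ e i =
      ∑ x ∈ range (J + 1), (∑ i ∈ I, if e i = x then cf i else 0) * B ^ x := by
  have h1 : ∀ x ∈ range (J + 1), (∑ i ∈ I, if e i = x then cf i else 0) * B ^ x =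
      ∑ i ∈ I, if e i = x then cf i * B ^ e i else 0 := by
    intro x _
    rw [sum_mul]
    refine sum_congr rfl (fun i _ => ?_)
    by_cases h : e i = x
    · rw [if_pos h, if_pos h, h]
    · rw [if_neg h, if_neg h, zero_mul]
  rw [sum_congr rfl h1, sum_comm]
  refine sum_congr rfl (fun i hi => ?_)
  rw [sum_ite_eq (range (J + 1)) (e i), if_pos (mem_range.2 (Nat.lt_succ_of_le (he i hi)))]

end Pool.Agent.H715.U8
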