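import Mathlib
import Pool.Agent.H715.U8.CodeA

set_option autoImplicit false

/-!
The coding of a quadratic system in one number.
-/

namespace Pool.Agent.H715.U8

open Finset

namespace QS

section ring
variable {R : Type*} [CommRing R] (Q : QS)

def fH (b : R) : R := b ^ Q.EE
def fB (b : R) : R := 2 * Q.fH b
def fN1 (b : R) : R := Q.fB b ^ Q.LL
def fD (a b : R) : R :=
  ∑ k ∈ range Q.K, ∑ j ∈ range 3,
    ((Q.α k j * mu (Q.p k j) (Q.q k j) : ℤ) : R) * a ^ Q.s k j *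
      Q.fB b ^ (Q.TT k - ex (Q.p k j) - ex (Q.q k j))
def fK (a b g : R) : R := (1 + g) ^ 2 * Q.fD a b + Q.fH b * ∑ x ∈ range (Q.JJ + 1), Q.fB b ^ x
def fM (b : R) : R :=
  (Q.fB b - 1) * ∑ x ∈ range Q.LL, Q.fB b ^ x - (b - 1) * ∑ i ∈ range Q.ν, Q.fB b ^ ex (i + 1)
def fT (b : R) : R := (Q.fH b - 1) * ∑ k ∈ range Q.K, Q.fB b ^ Q.TT k
def fS (a b g : R) : R := g + Q.fN1 b * Q.fK a b g
def fTT (b : R) : R := Q.fM b + Q.fN1 b * Q.fT b
def fN (b : R) : R := Q.fB b ^ (Q.LL + Q.JJ + 1)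
def fR (a b g : R) : R :=
  (Q.fN b - 1 - Q.fS a b g) + Q.fN b * ((Q.fN b - 1 - Q.fTT b) + Q.fN b * (Q.fS a b g + Q.fTT b))
def fl (a b g : R) : R := b * (Q.fR a b g + 1) - 1
def fZ (b : R) : R := b * Q.fN b ^ 2

end ring

variable (Q : QS)

theorem TT_sub {k i j : ℕ} (hi : i ≤ Q.ν) (hj : j ≤ Q.ν) : ex i + ex j < 2 * Q.LL ∧
    4 * Q.LL ≤ Q.TT k := by
  have h1 := Q.ex_lt_LL hi
  have h2 := Q.ex_lt_LL hj
  refine ⟨by omega, ?_⟩
  unfold TT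
  exact Nat.le_mul_of_pos_right _ (Nat.succ_pos k)

theorem TT_lt {k k' : ℕ} (h : k < k') : Q.TT k + 4 * Q.LL ≤ Q.TT k' := by
  unfold TT
  have : 4 * Q.LL * (k + 1) + 4 * Q.LL = 4 * Q.LL * (k + 1 + 1) := by ring
  rw [this]
  exact Nat.mul_le_mul_left _ (by omega)

theorem TT_le {k : ℕ} (h : k < Q.K) : Q.TT k ≤ 4 * Q.LL * Q.K := by
  unfold TT
  exact Nat.mul_le_mul_left _ (by omega)

/-- the exponent of a term of the product -/
def tex (t : (ℕ × ℕ) × (ℕ × ℕ)) : ℕ :=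
  ex t.1.1 + ex t.1.2 + (Q.TT t.2.1 - ex (Q.p t.2.1 t.2.2) - ex (Q.q t.2.1 t.2.2))

/-- the coefficient of a term of the product -/
def tcf (a : ℤ) (w : ℕ → ℤ) (t : (ℕ × ℕ) × (ℕ × ℕ)) : ℤ :=
  w t.1.1 * w t.1.2 *
    (Q.α t.2.1 t.2.2 * mu (Q.p t.2.1 t.2.2) (Q.q t.2.1 t.2.2) * a ^ Q.s t.2.1 t.2.2)

def II : Finset ((ℕ × ℕ) × (ℕ × ℕ)) :=
  (range (Q.ν + 1) ×ˢ range (Q.ν + 1)) ×ˢ (range Q.K ×ˢ range 3)

/-- the digit corrections -/
def kap (a : ℤ) (w : ℕ → ℤ) (x : ℕ) : ℤ := ∑ t ∈ Q.II, if Q.tex t = x then Q.tcf a w t else 0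

theorem tex_le {t : (ℕ × ℕ) × (ℕ × ℕ)} (ht : t ∈ Q.II) : Q.tex t ≤ Q.JJ := by
  obtain ⟨⟨i, i'⟩, ⟨k, j⟩⟩ := t
  simp only [II, mem_product, mem_range] at ht
  obtain ⟨⟨h1, h2⟩, h3, h4⟩ := ht
  unfold tex
  simp only
  have h5 := (Q.TT_sub (k := k) (Nat.lt_succ_iff.1 h1) (Nat.lt_succ_iff.1 h2)).1
  have h6 := Q.TT_le h3
  have h7 : Q.JJ = 4 * Q.LL * Q.K + 4 * Q.LL := rfl
  omega

theorem prod_eq (a B : ℤ) (w : ℕ → ℤ) (D : ℤ)
    (hD : D = ∑ k ∈ range Q.K, ∑ j ∈ range 3,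
      (Q.α k j * mu (Q.p k j) (Q.q k j)) * a ^ Q.s k j *
      B ^ (Q.TT k - ex (Q.p k j) - ex (Q.q k j))) :
    (∑ i ∈ range (Q.ν + 1), w i * B ^ ex i) ^ 2 * D =
      ∑ x ∈ range (Q.JJ + 1), Q.kap a w x * B ^ x := by
  have h1 := group_sum Q.II (Q.tcf a w) Q.tex Q.JJ B (fun t ht => Q.tex_le ht)
  unfold kap
  rw [← h1, hD, sq, ← sum_product', sum_mul_sum, ← sum_product', sum_mul_sum, ← sum_product']
  unfold II
  refine sum_congr rfl (fun t _ => ?_)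
  unfold tcf tex
  rw [pow_add, pow_add]
  ring

theorem kap_TT (a : ℤ) (w : ℕ → ℤ) {κ : ℕ} (hκ : κ < Q.K) :
    Q.kap a w (Q.TT κ) = 2 * Q.val a w κ := by
  unfold kap II
  rw [sum_product_right, sum_product]
  rw [sum_eq_single κ]
  · unfold val
    rw [mul_sum]
    refine sum_congr rfl (fun j _ => ?_)
    rw [sum_product]
    have hp := Q.hp κ j
    have hq := Q.hq κ j
    have h1 := pair_sum (n := Q.ν + 1) w (Nat.lt_succ_iff.2 hp) (Nat.lt_succ_iff.2 hq)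
    have h2 : (∑ i ∈ range (Q.ν + 1), ∑ i' ∈ range (Q.ν + 1),
        if Q.tex ((i, i'), (κ, j)) = Q.TT κ then Q.tcf a w ((i, i'), (κ, j)) else 0) =
        (Q.α κ j * a ^ Q.s κ j) * (mu (Q.p κ j) (Q.q κ j) *
          (∑ i ∈ range (Q.ν + 1), ∑ i' ∈ range (Q.ν + 1),
            if ex i + ex i' = ex (Q.p κ j) + ex (Q.q κ j) then w i * w i' else 0)) := by
      rw [← mul_assoc, mul_sum]
      refine sum_congr rfl (fun i hi => ?_)
      rw [mul_sum]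
      refine sum_congr rfl (fun i' hi' => ?_)
      rw [mem_range, Nat.lt_succ_iff] at hi hi'
      obtain ⟨h3, h4⟩ := Q.TT_sub (k := κ) hp hq
      have h5 : Q.tex ((i, i'), (κ, j)) = Q.TT κ ↔
          ex i + ex i' = ex (Q.p κ j) + ex (Q.q κ j) := by
        unfold tex
        simp only
        omega
      by_cases h6 : ex i + ex i' = ex (Q.p κ j) + ex (Q.q κ j)
      · rw [if_pos (h5.2 h6), if_pos h6]
        unfold tcf
        simp only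
        ring
      · rw [if_neg (fun h => h6 (h5.1 h)), if_neg h6, mul_zero]
    rw [h2, h1]
    ring
  · intro k hk hkκ
    rw [mem_range] at hk
    refine sum_eq_zero (fun j _ => ?_)
    rw [sum_product]
    refine sum_eq_zero (fun i hi => sum_eq_zero (fun i' hi' => ?_))
    rw [mem_range, Nat.lt_succ_iff] at hi hi'
    rw [if_neg]
    unfold tex
    simp only
    obtain ⟨h3, h4⟩ := Q.TT_sub (k := k) (Q.hp k j) (Q.hq k j)
    obtain ⟨h5, -⟩ := Q.TT_sub (k := k) hi hi'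
    rcases lt_or_gt_of_ne hkκ with h6 | h6
    · have := Q.TT_lt h6
      omega
    · have := Q.TT_lt h6
      omega
  · intro h; exact absurd (mem_range.2 hκ) h

theorem abs_mu_le (p q : ℕ) : |mu p q| ≤ 2 := by
  unfold mu; split_ifs <;> norm_num

/-- bound for the coefficients of `D` -/
theorem D_bound {a b : ℕ} (hab : a ≤ b) (hb : 1 ≤ b) :
    ∑ k ∈ range Q.K, ∑ j ∈ range 3, |Q.α k j * mu (Q.p k j) (Q.q k j) * (a : ℤ) ^ Q.s k j| ≤
      Q.A0 * b := by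
  unfold A0
  push_cast
  rw [sum_mul]
  refine sum_le_sum (fun k _ => ?_)
  rw [sum_mul]
  refine sum_le_sum (fun j _ => ?_)
  rw [abs_mul, abs_mul, abs_pow]
  have h1 := abs_mu_le (Q.p k j) (Q.q k j)
  have h2 : |(a : ℤ)| ^ Q.s k j ≤ b := by
    have h3 := Q.hs k j
    rw [Nat.abs_cast]
    interval_cases h : Q.s k j
    · simp; exact_mod_cast hb
    · simp; exact_mod_cast hab
  have h4 := abs_nonneg (Q.α k j)
  have h5 : |Q.α k j| * |mu (Q.p k j) (Q.q k j)| ≤ |Q.α k j| * 2 := by gcongr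
  calc |Q.α k j| * |mu (Q.p k j) (Q.q k j)| * |(a : ℤ)| ^ Q.s k j
      ≤ |Q.α k j| * 2 * b := by
        apply mul_le_mul h5 h2 (by positivity) (by positivity)
    _ = 2 * |Q.α k j| * b := by ring

theorem kap_abs_le {a b : ℕ} {w : ℕ → ℤ} (hab : a ≤ b) (hb : 1 ≤ b)
    (hw : ∀ i ≤ Q.ν, |w i| ≤ b) (x : ℕ) :
    |Q.kap a w x| ≤ (((Q.ν + 1) * b) ^ 2 * (Q.A0 * b) : ℕ) := by
  unfold kap
  refine (abs_sum_le_sum_abs _ _).trans ?_
  have h1 : ∑ t ∈ Q.II, |if Q.tex t = x then Q.tcf a w t else 0| ≤ ∑ t ∈ Q.II, |Q.tcf a w t| := by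
    refine sum_le_sum (fun t _ => ?_)
    split_ifs
    · exact le_rfl
    · rw [abs_zero]; exact abs_nonneg _
  refine h1.trans ?_
  have h2 : ∑ t ∈ Q.II, |Q.tcf a w t| =
      ((∑ i ∈ range (Q.ν + 1), |w i|) * (∑ i ∈ range (Q.ν + 1), |w i|)) *
      ∑ k ∈ range Q.K, ∑ j ∈ range 3, |Q.α k j * mu (Q.p k j) (Q.q k j) * (a : ℤ) ^ Q.s k j| := by
    unfold II
    rw [sum_mul_sum, ← sum_product', ← sum_product', sum_mul_sum, ← sum_product']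
    refine sum_congr rfl (fun t _ => ?_)
    unfold tcf
    rw [abs_mul, abs_mul]
  have h3 : ∑ i ∈ range (Q.ν + 1), |w i| ≤ ((Q.ν + 1) * b : ℕ) := by
    calc ∑ i ∈ range (Q.ν + 1), |w i| ≤ ∑ i ∈ range (Q.ν + 1), (b : ℤ) :=
          sum_le_sum (fun i hi => hw i (by rw [mem_range] at hi; omega))
      _ = _ := by rw [sum_const, card_range, nsmul_eq_mul]; push_cast; ring
  have h3' : 0 ≤ ∑ i ∈ range (Q.ν + 1), |w i| := sum_nonneg (fun i _ => abs_nonneg _)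
  have h4 := Q.D_bound hab hb
  rw [h2]
  push_cast at h3 ⊢
  have h5 : (∑ i ∈ range (Q.ν + 1), |w i|) * (∑ i ∈ range (Q.ν + 1), |w i|) ≤
      (((Q.ν : ℤ) + 1) * b) ^ 2 := by
    rw [sq]; exact mul_le_mul h3 h3 h3' (by positivity)
  exact mul_le_mul h5 h4 (sum_nonneg (fun _ _ => sum_nonneg (fun _ _ => abs_nonneg _)))
    (by positivity)

theorem bound_lt_H {b : ℕ} (hb : 2 ≤ b) : ((Q.ν + 1) * b) ^ 2 * (Q.A0 * b) < b ^ Q.EE := by
  unfold EE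
  obtain ⟨n, hn⟩ : ∃ n, n = Q.A0 * (Q.ν + 1) ^ 2 := ⟨_, rfl⟩
  have e : ((Q.ν + 1) * b) ^ 2 * (Q.A0 * b) = n * b ^ 3 := by rw [hn]; ring
  rw [e, ← hn]
  have h1 : n < b ^ n := Nat.lt_pow_self (by omega)
  calc n * b ^ 3 < b ^ n * b ^ 3 := by
        apply Nat.mul_lt_mul_of_pos_right h1; positivity
    _ = b ^ (n + 3) := by rw [← pow_add]
    _ ≤ b ^ (n + 4) := Nat.pow_le_pow_right (by omega) (by omega)

end QS

end Pool.Agent.H715.U8
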