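import Mathlib
import Pool.Agent.H715.U8.CodeB

set_option autoImplicit false

/-!
The coding theorem.
-/

namespace Pool.Agent.H715.U8

open Finset

theorem ind_sum {n K : ℕ} (f : ℕ → ℕ) (hf : ∀ i < K, ∀ j < K, f i = f j → i = j)
    (hn : ∀ i < K, f i < n) (c B : ℤ) :
    ∑ x ∈ range n, (if x ∈ (range K).image f then c else 0) * B ^ x =
      c * ∑ i ∈ range K, B ^ f i := by
  have h1 : ∀ x ∈ range n, (if x ∈ (range K).image f then c else 0) * B ^ x =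
      if x ∈ (range K).image f then c * B ^ x else 0 := by
    intro x _; split_ifs <;> simp
  rw [sum_congr rfl h1, sum_ite_mem, inter_eq_right.2, sum_image, mul_sum]
  · intro i hi j hj h
    rw [mem_coe, mem_range] at hi hj
    exact hf i hi j hj h
  · intro x hx
    rw [mem_image] at hx
    obtain ⟨i, hi, rfl⟩ := hx
    rw [mem_range] at hi ⊢
    exact hn i hi

namespace QS

variable (Q : QS)

theorem map_simps {R S : Type*} [CommRing R] [CommRing S] (φ : R →+* S) (a b g : R) :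
    φ (Q.fl a b g) = Q.fl (φ a) (φ b) (φ g) := by
  simp only [fl, fR, fN, fS, fTT, fM, fT, fK, fD, fN1, fB, fH, map_add, map_mul, map_sub, map_pow,
    map_sum, map_one, map_ofNat, map_intCast]

theorem map_fZ {R S : Type*} [CommRing R] [CommRing S] (φ : R →+* S) (b : R) :
    φ (Q.fZ b) = Q.fZ (φ b) := by
  simp only [fZ, fN, fB, fH, map_mul, map_pow, map_ofNat]

theorem map_fN1 {R S : Type*} [CommRing R] [CommRing S] (φ : R →+* S) (b : R) :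
    φ (Q.fN1 b) = Q.fN1 (φ b) := by
  simp only [fN1, fB, fH, map_mul, map_pow, map_ofNat]

theorem A0b_lt {b : ℕ} (hb : 2 ≤ b) : Q.A0 * b < b ^ Q.EE := by
  refine lt_of_le_of_lt ?_ (Q.bound_lt_H hb)
  exact Nat.le_mul_of_pos_left _ (by positivity)

theorem H_ge {b : ℕ} (hb : 2 ≤ b) : b ≤ b ^ Q.EE ∧ 2 ≤ b ^ Q.EE := by
  have h1 : b ^ 1 ≤ b ^ Q.EE := Nat.pow_le_pow_right (by omega) (by unfold EE; omega)
  rw [pow_one] at h1
  exact ⟨h1, by omega⟩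

/-- rough bounds for `K` -/
theorem K_range {a b g : ℕ} (hb : 2 ≤ b) (hab : a ≤ b) (hg : g < (2 * b ^ Q.EE) ^ Q.LL) :
    ∃ n : ℕ, (n : ℤ) = Q.fK (a : ℤ) b g ∧ n < (2 * b ^ Q.EE) ^ (Q.JJ + 1) := by
  obtain ⟨hH1, hH2⟩ := Q.H_ge hb
  have hA := Q.A0b_lt hb
  obtain ⟨H, hH⟩ : ∃ H, H = b ^ Q.EE := ⟨_, rfl⟩
  rw [← hH] at hH1 hH2 hA hg ⊢
  obtain ⟨B, hB⟩ : ∃ B, B = 2 * H := ⟨_, rfl⟩
  rw [← hB] at hg ⊢
  have hfH : Q.fH (b : ℤ) = H := by unfold fH; rw [hH]; push_cast; rfl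
  have hfB : Q.fB (b : ℤ) = B := by unfold fB; rw [hfH, hB]; push_cast; rfl
  have hBz : (4 : ℤ) ≤ B := by exact_mod_cast (by omega : 4 ≤ B)
  -- D bound
  have hD : |Q.fD (a : ℤ) b| ≤ (Q.A0 * b) * (B : ℤ) ^ (4 * Q.LL * Q.K) := by
    unfold fD
    refine (abs_sum_le_sum_abs _ _).trans ?_
    have h1 := Q.D_bound hab (by omega : 1 ≤ b)
    calc ∑ k ∈ range Q.K, |∑ j ∈ range 3, ((Q.α k j * mu (Q.p k j) (Q.q k j) : ℤ) : ℤ) *
          (a : ℤ) ^ Q.s k j * Q.fB (b : ℤ) ^ (Q.TT k - ex (Q.p k j) - ex (Q.q k j))|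
        ≤ ∑ k ∈ range Q.K, ∑ j ∈ range 3,
          |Q.α k j * mu (Q.p k j) (Q.q k j) * (a : ℤ) ^ Q.s k j| * (B : ℤ) ^ (4 * Q.LL * Q.K) := by
          refine sum_le_sum (fun k hk => ?_)
          rw [mem_range] at hk
          refine (abs_sum_le_sum_abs _ _).trans (sum_le_sum (fun j _ => ?_))
          rw [abs_mul, hfB, abs_pow, Nat.abs_cast]
          have h2 := Q.TT_le hk
          gcongr
          · omega
          · omega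
      _ = (∑ k ∈ range Q.K, ∑ j ∈ range 3,
          |Q.α k j * mu (Q.p k j) (Q.q k j) * (a : ℤ) ^ Q.s k j|) * (B : ℤ) ^ (4 * Q.LL * Q.K) := by
          rw [sum_mul]
          refine sum_congr rfl (fun k _ => ?_)
          rw [sum_mul]
      _ ≤ _ := by gcongr
  have hLL := Q.LL_pos
  have hc : |((1 : ℤ) + g) ^ 2 * Q.fD (a : ℤ) b| ≤ (B : ℤ) ^ (Q.JJ - 1) := by
    rw [abs_mul]
    have h1 : |((1 : ℤ) + g) ^ 2| ≤ ((B : ℤ) ^ Q.LL) ^ 2 := by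
      rw [abs_of_nonneg (by positivity)]
      apply pow_le_pow_left₀ (by positivity)
      have : (1 + g : ℕ) ≤ B ^ Q.LL := by omega
      exact_mod_cast this
    have h2 : ((Q.A0 : ℤ) * b) * (B : ℤ) ^ (4 * Q.LL * Q.K) ≤ B * (B : ℤ) ^ (4 * Q.LL * Q.K) := by
      have : ((Q.A0 : ℤ) * b) ≤ B := by exact_mod_cast (by omega : Q.A0 * b ≤ B)
      gcongr
    calc |((1 : ℤ) + g) ^ 2| * |Q.fD (a : ℤ) b|
        ≤ ((B : ℤ) ^ Q.LL) ^ 2 * (B * (B : ℤ) ^ (4 * Q.LL * Q.K)) :=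
          mul_le_mul h1 (hD.trans h2) (abs_nonneg _) (by positivity)
      _ = (B : ℤ) ^ (2 * Q.LL + 1 + 4 * Q.LL * Q.K) := by ring
      _ ≤ (B : ℤ) ^ (Q.JJ - 1) := by
        apply pow_le_pow_right₀ (by linarith)
        have : Q.JJ = 4 * Q.LL * Q.K + 4 * Q.LL := rfl
        omega
  have hJ : 1 ≤ Q.JJ := by
    have : Q.JJ = 4 * Q.LL * Q.K + 4 * Q.LL := rfl
    omega
  -- the two bounds
  have hup : H * (∑ x ∈ range (Q.JJ + 1), B ^ x) + B ^ (Q.JJ - 1) < B ^ (Q.JJ + 1) := by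
    have h1 := digits_lt (B := B) (x := fun j => if j = Q.JJ - 1 then H + 1 else H)
      (L := Q.JJ + 1) (by
        intro j _
        by_cases hj : j = Q.JJ - 1
        · simp only [hj, if_true]; omega
        · simp only [hj, if_false]; omega)
    have h2 : ∑ j ∈ range (Q.JJ + 1), (if j = Q.JJ - 1 then H + 1 else H) * B ^ j =
        H * (∑ x ∈ range (Q.JJ + 1), B ^ x) + B ^ (Q.JJ - 1) := by
      have h3 : ∀ j ∈ range (Q.JJ + 1), (if j = Q.JJ - 1 then H + 1 else H) * B ^ j =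
          H * B ^ j + (if j = Q.JJ - 1 then B ^ j else 0) := by
        intro j _; split_ifs <;> ring
      rw [sum_congr rfl h3, sum_add_distrib, ← mul_sum, sum_ite_eq' (range (Q.JJ + 1)) (Q.JJ - 1),
        if_pos (mem_range.2 (by omega))]
    rwa [h2] at h1
  have hlow : B ^ (Q.JJ - 1) ≤ H * (∑ x ∈ range (Q.JJ + 1), B ^ x) := by
    have h1 : B ^ Q.JJ ≤ ∑ x ∈ range (Q.JJ + 1), B ^ x :=
      single_le_sum (f := fun x => B ^ x) (fun _ _ => Nat.zero_le _)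
        (mem_range.2 (Nat.lt_succ_self _))
    calc B ^ (Q.JJ - 1) ≤ B ^ Q.JJ := Nat.pow_le_pow_right (by omega) (by omega)
      _ ≤ ∑ x ∈ range (Q.JJ + 1), B ^ x := h1
      _ ≤ _ := Nat.le_mul_of_pos_left _ (by omega)
  have hupz : (H : ℤ) * (∑ x ∈ range (Q.JJ + 1), (B : ℤ) ^ x) + (B : ℤ) ^ (Q.JJ - 1) <
      (B : ℤ) ^ (Q.JJ + 1) := by exact_mod_cast hup
  have hlowz : (B : ℤ) ^ (Q.JJ - 1) ≤ (H : ℤ) * (∑ x ∈ range (Q.JJ + 1), (B : ℤ) ^ x) := by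
    exact_mod_cast hlow
  have hKdef : Q.fK (a : ℤ) b g =
      (1 + (g : ℤ)) ^ 2 * Q.fD (a : ℤ) b + H * ∑ x ∈ range (Q.JJ + 1), (B : ℤ) ^ x := by
    unfold fK; rw [hfH, hfB]
  have hc2 := abs_le.1 hc
  have hK0 : 0 ≤ Q.fK (a : ℤ) b g := by rw [hKdef]; linarith
  obtain ⟨n, hn⟩ := Int.eq_ofNat_of_zero_le hK0
  refine ⟨n, hn.symm, ?_⟩
  have : (n : ℤ) < (B : ℤ) ^ (Q.JJ + 1) := by
    rw [← hn, hKdef]; linarith
  exact_mod_cast this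

/-- the mask of the code -/
def mdig (b : ℕ) (x : ℕ) : ℕ :=
  if x ∈ (range Q.ν).image (fun i => ex (i + 1)) then 2 * b ^ Q.EE - b else 2 * b ^ Q.EE - 1

/-- the mask of the test -/
def tdig (b : ℕ) (x : ℕ) : ℕ :=
  if x ∈ (range Q.K).image Q.TT then b ^ Q.EE - 1 else 0

theorem fM_eq {b : ℕ} (hb : 2 ≤ b) :
    Q.fM (b : ℤ) = ((∑ x ∈ range Q.LL, Q.mdig b x * (2 * b ^ Q.EE) ^ x : ℕ) : ℤ) := by
  obtain ⟨hH1, hH2⟩ := Q.H_ge hb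
  obtain ⟨B, hB⟩ : ∃ B, B = 2 * b ^ Q.EE := ⟨_, rfl⟩
  have hfB : Q.fB (b : ℤ) = B := by unfold fB fH; rw [hB]; push_cast; rfl
  have h1 := ind_sum (n := Q.LL) (K := Q.ν) (fun i => ex (i + 1))
    (fun i _ j _ h => by
      have := ex_strictMono.injective h; omega)
    (fun i hi => Q.ex_lt_LL (by omega)) (-((b : ℤ) - 1)) (B : ℤ)
  unfold fM
  rw [hfB]
  push_cast
  have h2 : ∀ x ∈ range Q.LL, (Q.mdig b x : ℤ) * (2 * (b : ℤ) ^ Q.EE) ^ x =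
      ((B : ℤ) - 1) * (B : ℤ) ^ x +
      (if x ∈ (range Q.ν).image (fun i => ex (i + 1)) then (-((b : ℤ) - 1)) else 0) *
        (B : ℤ) ^ x := by
    intro x _
    have e : 2 * (b : ℤ) ^ Q.EE = B := by rw [hB]; push_cast; rfl
    rw [e]
    unfold mdig
    rw [← hB]
    split_ifs
    · rw [Nat.cast_sub (by omega)]; ring
    · rw [Nat.cast_sub (by omega)]; push_cast; ring
  rw [sum_congr rfl h2, sum_add_distrib, h1, ← mul_sum]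
  ring

theorem TT_inj {i j : ℕ} (h : Q.TT i = Q.TT j) : i = j := by
  have hLL := Q.LL_pos
  rcases lt_trichotomy i j with h1 | h1 | h1
  · have := Q.TT_lt h1; omega
  · exact h1
  · have := Q.TT_lt h1; omega

theorem TT_lt_JJ {k : ℕ} (h : k < Q.K) : Q.TT k < Q.JJ + 1 := by
  have h1 := Q.TT_le h
  have : Q.JJ = 4 * Q.LL * Q.K + 4 * Q.LL := rfl
  omega

theorem fT_eq {b : ℕ} (hb : 2 ≤ b) :
    Q.fT (b : ℤ) = ((∑ x ∈ range (Q.JJ + 1), Q.tdig b x * (2 * b ^ Q.EE) ^ x : ℕ) : ℤ) := by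
  obtain ⟨hH1, hH2⟩ := Q.H_ge hb
  obtain ⟨B, hB⟩ : ∃ B, B = 2 * b ^ Q.EE := ⟨_, rfl⟩
  have hfB : Q.fB (b : ℤ) = B := by unfold fB fH; rw [hB]; push_cast; rfl
  have h1 := ind_sum (n := Q.JJ + 1) (K := Q.K) Q.TT
    (fun i _ j _ h => Q.TT_inj h) (fun i hi => Q.TT_lt_JJ hi) (((b ^ Q.EE - 1 : ℕ) : ℤ)) (B : ℤ)
  unfold fT
  rw [hfB]
  have h3 : Q.fH (b : ℤ) - 1 = ((b ^ Q.EE - 1 : ℕ) : ℤ) := by
    rw [Nat.cast_sub (by omega)]; unfold fH; push_cast; rfl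
  rw [h3, ← h1]
  push_cast
  refine sum_congr rfl (fun x _ => ?_)
  have e : 2 * (b : ℤ) ^ Q.EE = B := by rw [hB]; push_cast; rfl
  rw [e]
  unfold tdig
  split_ifs <;> simp

theorem mdig_lt {b : ℕ} (hb : 2 ≤ b) (x : ℕ) : Q.mdig b x < 2 * b ^ Q.EE := by
  obtain ⟨hH1, hH2⟩ := Q.H_ge hb
  unfold mdig
  split_ifs <;> omega

theorem tdig_lt {b : ℕ} (hb : 2 ≤ b) (x : ℕ) : Q.tdig b x < 2 * b ^ Q.EE := by
  obtain ⟨hH1, hH2⟩ := Q.H_ge hb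
  unfold tdig
  split_ifs <;> omega

/-- the numbers `S` and `T` -/
theorem ST_nat {a b g : ℕ} (hb : 2 ≤ b) (hab : a ≤ b) (hg : g < (2 * b ^ Q.EE) ^ Q.LL) :
    ∃ n S T : ℕ, (n : ℤ) = Q.fK (a : ℤ) b g ∧ n < (2 * b ^ Q.EE) ^ (Q.JJ + 1) ∧
      S = g + (2 * b ^ Q.EE) ^ Q.LL * n ∧
      T = (∑ x ∈ range Q.LL, Q.mdig b x * (2 * b ^ Q.EE) ^ x) + (2 * b ^ Q.EE) ^ Q.LL *
        (∑ x ∈ range (Q.JJ + 1), Q.tdig b x * (2 * b ^ Q.EE) ^ x) ∧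
      (S : ℤ) = Q.fS (a : ℤ) b g ∧ (T : ℤ) = Q.fTT (b : ℤ) ∧
      S < (2 * b ^ Q.EE) ^ (Q.LL + Q.JJ + 1) ∧ T < (2 * b ^ Q.EE) ^ (Q.LL + Q.JJ + 1) := by
  obtain ⟨n, hn, hn2⟩ := Q.K_range hb hab hg
  have h1 := digits_lt (B := 2 * b ^ Q.EE) (x := Q.mdig b) (L := Q.LL)
    (fun j _ => Q.mdig_lt hb j)
  have h2 := digits_lt (B := 2 * b ^ Q.EE) (x := Q.tdig b) (L := Q.JJ + 1)
    (fun j _ => Q.tdig_lt hb j)
  have key : ∀ u v : ℕ, u < (2 * b ^ Q.EE) ^ Q.LL → v < (2 * b ^ Q.EE) ^ (Q.JJ + 1) →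
      u + (2 * b ^ Q.EE) ^ Q.LL * v < (2 * b ^ Q.EE) ^ (Q.LL + Q.JJ + 1) := by
    intro u v hu hv
    have e : (2 * b ^ Q.EE) ^ (Q.LL + Q.JJ + 1) =
        (2 * b ^ Q.EE) ^ Q.LL * (2 * b ^ Q.EE) ^ (Q.JJ + 1) := by rw [← pow_add]; ring_nf
    rw [e]
    calc u + (2 * b ^ Q.EE) ^ Q.LL * v < (2 * b ^ Q.EE) ^ Q.LL * 1 +
          (2 * b ^ Q.EE) ^ Q.LL * v := by omega
      _ = (2 * b ^ Q.EE) ^ Q.LL * (v + 1) := by ring
      _ ≤ _ := Nat.mul_le_mul_left _ hv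
  refine ⟨n, _, _, hn, hn2, rfl, rfl, ?_, ?_, key _ _ hg hn2, key _ _ h1 h2⟩
  · unfold fS fN1 fB fH
    rw [← hn]
    push_cast
    rfl
  · unfold fTT fN1 fB fH
    rw [Q.fM_eq hb, Q.fT_eq hb]
    push_cast
    rfl

theorem index_nat {a b g : ℕ} (hb : 2 ≤ b) {S T N : ℕ} (hS : (S : ℤ) = Q.fS (a : ℤ) b g)
    (hT : (T : ℤ) = Q.fTT (b : ℤ)) (hN : (N : ℤ) = Q.fN (b : ℤ)) (hSN : S < N) (hTN : T < N) :
    ∃ l : ℕ, (l : ℤ) = Q.fl (a : ℤ) b g ∧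
      l + 1 = b * (((N - 1 - S) + N * ((N - 1 - T) + N * (S + T))) + 1) := by
  obtain ⟨R, hR⟩ : ∃ R : ℕ, R = (N - 1 - S) + N * ((N - 1 - T) + N * (S + T)) := ⟨_, rfl⟩
  rw [← hR]
  have h1 : (R : ℤ) = Q.fR (a : ℤ) b g := by
    unfold fR
    rw [← hS, ← hT, ← hN, hR]
    push_cast [Nat.cast_sub (by omega : S ≤ N - 1), Nat.cast_sub (by omega : T ≤ N - 1),
      Nat.cast_sub (by omega : 1 ≤ N)]
    ring
  refine ⟨b * (R + 1) - 1, ?_, ?_⟩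
  · have h2 : 1 ≤ b * (R + 1) := Nat.mul_pos (by omega) (by omega)
    rw [Nat.cast_sub h2]
    unfold fl
    rw [← h1]
    push_cast
    ring
  · have h2 : 1 ≤ b * (R + 1) := Nat.mul_pos (by omega) (by omega)
    omega

end QS

end Pool.Agent.H715.U8
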