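import Mathlib
import Pool.Agent.H715.U8.CodeC

set_option autoImplicit false

/-!
The coding theorem: orthogonality of `S` and `T` expresses solvability of the quadratic system.
-/

namespace Pool.Agent.H715.U8

open Finset

namespace QS

variable (Q : QS)

/-- the code has the right shape -/
def Shape (b : ℕ) (w : ℕ → ℕ) (g : ℕ) : Prop :=
  w 0 = 1 ∧ (∀ i < Q.ν, w (i + 1) < b) ∧
    g = ∑ i ∈ range Q.ν, w (i + 1) * (2 * b ^ Q.EE) ^ ex (i + 1)

theorem base_eq {b β : ℕ} (hb : b = 2 ^ β) : 2 * b ^ Q.EE = 2 ^ (β * Q.EE + 1) := by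
  rw [hb, ← pow_mul, pow_succ]; ring

theorem mask_sound {b β g : ℕ} (hβ : 1 ≤ β) (hb : b = 2 ^ β)
    (hg : g < (2 * b ^ Q.EE) ^ Q.LL)
    (h : Orth g (∑ x ∈ range Q.LL, Q.mdig b x * (2 * b ^ Q.EE) ^ x)) :
    ∃ w, Q.Shape b w g := by
  have hb2 : 2 ≤ b := by
    rw [hb]; calc 2 = 2 ^ 1 := by norm_num
      _ ≤ 2 ^ β := Nat.pow_le_pow_right (by norm_num) hβ
  obtain ⟨hH1, hH2⟩ := Q.H_ge hb2
  have hBe := Q.base_eq hb
  obtain ⟨x, hx, hgx⟩ := exists_digits (by omega : 0 < 2 * b ^ Q.EE) Q.LL g hg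
  have hq : β ≤ β * Q.EE + 1 := by
    have : β * 1 ≤ β * Q.EE := Nat.mul_le_mul_left _ (by unfold EE; omega)
    omega
  rw [hBe] at hx hgx h
  rw [hgx] at h
  have h2 := (orth_digits (fun j _ => hx j) (fun j _ => by
    have := Q.mdig_lt hb2 j; rwa [hBe] at this)).1 h
  refine ⟨fun i => if i = 0 then 1 else x (ex i), by simp, ?_, ?_⟩
  · intro i hi
    have h3 := h2 (ex (i + 1)) (Q.ex_lt_LL (by omega))
    have hmem : ex (i + 1) ∈ (range Q.ν).image (fun i => ex (i + 1)) :=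
      mem_image.2 ⟨i, mem_range.2 hi, rfl⟩
    unfold mdig at h3
    rw [if_pos hmem, hBe, hb, orth_low hq (hx _)] at h3
    simp only [Nat.add_eq_zero_iff, one_ne_zero, and_false, if_false]
    rw [hb]; exact h3
  · have h4 : ∀ j ∈ range Q.LL, x j * (2 ^ (β * Q.EE + 1)) ^ j =
        if j ∈ (range Q.ν).image (fun i => ex (i + 1)) then
          x j * (2 ^ (β * Q.EE + 1)) ^ j else 0 := by
      intro j hj
      rw [mem_range] at hj
      by_cases hmem : j ∈ (range Q.ν).image (fun i => ex (i + 1))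
      · rw [if_pos hmem]
      · rw [if_neg hmem]
        have h3 := h2 j hj
        unfold mdig at h3
        rw [if_neg hmem, hBe, orth_full (hx _)] at h3
        rw [h3, zero_mul]
    rw [hBe, hgx, sum_congr rfl h4, sum_ite_mem, inter_eq_right.2, sum_image]
    · refine sum_congr rfl (fun i _ => ?_)
      simp
    · intro i _ j _ h
      have := ex_strictMono.injective h
      omega
    · intro y hy
      rw [mem_image] at hy
      obtain ⟨i, hi, rfl⟩ := hy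
      rw [mem_range] at hi ⊢
      exact Q.ex_lt_LL (by omega)

theorem mask_complete {b β g : ℕ} {w : ℕ → ℕ} (hβ : 1 ≤ β) (hb : b = 2 ^ β)
    (h : Q.Shape b w g) :
    g < (2 * b ^ Q.EE) ^ Q.LL ∧
      Orth g (∑ x ∈ range Q.LL, Q.mdig b x * (2 * b ^ Q.EE) ^ x) := by
  have hb2 : 2 ≤ b := by
    rw [hb]; calc 2 = 2 ^ 1 := by norm_num
      _ ≤ 2 ^ β := Nat.pow_le_pow_right (by norm_num) hβ
  obtain ⟨hH1, hH2⟩ := Q.H_ge hb2
  obtain ⟨h0, hw, hg⟩ := h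
  have hBe := Q.base_eq hb
  have hq : β ≤ β * Q.EE + 1 := by
    have : β * 1 ≤ β * Q.EE := Nat.mul_le_mul_left _ (by unfold EE; omega)
    omega
  -- digits
  obtain ⟨x, hx⟩ : ∃ x : ℕ → ℕ, x = fun j => ∑ i ∈ range Q.ν, if ex (i + 1) = j then w (i + 1)
      else 0 := ⟨_, rfl⟩
  have hx1 : ∀ i < Q.ν, x (ex (i + 1)) = w (i + 1) := by
    intro i hi
    rw [hx]
    simp only
    rw [sum_eq_single i]
    · rw [if_pos rfl]
    · intro j _ hji
      rw [if_neg]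
      intro h
      have := ex_strictMono.injective h
      omega
    · intro h; exact absurd (mem_range.2 hi) h
  have hx2 : ∀ j, j ∉ (range Q.ν).image (fun i => ex (i + 1)) → x j = 0 := by
    intro j hj
    rw [hx]
    refine sum_eq_zero (fun i hi => ?_)
    rw [if_neg]
    intro h
    exact hj (mem_image.2 ⟨i, hi, h⟩)
  have hxb : ∀ j, x j < b := by
    intro j
    by_cases hj : j ∈ (range Q.ν).image (fun i => ex (i + 1))
    · obtain ⟨i, hi, rfl⟩ := mem_image.1 hj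
      rw [mem_range] at hi
      rw [hx1 i hi]; exact hw i hi
    · rw [hx2 j hj]; omega
  have hgx : g = ∑ j ∈ range Q.LL, x j * (2 * b ^ Q.EE) ^ j := by
    have h1 := group_sum (range Q.ν) (fun i => (w (i + 1) : ℤ)) (fun i => ex (i + 1)) (Q.LL - 1)
      ((2 * b ^ Q.EE : ℕ) : ℤ) (fun i hi => by
        rw [mem_range] at hi
        have := Q.ex_lt_LL (i := i + 1) (by omega)
        omega)
    rw [Nat.sub_add_cancel Q.LL_pos] at h1
    rw [hg, hx]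
    have h2 : ((∑ i ∈ range Q.ν, w (i + 1) * (2 * b ^ Q.EE) ^ ex (i + 1) : ℕ) : ℤ) =
      ((∑ j ∈ range Q.LL, (∑ i ∈ range Q.ν, if ex (i + 1) = j then w (i + 1) else 0) *
        (2 * b ^ Q.EE) ^ j : ℕ) : ℤ) := by
      push_cast at h1 ⊢
      exact h1
    exact_mod_cast h2
  have hxB : ∀ j, x j < 2 * b ^ Q.EE := fun j => by have := hxb j; omega
  refine ⟨by rw [hgx]; exact digits_lt (fun j _ => hxB j), ?_⟩
  rw [hgx, hBe]
  refine (orth_digits (fun j _ => by rw [← hBe]; exact hxB j) (fun j _ => by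
    have := Q.mdig_lt hb2 j; rwa [hBe] at this)).2 ?_
  intro j _
  unfold mdig
  by_cases hj : j ∈ (range Q.ν).image (fun i => ex (i + 1))
  · rw [if_pos hj, hBe, hb, orth_low hq (by rw [← hBe]; exact hxB j), ← hb]
    exact hxb j
  · rw [if_neg hj, hx2 j hj]
    exact orth_zero_left _

theorem test_digit {a b β g n : ℕ} {w : ℕ → ℕ} (hβ : 1 ≤ β) (hb : b = 2 ^ β) (hab : a ≤ b)
    (hn : (n : ℤ) = Q.fK (a : ℤ) b g) (h : Q.Shape b w g) :
    Orth n (∑ x ∈ range (Q.JJ + 1), Q.tdig b x * (2 * b ^ Q.EE) ^ x) ↔ Q.Sat a w := by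
  have hb2 : 2 ≤ b := by
    rw [hb]; calc 2 = 2 ^ 1 := by norm_num
      _ ≤ 2 ^ β := Nat.pow_le_pow_right (by norm_num) hβ
  obtain ⟨hH1, hH2⟩ := Q.H_ge hb2
  obtain ⟨h0, hw, hg⟩ := h
  have hBe := Q.base_eq hb
  have hHe : b ^ Q.EE = 2 ^ (β * Q.EE) := by rw [hb, ← pow_mul]
  obtain ⟨wz, hwz⟩ : ∃ wz : ℕ → ℤ, wz = fun i => (w i : ℤ) := ⟨_, rfl⟩
  -- 1 + g
  have h1g : (1 : ℤ) + g = ∑ i ∈ range (Q.ν + 1), wz i * ((2 * b ^ Q.EE : ℕ) : ℤ) ^ ex i := by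
    rw [sum_range_succ', hwz, hg]
    simp only [h0, ex, pow_zero, Nat.cast_one, mul_one]
    push_cast
    ring
  have hfH : Q.fH (b : ℤ) = ((b ^ Q.EE : ℕ) : ℤ) := by unfold fH; push_cast; rfl
  have hfB : Q.fB (b : ℤ) = ((2 * b ^ Q.EE : ℕ) : ℤ) := by unfold fB; rw [hfH]; push_cast; rfl
  have hprod := Q.prod_eq (a : ℤ) ((2 * b ^ Q.EE : ℕ) : ℤ) wz (Q.fD (a : ℤ) b) (by
    unfold fD; rw [hfB]; simp)
  rw [← h1g] at hprod
  -- bound for kap
  have hkap : ∀ x, |Q.kap (a : ℤ) wz x| < ((b ^ Q.EE : ℕ) : ℤ) := by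
    intro x
    have h1 := Q.kap_abs_le (a := a) (b := b) (w := wz) hab (by omega) (by
      intro i hi
      rw [hwz]
      simp only [Nat.abs_cast]
      rcases Nat.eq_zero_or_pos i with h2 | h2
      · rw [h2, h0]; exact_mod_cast (by omega : 1 ≤ b)
      · obtain ⟨i', rfl⟩ : ∃ i', i = i' + 1 := ⟨i - 1, by omega⟩
        exact_mod_cast (hw i' (by omega)).le) x
    exact lt_of_le_of_lt h1 (by exact_mod_cast Q.bound_lt_H hb2)
  obtain ⟨kd, hkd⟩ : ∃ kd : ℕ → ℕ, ∀ x, (kd x : ℤ) = ((b ^ Q.EE : ℕ) : ℤ) + Q.kap (a : ℤ) wz x := by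
    refine ⟨fun x => (((b ^ Q.EE : ℕ) : ℤ) + Q.kap (a : ℤ) wz x).toNat, fun x => ?_⟩
    have := abs_lt.1 (hkap x)
    rw [Int.toNat_of_nonneg (by linarith)]
  have hkd0 : ∀ x, 0 < kd x := by
    intro x
    have h1 := hkd x
    have := abs_lt.1 (hkap x)
    have h2 : (0 : ℤ) < kd x := by rw [h1]; linarith
    exact_mod_cast h2
  have hkd1 : ∀ x, kd x < 2 * b ^ Q.EE := by
    intro x
    have h1 := hkd x
    have := abs_lt.1 (hkap x)
    have h2 : (kd x : ℤ) < ((2 * b ^ Q.EE : ℕ) : ℤ) := by rw [h1]; push_cast at this ⊢; linarith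
    exact_mod_cast h2
  have hnd : n = ∑ x ∈ range (Q.JJ + 1), kd x * (2 * b ^ Q.EE) ^ x := by
    have h2 : (n : ℤ) = ((∑ x ∈ range (Q.JJ + 1), kd x * (2 * b ^ Q.EE) ^ x : ℕ) : ℤ) := by
      rw [hn]
      unfold fK
      rw [hprod, hfH, hfB, mul_sum, ← sum_add_distrib]
      rw [Nat.cast_sum]
      refine sum_congr rfl (fun x _ => ?_)
      have e := hkd x
      push_cast at e ⊢
      rw [e]; ring
    exact_mod_cast h2
  rw [hnd, hBe, orth_digits (fun j _ => by rw [← hBe]; exact hkd1 j) (fun j _ => by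
    have := Q.tdig_lt hb2 j; rwa [hBe] at this)]
  have hdig : ∀ κ < Q.K, (Orth (kd (Q.TT κ)) (Q.tdig b (Q.TT κ)) ↔ Q.val (a : ℤ) wz κ = 0) := by
    intro κ hκ
    have hmem : Q.TT κ ∈ (range Q.K).image Q.TT := mem_image.2 ⟨κ, mem_range.2 hκ, rfl⟩
    unfold tdig
    rw [if_pos hmem, hHe, orth_half (hkd0 _) (by rw [← hHe]; exact hkd1 _), ← hHe]
    have h1 := hkd (Q.TT κ)
    rw [Q.kap_TT (a : ℤ) wz hκ] at h1
    constructor
    · intro h2
      rw [h2] at h1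
      linarith
    · intro h2
      rw [h2] at h1
      have : (kd (Q.TT κ) : ℤ) = ((b ^ Q.EE : ℕ) : ℤ) := by rw [h1]; ring
      exact_mod_cast this
  constructor
  · intro h2 κ hκ
    have := (hdig κ hκ).1 (h2 (Q.TT κ) (Q.TT_lt_JJ hκ))
    rw [hwz] at this
    exact this
  · intro h2 x _
    by_cases hx : x ∈ (range Q.K).image Q.TT
    · obtain ⟨κ, hκ, rfl⟩ := mem_image.1 hx
      rw [mem_range] at hκ
      refine (hdig κ hκ).2 ?_
      rw [hwz]; exact h2 κ hκ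
    · unfold tdig
      rw [if_neg hx]
      exact orth_zero_right _

theorem orth_split {b β g n m t : ℕ} (hb : b = 2 ^ β) (hg : g < (2 * b ^ Q.EE) ^ Q.LL)
    (hm : m < (2 * b ^ Q.EE) ^ Q.LL) :
    Orth (g + (2 * b ^ Q.EE) ^ Q.LL * n) (m + (2 * b ^ Q.EE) ^ Q.LL * t) ↔
      Orth g m ∧ Orth n t := by
  rw [Q.base_eq hb, ← pow_mul] at hg hm ⊢
  exact orth_block hg hm _ _

/-- the coding theorem -/
theorem coding {a b β g n S T : ℕ} (hβ : 1 ≤ β) (hb : b = 2 ^ β) (hab : a ≤ b)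
    (hg : g < (2 * b ^ Q.EE) ^ Q.LL) (hn : (n : ℤ) = Q.fK (a : ℤ) b g)
    (hS : S = g + (2 * b ^ Q.EE) ^ Q.LL * n)
    (hT : T = (∑ x ∈ range Q.LL, Q.mdig b x * (2 * b ^ Q.EE) ^ x) + (2 * b ^ Q.EE) ^ Q.LL *
        (∑ x ∈ range (Q.JJ + 1), Q.tdig b x * (2 * b ^ Q.EE) ^ x)) :
    Orth S T ↔ ∃ w, Q.Shape b w g ∧ Q.Sat a w := by
  have hb2 : 2 ≤ b := by
    rw [hb]; calc 2 = 2 ^ 1 := by norm_num
      _ ≤ 2 ^ β := Nat.pow_le_pow_right (by norm_num) hβ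
  have hm := digits_lt (B := 2 * b ^ Q.EE) (x := Q.mdig b) (L := Q.LL)
    (fun j _ => Q.mdig_lt hb2 j)
  rw [hS, hT, Q.orth_split hb hg hm]
  constructor
  · rintro ⟨h1, h2⟩
    obtain ⟨w, hw⟩ := Q.mask_sound hβ hb hg h1
    exact ⟨w, hw, (Q.test_digit hβ hb hab hn hw).1 h2⟩
  · rintro ⟨w, hw, h2⟩
    exact ⟨(Q.mask_complete hβ hb hw).2, (Q.test_digit hβ hb hab hn hw).2 h2⟩

end QS

end Pool.Agent.H715.U8
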