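import Mathlib
import Pool.Graph.R_seed8.H689R2.MainL

set_option autoImplicit false

/-!
The characterisation of `C = ± y_B(A)` by one square condition, with integer unknowns.
-/

namespace Pool.Agent.H715.U8

open Pell Pool.Agent.H689R2

theorem yn_two_add {a : ℕ} (a1 : 1 < a) (N t : ℕ) :
    (xn a1 N : ℤ) ∣ (yn a1 (2 * N + t) : ℤ) + yn a1 t := by
  have h1 : yn a1 (2 * N + t) = xn a1 N * yn a1 (N + t) + yn a1 N * xn a1 (N + t) := by
    rw [show 2 * N + t = N + (N + t) by ring, yn_add]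
  have h2 : xn a1 (N + t) = xn a1 N * xn a1 t + (a * a - 1) * yn a1 N * yn a1 t :=
    xn_add a1 N t
  have h3 := xn_sq a1 N
  refine ⟨(yn a1 (N + t) : ℤ) + yn a1 N * xn a1 t + xn a1 N * yn a1 t, ?_⟩
  have h2' := congrArg (Nat.cast : ℕ → ℤ) h2
  have h3' := congrArg (Nat.cast : ℕ → ℤ) h3
  rw [h1]
  push_cast at h2' h3' ⊢
  rw [h2']
  linear_combination (-(yn a1 t : ℤ)) * h3'

theorem idx_aux {c r B : ℤ} (hr : 0 < r) (hrc : r ≤ c) (hB : 0 < B) (hBc : B ≤ c)
    (h : 2 * c ∣ r - B ∨ 2 * c ∣ r + B) : r = B := by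
  rcases h with ⟨k, hk⟩ | ⟨k, hk⟩
  · have h1 : |2 * c * k| < 2 * c := by
      rw [← hk, abs_lt]; constructor <;> linarith
    rw [abs_mul, abs_of_pos (by linarith : 0 < 2 * c)] at h1
    have h2 : |k| < 1 := by nlinarith [abs_nonneg k]
    have h3 : k = 0 := Int.abs_lt_one_iff.1 h2
    rw [h3] at hk
    linarith
  · have hk1 : 0 < k := by
      by_contra hcon
      push Not at hcon
      nlinarith
    have : 2 * c * 1 ≤ 2 * c * k := by
      apply mul_le_mul_of_nonneg_left _ (by linarith)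
      omega
    linarith

/-- soundness with `C > 0`, `x : ℕ`, and `B` of any sign -/
theorem main_sound_aux {A B C : ℕ} {x : ℕ} {y B' : ℤ} (hA : 1 < A) (hB : 0 < B) (hBC : B ≤ C)
    (hB' : B' = B ∨ B' = -B) (h : IsSquare (qDPI (A : ℤ) B' C x y)) : C = yn hA B := by
  have hC : 0 < C := lt_of_lt_of_le hB hBC
  have hAz : (2 : ℤ) ≤ A := by exact_mod_cast hA
  have hCz : (1 : ℤ) ≤ C := by exact_mod_cast hC
  have hxz : (0 : ℤ) ≤ x := by positivity
  have hA2 : (3 : ℤ) ≤ (A : ℤ) ^ 2 - 1 := by nlinarith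
  have hD : 1 ≤ qD (A : ℤ) C := by unfold qD; nlinarith [sq_nonneg (C : ℤ)]
  have hE : 4 ≤ qE (A : ℤ) C x := by
    unfold qE
    have h1 : 1 ≤ (C : ℤ) ^ 2 := one_le_pow₀ hCz
    have h2 : 1 * 1 ≤ (C : ℤ) ^ 2 * qD (A : ℤ) C := mul_le_mul h1 hD (by norm_num) (by linarith)
    have h3 : 1 * 1 ≤ ((C : ℤ) ^ 2 * qD (A : ℤ) C) * (x + 1) :=
      mul_le_mul (by linarith) (by linarith) (by norm_num) (by linarith)
    have h4 : 4 * (C : ℤ) ^ 2 * qD (A : ℤ) C * (x + 1) =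
      4 * (((C : ℤ) ^ 2 * qD (A : ℤ) C) * (x + 1)) := by ring
    rw [h4]; linarith
  have hP : (A : ℤ) + 1 ≤ qP (A : ℤ) C x := by
    unfold qP
    have h1 : 16 ≤ (qE (A : ℤ) C x) ^ 2 := by nlinarith
    nlinarith
  have hG : (A : ℤ) + 1 ≤ qG (A : ℤ) C x := by
    unfold qG
    nlinarith
  have hI : 1 ≤ qI (A : ℤ) B' C x y := by
    unfold qI
    have h1 : 0 ≤ (qG (A : ℤ) C x) ^ 2 - 1 := by nlinarith
    nlinarith [mul_nonneg h1 (sq_nonneg (qH (A : ℤ) B' C x y))]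
  have c1 := coprime_D_P (A : ℤ) C x
  have c2 := coprime_P_I (A : ℤ) B' C x y
  have c3 := coprime_D_I (A : ℤ) B' C x y
  have hPpos : 0 < qP (A : ℤ) C x := by linarith
  have hDpos : 0 < qD (A : ℤ) C := by linarith
  have hIpos : 0 < qI (A : ℤ) B' C x y := by linarith
  have sD : IsSquare (qD (A : ℤ) C) := by
    refine isSquare_of_mul_coprime hDpos (IsCoprime.mul_right c1 c3) ?_
    rw [← mul_assoc]; exact h
  have sP : IsSquare (qP (A : ℤ) C x) := by
    refine isSquare_of_mul_coprime hPpos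
      (IsCoprime.mul_right c1.symm c2) ?_
    have : qP (A : ℤ) C x * (qD (A : ℤ) C * qI (A : ℤ) B' C x y) = qDPI (A : ℤ) B' C x y := by
      unfold qDPI; ring
    rw [this]; exact h
  have sI : IsSquare (qI (A : ℤ) B' C x y) := by
    refine isSquare_of_mul_coprime hIpos
      (IsCoprime.mul_right c3.symm c2.symm) ?_
    have : qI (A : ℤ) B' C x y * (qD (A : ℤ) C * qP (A : ℤ) C x) = qDPI (A : ℤ) B' C x y := by
      unfold qDPI; ring
    rw [this]; exact h
  -- natural-number versions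
  obtain ⟨E, hEn⟩ := Int.eq_ofNat_of_zero_le (by linarith : 0 ≤ qE (A : ℤ) C x)
  obtain ⟨P, hPn⟩ := Int.eq_ofNat_of_zero_le (by linarith : 0 ≤ qP (A : ℤ) C x)
  obtain ⟨G, hGn⟩ := Int.eq_ofNat_of_zero_le (by linarith : 0 ≤ qG (A : ℤ) C x)
  obtain ⟨H, hHn⟩ : ∃ H : ℕ, (H : ℤ) = |qH (A : ℤ) B' C x y| :=
    ⟨(qH (A : ℤ) B' C x y).natAbs, Int.natCast_natAbs _⟩
  obtain ⟨δ, hδ, hHδ⟩ : ∃ δ : ℤ, (δ = 1 ∨ δ = -1) ∧ (H : ℤ) = δ * qH (A : ℤ) B' C x y := by
    rcases le_total 0 (qH (A : ℤ) B' C x y) with h0 | h0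
    · exact ⟨1, Or.inl rfl, by rw [hHn, abs_of_nonneg h0]; ring⟩
    · exact ⟨-1, Or.inr rfl, by rw [hHn, abs_of_nonpos h0]; ring⟩
  have hG1 : 1 < G := by
    have : (A : ℤ) + 1 ≤ G := by rw [← hGn]; exact hG
    have : (1 : ℤ) < G := by linarith
    exact_mod_cast this
  obtain ⟨r, hr⟩ := (isSquare_int_iff hA C).1 (by simpa [qD] using sD)
  obtain ⟨N, hN⟩ := (isSquare_int_iff hA E).1 (by rw [← hEn]; simpa [qP] using sP)
  obtain ⟨t, ht⟩ := (isSquare_int_iff hG1 H).1 (by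
    rw [hHn, sq_abs, ← hGn]; simpa [qI] using sI)
  -- P = xn N ^ 2
  have hPx : (P : ℤ) = (xn hA N : ℤ) * xn hA N := by
    have h1 := xn_sq hA N
    have h2 : 1 ≤ A * A := Nat.mul_pos (by omega) (by omega)
    have h3 : ((xn hA N * xn hA N : ℕ) : ℤ) = (((A * A - 1) * (yn hA N * yn hA N) + 1 : ℕ) : ℤ) := by
      exact_mod_cast h1
    rw [← hPn, qP, hEn, hN]
    push_cast [Nat.cast_sub h2] at h3
    rw [h3]; ring
  have hGA : (G : ℤ) = A + P * (P - A) := by rw [← hGn, ← hPn]; rfl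
  have hHC : (H : ℤ) = δ * (C + P * (B' + C * (2 * y + 1))) := by rw [hHδ, ← hPn]; rfl
  have hxP : ((xn hA N : ℕ) : ℤ) ∣ P := ⟨xn hA N, hPx⟩
  -- G ≡ A mod xn N
  have m1 : G ≡ A [MOD xn hA N] := by
    rw [← Int.natCast_modEq_iff]
    refine (Int.modEq_iff_dvd.2 ?_).symm
    rw [hGA]
    obtain ⟨q, hq⟩ := hxP
    exact ⟨q * (P - A), by rw [hq]; ring⟩
  have m2 : ((xn hA N : ℕ) : ℤ) ∣ (H : ℤ) - δ * C := by
    obtain ⟨q, hq⟩ := hxP
    refine ⟨δ * (q * (B' + C * (2 * y + 1))), ?_⟩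
    rw [hHC, hq]; ring
  have hP4 : ∃ w : ℤ, (P : ℤ) = 1 + (4 * C) * w := ⟨_, by rw [← hPn]; exact qP_eq' A C x⟩
  obtain ⟨w, hw⟩ := hP4
  have m3 : ((xn hA N : ℕ) : ℤ) ∣ (yn hA t : ℤ) - δ * yn hA r := by
    have h1 := (xy_modEq_of_modEq hG1 hA m1 t).2
    rw [← ht] at h1
    rw [← hr]
    have h2 : ((xn hA N : ℕ) : ℤ) ∣ (yn hA t : ℤ) - H :=
      Int.modEq_iff_dvd.1 ((Int.natCast_modEq_iff).2 h1)
    have h3 := dvd_add h2 m2
    have e : (yn hA t : ℤ) - H + (H - δ * C) = (yn hA t : ℤ) - δ * C := by ring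
    rwa [e] at h3
  -- C ∣ N
  have hN0 : 0 < N := by
    rcases Nat.eq_zero_or_pos N with h0 | h0
    · exfalso
      rw [h0, yn_zero] at hN
      rw [hN] at hEn
      rw [hEn] at hE
      norm_num at hE
    · exact h0
  have hCC : yn hA r * yn hA r ∣ yn hA N := by
    rw [← hr, ← hN]
    have : ((C * C : ℕ) : ℤ) ∣ (E : ℤ) := by
      rw [← hEn]
      refine ⟨4 * qD (A : ℤ) C * (x + 1), ?_⟩
      unfold qE; push_cast; ring
    exact_mod_cast this
  have hCN : C ∣ N := by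
    have := dvd_of_ysq_dvd hA hCC
    rwa [← hr] at this
  have hr0 : 0 < r := by
    rcases Nat.eq_zero_or_pos r with h0 | h0
    · exfalso; rw [h0, yn_zero] at hr; omega
    · exact h0
  have hrC : r ≤ C := by rw [hr]; exact yn_ge_n hA r
  have hrN : r < N := by
    have h1 : yn hA r < yn hA N := by
      rw [← hr, ← hN]
      have h5 : (C : ℤ) < E := by
        rw [← hEn]
        unfold qE
        have h6 : (C : ℤ) ≤ (C : ℤ) ^ 2 := by
          rw [sq]; exact le_mul_of_one_le_right (by linarith) hCz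
        have h7 : (C : ℤ) ≤ (C : ℤ) ^ 2 * qD (A : ℤ) C :=
          h6.trans (le_mul_of_one_le_right (by positivity) hD)
        have h8 : (C : ℤ) ≤ (C : ℤ) ^ 2 * qD (A : ℤ) C * (x + 1) :=
          h7.trans (le_mul_of_one_le_right (by linarith) (by linarith))
        have h9 : 4 * (C : ℤ) ^ 2 * qD (A : ℤ) C * (x + 1) =
          4 * ((C : ℤ) ^ 2 * qD (A : ℤ) C * (x + 1)) := by ring
        rw [h9]; linarith
      exact_mod_cast h5
    exact (strictMono_y hA).lt_iff_lt.1 h1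
  have m4 : ((2 * C : ℕ) : ℤ) ∣ (t : ℤ) - δ * B' := by
    have h1 : ((2 * C : ℕ) : ℤ) ∣ (H : ℤ) - δ * B' := by
      rw [hHC, hw]
      refine ⟨δ * ((y : ℤ) + 1 + 2 * w * (B' + C * (2 * y + 1))), ?_⟩
      push_cast; ring
    have h2 : H ≡ t [MOD 2 * C] := by
      have h3 := yn_modEq_a_sub_one hG1 t
      rw [← ht] at h3
      refine h3.of_dvd ?_
      have h4 : ((2 * C : ℕ) : ℤ) ∣ ((G - 1 : ℕ) : ℤ) := by
        rw [Nat.cast_sub hG1.le, hGA, hw]
        refine ⟨2 * w * (2 + 4 * C * w - A), ?_⟩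
        push_cast; ring
      exact_mod_cast h4
    have h5 : ((2 * C : ℕ) : ℤ) ∣ (t : ℤ) - H := Int.modEq_iff_dvd.1 ((Int.natCast_modEq_iff).2 h2)
    have h6 := dvd_add h5 h1
    have e : (t : ℤ) - H + (H - δ * B') = t - δ * B' := by ring
    rwa [e] at h6
  have key : ((2 * C : ℕ) : ℤ) ∣ (t : ℤ) - r ∨ ((2 * C : ℕ) : ℤ) ∣ (t : ℤ) + r := by
    obtain ⟨c, hc⟩ := hCN
    have d1 : 2 * C ∣ 4 * N := ⟨2 * c, by rw [hc]; ring⟩
    have d2 : 2 * C ∣ 2 * N := ⟨c, by rw [hc]; ring⟩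
    have d2z : ((2 * C : ℕ) : ℤ) ∣ ((2 * N : ℕ) : ℤ) := Int.natCast_dvd_natCast.2 d2
    -- a general statement
    have gen : ∀ s : ℕ, yn hA s ≡ yn hA r [MOD xn hA N] →
        ((2 * C : ℕ) : ℤ) ∣ (s : ℤ) - r ∨ ((2 * C : ℕ) : ℤ) ∣ (s : ℤ) + r := by
      intro s hs
      rcases modEq_of_yn_modEq hA hrN hs with h1 | h1
      · left
        have h2 := h1.of_dvd d1
        exact Int.modEq_iff_dvd.1 ((Int.natCast_modEq_iff).2 h2.symm)
      · right
        have h2 := (h1.of_dvd d1).trans (d2.modEq_zero_nat)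
        have h3 := (Nat.modEq_zero_iff_dvd).1 h2
        have h4 : ((2 * C : ℕ) : ℤ) ∣ ((s + r : ℕ) : ℤ) := Int.natCast_dvd_natCast.2 h3
        rwa [Nat.cast_add] at h4
    rcases hδ with rfl | rfl
    · apply gen
      rw [← Int.natCast_modEq_iff]
      refine (Int.modEq_iff_dvd.2 ?_).symm
      simpa using m3
    · have h5 := gen (2 * N + t) (by
        rw [← Int.natCast_modEq_iff]
        refine (Int.modEq_iff_dvd.2 ?_).symm
        have h6 := yn_two_add hA N t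
        have h7 := dvd_sub h6 m3
        have e : (yn hA (2 * N + t) : ℤ) + yn hA t - (yn hA t - -1 * yn hA r) =
          yn hA (2 * N + t) - yn hA r := by ring
        rwa [e] at h7)
      rcases h5 with h5 | h5
      · left
        have h6 := dvd_sub h5 d2z
        have e : ((2 * N + t : ℕ) : ℤ) - r - ((2 * N : ℕ) : ℤ) = (t : ℤ) - r := by
          push_cast; ring
        rwa [e] at h6
      · right
        have h6 := dvd_sub h5 d2z
        have e : ((2 * N + t : ℕ) : ℤ) + r - ((2 * N : ℕ) : ℤ) = (t : ℤ) + r := by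
          push_cast; ring
        rwa [e] at h6
  have hBr : (r : ℤ) = B := by
    have hc2 : ((2 * C : ℕ) : ℤ) = 2 * (C : ℤ) := by push_cast; ring
    rw [hc2] at key m4
    apply idx_aux (c := (C : ℤ)) (by exact_mod_cast hr0) (by exact_mod_cast hrC)
      (by exact_mod_cast hB) (by exact_mod_cast hBC)
    -- δ B' = ± B
    have hδB : δ * B' = B ∨ δ * B' = -B := by
      rcases hδ with rfl | rfl <;> rcases hB' with rfl | rfl <;> simp
    rcases hδB with h1 | h1 <;> rw [h1] at m4 <;> rcases key with h2 | h2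
    · left
      have := dvd_sub m4 h2
      have e : (t : ℤ) - B - (t - r) = r - B := by ring
      rwa [e] at this
    · right
      have := dvd_sub h2 m4
      have e : (t : ℤ) + r - (t - B) = r + B := by ring
      rwa [e] at this
    · right
      have := dvd_sub m4 h2
      have e : (t : ℤ) - -B - (t - r) = r + B := by ring
      rwa [e] at this
    · left
      have := dvd_sub h2 m4
      have e : (t : ℤ) + r - (t - -B) = r - B := by ring
      rwa [e] at this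
  have hBr' : r = B := by exact_mod_cast hBr
  rw [← hBr']; exact hr

theorem qD_neg (A C : ℤ) : qD A (-C) = qD A C := by unfold qD; ring

theorem qE_neg (A C x : ℤ) : qE A (-C) x = qE A C x := by unfold qE; rw [qD_neg]; ring

theorem qP_neg (A C x : ℤ) : qP A (-C) x = qP A C x := by unfold qP; rw [qE_neg]

theorem qG_neg (A C x : ℤ) : qG A (-C) x = qG A C x := by unfold qG; rw [qP_neg]

theorem qH_neg (A B C x y : ℤ) : qH A B (-C) x y = -(qH A (-B) C x y) := by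
  unfold qH
  rw [qP_neg]
  generalize qP A C x = p
  ring

theorem qI_neg (A B C x y : ℤ) : qI A B (-C) x y = qI A (-B) C x y := by
  unfold qI
  rw [qG_neg, qH_neg]
  generalize qG A C x = g
  generalize qH A (-B) C x y = h
  ring

theorem qDPI_neg (A B C x y : ℤ) : qDPI A B (-C) x y = qDPI A (-B) C x y := by
  unfold qDPI
  rw [qD_neg, qP_neg, qI_neg]

theorem qDPI_x (A B C x x' y : ℤ) (h : x + 1 = -(x' + 1)) :
    qDPI A B C x y = qDPI A B C x' y := by
  have e : qP A C x = qP A C x' := by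
    unfold qP qE; rw [h]; ring
  unfold qDPI qI qG qH
  rw [e]

/-- The square condition pins down `|C|`, for integer unknowns. -/
theorem main_soundZ {A B : ℕ} {C x y : ℤ} (hA : 1 < A) (hB : 0 < B) (hBC : (B : ℤ) ≤ |C|)
    (hx : x + 1 ≠ 0) (h : IsSquare (qDPI (A : ℤ) B C x y)) : |C| = yn hA B := by
  -- make x nonnegative
  obtain ⟨x', hx'⟩ : ∃ x' : ℕ, qDPI (A : ℤ) B C x y = qDPI (A : ℤ) B C x' y := by
    rcases lt_or_gt_of_ne hx with h0 | h0
    · refine ⟨(-(x + 1) - 1).toNat, ?_⟩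
      apply qDPI_x
      rw [Int.toNat_of_nonneg (by omega)]
      ring
    · refine ⟨x.toNat, ?_⟩
      rw [Int.toNat_of_nonneg (by omega)]
  rw [hx'] at h
  obtain ⟨c, hc⟩ : ∃ c : ℕ, (c : ℤ) = |C| := ⟨C.natAbs, Int.natCast_natAbs _⟩
  rw [← hc] at hBC ⊢
  have hBc : B ≤ c := by exact_mod_cast hBC
  rcases le_total 0 C with h0 | h0
  · rw [abs_of_nonneg h0] at hc
    rw [← hc] at h
    exact_mod_cast main_sound_aux hA hB hBc (Or.inl rfl) h
  · rw [abs_of_nonpos h0] at hc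
    have : C = -(c : ℤ) := by rw [hc]; ring
    rw [this, qDPI_neg] at h
    exact_mod_cast main_sound_aux hA hB hBc (Or.inr rfl) h

/-- positivity of the product for all integer unknowns -/
theorem qDPI_posZ {A : ℕ} {B C x y : ℤ} (hA : 1 < A) : 0 < qDPI (A : ℤ) B C x y := by
  have hAz : (2 : ℤ) ≤ A := by exact_mod_cast hA
  have hA2 : (3 : ℤ) ≤ (A : ℤ) ^ 2 - 1 := by nlinarith
  have hD : 1 ≤ qD (A : ℤ) C := by unfold qD; nlinarith [sq_nonneg (C : ℤ)]
  have hP : 1 ≤ qP (A : ℤ) C x := by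
    unfold qP
    nlinarith [sq_nonneg (qE (A : ℤ) C x)]
  have hG : 0 ≤ (qG (A : ℤ) C x) ^ 2 - 1 := by
    have h1 : qP (A : ℤ) C x = 1 ∨ (A : ℤ) + 1 ≤ qP (A : ℤ) C x := by
      rcases eq_or_ne (qE (A : ℤ) C x) 0 with h0 | h0
      · left; unfold qP; rw [h0]; ring
      · right
        have h2 : 1 ≤ |qE (A : ℤ) C x| := Int.one_le_abs h0
        have h3 : 1 ≤ (qE (A : ℤ) C x) ^ 2 := by rw [← sq_abs]; nlinarith
        -- A² - 1 ≥ A
        unfold qP
        nlinarith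
    rcases h1 with h1 | h1
    · unfold qG; rw [h1]; nlinarith
    · have : (A : ℤ) + 1 ≤ qG (A : ℤ) C x := by
        unfold qG
        nlinarith
      nlinarith
  have hI : 1 ≤ qI (A : ℤ) B C x y := by
    unfold qI
    nlinarith [mul_nonneg hG (sq_nonneg (qH (A : ℤ) B C x y))]
  unfold qDPI
  positivity

end Pool.Agent.H715.U8
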