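import Mathlib
import Pool.Agent.H715.U8.PellZ

set_option autoImplicit false

/-!
A Pell number that is only used for its size.
-/

namespace Pool.Agent.H715.U8

open Pell Pool.Agent.H689R2

theorem growthZ {P : ℕ} (hP : 8 ≤ P) {k : ℤ} (hk : k ≠ 0)
    (s : IsSquare (((P : ℤ) ^ 2 - 1) * (((P : ℤ) - 1) * k) ^ 2 + 1)) :
    (((2 * P - 1) ^ (P - 2) : ℕ) : ℤ) ≤ |((P : ℤ) - 1) * k| := by
  have hP1 : 1 < P := by omega
  obtain ⟨n, hn⟩ : ∃ n : ℕ, (n : ℤ) = |((P : ℤ) - 1) * k| :=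
    ⟨(((P : ℤ) - 1) * k).natAbs, Int.natCast_natAbs _⟩
  rw [← hn]
  have s' : IsSquare (((P : ℤ) ^ 2 - 1) * (n : ℤ) ^ 2 + 1) := by
    rw [hn, sq_abs]; exact s
  obtain ⟨j, hj⟩ := (isSquare_int_iff hP1 n).1 s'
  have hdvd : P - 1 ∣ n := by
    have : ((P - 1 : ℕ) : ℤ) ∣ (n : ℤ) := by
      rw [hn, Nat.cast_sub (by omega), dvd_abs]
      push_cast
      exact dvd_mul_right _ _
    exact_mod_cast this
  have hn0 : n ≠ 0 := by
    intro h0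
    rw [h0] at hn
    have : ((P : ℤ) - 1) * k = 0 := abs_eq_zero.1 (by rw [← hn]; rfl)
    rcases mul_eq_zero.1 this with h1 | h1
    · have : (8 : ℤ) ≤ P := by exact_mod_cast hP
      linarith
    · exact hk h1
  have h1 := yn_modEq_a_sub_one hP1 j
  rw [← hj] at h1
  have h3 : P - 1 ∣ j := (Nat.modEq_zero_iff_dvd).1 (h1.symm.trans (hdvd.modEq_zero_nat))
  have hj0 : 0 < j := by
    rcases Nat.eq_zero_or_pos j with h0 | h0
    · rw [h0] at hj; simp at hj; omega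
    · exact h0
  have h4 : P - 1 ≤ j := Nat.le_of_dvd hj0 h3
  have h5 : (2 * P - 1) ^ (P - 2) ≤ n := by
    calc (2 * P - 1) ^ (P - 2) ≤ yn hP1 (P - 2 + 1) := yn_lower hP1 _
      _ ≤ yn hP1 j := (strictMono_y hP1).monotone (by omega)
      _ = n := hj.symm
  exact_mod_cast h5

theorem growth_complete {P : ℕ} (hP : 8 ≤ P) :
    ∃ k : ℕ, k ≠ 0 ∧ IsSquare (((P : ℤ) ^ 2 - 1) * (((P : ℤ) - 1) * k) ^ 2 + 1) := by
  have hP1 : 1 < P := by omega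
  have h1 := yn_modEq_a_sub_one hP1 (P - 1)
  have h2 : P - 1 ∣ yn hP1 (P - 1) :=
    (Nat.modEq_zero_iff_dvd).1 (h1.trans ((dvd_refl _).modEq_zero_nat))
  obtain ⟨c, hc⟩ := h2
  have hpos : 0 < yn hP1 (P - 1) := yn_pos hP1 (by omega)
  refine ⟨c, ?_, ?_⟩
  · rintro rfl; omega
  · have h3 := (isSquare_int_iff hP1 (yn hP1 (P - 1))).2 ⟨_, rfl⟩
    rw [hc] at h3
    push_cast [Nat.cast_sub (by omega : 1 ≤ P)] at h3
    exact h3

/-- the size of `v` -/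
theorem size_bound {P l N1 Z v : ℕ} {k : ℤ} (hP : P = l ^ 2 + Z * N1 + 8) (hZ : 1 ≤ Z)
    (hk : k ≠ 0) (s : IsSquare (((P : ℤ) ^ 2 - 1) * (((P : ℤ) - 1) * k) ^ 2 + 1))
    (hv : (v : ℤ) = Z * ((((P : ℤ) - 1) * k) ^ 2 + 1)) :
    2 ^ (3 * l + 8) * N1 * 8192 ≤ v := by
  have h1 := growthZ (by omega : 8 ≤ P) hk s
  have hN1P : N1 ≤ P := by
    have : 1 * N1 ≤ Z * N1 := Nat.mul_le_mul_right _ hZ
    omega
  have hlP : l + 8 ≤ P := by
    have : l ≤ l ^ 2 := by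
      rw [sq]
      rcases Nat.eq_zero_or_pos l with h | h
      · subst h; simp
      · exact Nat.le_mul_of_pos_left _ h
    omega
  have h2 : N1 * 2 ^ (3 * l + 15) ≤ (2 * P - 1) ^ (P - 2) := by
    calc N1 * 2 ^ (3 * l + 15) = N1 * 8 ^ (l + 5) := by
          rw [show (8 : ℕ) = 2 ^ 3 by norm_num, ← pow_mul]; ring_nf
      _ ≤ (2 * P - 1) * (2 * P - 1) ^ (l + 5) := by
          apply Nat.mul_le_mul (by omega)
          exact Nat.pow_le_pow_left (by omega) _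
      _ = (2 * P - 1) ^ (l + 6) := by rw [pow_succ (2 * P - 1) (l + 5)]; ring
      _ ≤ (2 * P - 1) ^ (P - 2) := Nat.pow_le_pow_right (by omega) (by omega)
  have h3 : ((N1 * 2 ^ (3 * l + 15) : ℕ) : ℤ) ≤ |((P : ℤ) - 1) * k| :=
    le_trans (by exact_mod_cast h2) h1
  obtain ⟨n, hn⟩ : ∃ n : ℕ, (n : ℤ) = |((P : ℤ) - 1) * k| :=
    ⟨(((P : ℤ) - 1) * k).natAbs, Int.natCast_natAbs _⟩
  rw [← hn] at h3 h1
  have hvn : v = Z * (n ^ 2 + 1) := by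
    have : (v : ℤ) = ((Z * (n ^ 2 + 1) : ℕ) : ℤ) := by
      rw [hv]; push_cast; rw [hn, sq_abs]
    exact_mod_cast this
  have h4 : N1 * 2 ^ (3 * l + 15) ≤ n := by exact_mod_cast h3
  have h5 : 2 ^ 6 ≤ n := by
    have h6 : 15 ^ 6 ≤ (2 * P - 1) ^ (P - 2) := by
      calc 15 ^ 6 ≤ (2 * P - 1) ^ 6 := Nat.pow_le_pow_left (by omega) _
        _ ≤ _ := Nat.pow_le_pow_right (by omega) (by omega)
    have h7 : (2 * P - 1) ^ (P - 2) ≤ n := by exact_mod_cast h1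
    omega
  calc 2 ^ (3 * l + 8) * N1 * 8192 = (N1 * 2 ^ (3 * l + 15)) * 2 ^ 6 := by
        rw [pow_add 2 (3 * l) 8, pow_add 2 (3 * l) 15]; ring
    _ ≤ n * n := Nat.mul_le_mul h4 h5
    _ ≤ n ^ 2 + 1 := by rw [sq]; omega
    _ ≤ Z * (n ^ 2 + 1) := Nat.le_mul_of_pos_left _ hZ
    _ = v := hvn.symm

/-- powers of two of the form `(2a+3)(2f+1)+1` -/
theorem exists_pow (a M : ℕ) : ∃ f γ : ℕ, (2 * a + 3) * (2 * f + 1) + 1 = 2 ^ γ ∧ M < 2 ^ γ := by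
  have hcop : Nat.Coprime 2 (2 * a + 3) := by
    rw [Nat.coprime_two_left, Nat.odd_iff]; omega
  have h1 := Nat.ModEq.pow_totient hcop
  obtain ⟨γ, hγ⟩ : ∃ γ, γ = Nat.totient (2 * a + 3) * (M + 1) := ⟨_, rfl⟩
  have htot : 0 < Nat.totient (2 * a + 3) := Nat.totient_pos.2 (by omega)
  have h2 : 2 ^ γ ≡ 1 [MOD 2 * a + 3] := by
    rw [hγ, pow_mul]
    have := h1.pow (M + 1)
    simpa using this
  have hMγ : M < γ := by
    rw [hγ]
    have : 1 * (M + 1) ≤ Nat.totient (2 * a + 3) * (M + 1) := Nat.mul_le_mul_right _ htot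
    omega
  have h3 : M < 2 ^ γ := lt_trans hMγ (Nat.lt_two_pow_self)
  have h4 : 1 ≤ 2 ^ γ := Nat.one_le_two_pow
  have h5 : 2 * a + 3 ∣ 2 ^ γ - 1 := (Nat.modEq_iff_dvd' h4).1 h2.symm
  obtain ⟨c, hc⟩ := h5
  have hodd : Odd c := by
    have hodd2 : Odd (2 ^ γ - 1) := by
      have hev : Even (2 ^ γ) := (Nat.even_pow.2 ⟨even_two, by omega⟩)
      rw [Nat.odd_iff]
      rw [Nat.even_iff] at hev
      omega
    rw [hc] at hodd2
    exact (Nat.odd_mul.1 hodd2).2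
  obtain ⟨f, hf⟩ := hodd
  refine ⟨f, γ, ?_, h3⟩
  rw [← hf, ← hc]
  omega

end Pool.Agent.H715.U8
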