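import Mathlib
import Pool.Agent.H715.U8.CB

set_option autoImplicit false

/-!
Approximation of `(1 - 4 t)^(-1/2)` by the partial sums of central binomial coefficients.
-/

namespace Pool.Agent.H715.U8

open Finset

/-- partial sum -/
noncomputable def SS (n : ℕ) (t : ℝ) : ℝ := ∑ i ∈ range (n + 1), (Nat.centralBinom i : ℝ) * t ^ i

/-- derivative of the partial sum -/
noncomputable def DS (n : ℕ) (t : ℝ) : ℝ :=
  ∑ i ∈ range (n + 1), (Nat.centralBinom i : ℝ) * (i * t ^ (i - 1))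

theorem DS_eq (n : ℕ) (t : ℝ) :
    (1 - 4 * t) * DS n t = 2 * SS n t - (4 * n + 2) * Nat.centralBinom n * t ^ n := by
  induction n with
  | zero => simp [DS, SS]
  | succ n ih =>
    have h1 : DS (n + 1) t = DS n t + (Nat.centralBinom (n + 1) : ℝ) * ((n + 1) * t ^ n) := by
      unfold DS
      rw [sum_range_succ _ (n + 1)]
      push_cast
      rfl
    have h2 : SS (n + 1) t = SS n t + (Nat.centralBinom (n + 1) : ℝ) * t ^ (n + 1) := by
      unfold SS
      rw [sum_range_succ _ (n + 1)]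
    have h3 : ((n : ℝ) + 1) * Nat.centralBinom (n + 1) = 2 * (2 * n + 1) * Nat.centralBinom n := by
      exact_mod_cast Nat.succ_mul_centralBinom_succ n
    rw [h1, h2, mul_add, ih]
    push_cast
    linear_combination t ^ n * h3

theorem SS_deriv (n : ℕ) (t : ℝ) : HasDerivAt (SS n) (DS n t) t := by
  have h : ∀ k ∈ range (n + 1), HasDerivAt (fun y : ℝ => (Nat.centralBinom k : ℝ) * y ^ k)
      ((Nat.centralBinom k : ℝ) * (k * t ^ (k - 1))) t := by
    intro k _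
    exact (hasDerivAt_pow k t).const_mul _
  exact HasDerivAt.fun_sum h

theorem cb_le_real (i : ℕ) : (Nat.centralBinom i : ℝ) ≤ 4 ^ i := by
  exact_mod_cast centralBinom_le i

theorem SS_bounds (n : ℕ) {t : ℝ} (h0 : 0 ≤ t) (h1 : t ≤ 1 / 16) : 1 ≤ SS n t ∧ SS n t ≤ 2 := by
  constructor
  · unfold SS
    rw [sum_range_succ']
    simp only [Nat.centralBinom_zero, Nat.cast_one, pow_zero, mul_one]
    have : 0 ≤ ∑ k ∈ range n, (Nat.centralBinom (k + 1) : ℝ) * t ^ (k + 1) :=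
      sum_nonneg (fun i _ => by positivity)
    linarith
  · have key : ∀ n : ℕ, SS n t ≤ 2 - (1 / 4) ^ n := by
      intro n
      induction n with
      | zero => simp [SS]; norm_num
      | succ n ih =>
        have h2 : SS (n + 1) t = SS n t + (Nat.centralBinom (n + 1) : ℝ) * t ^ (n + 1) := by
          unfold SS
          rw [sum_range_succ _ (n + 1)]
        have h3 : (Nat.centralBinom (n + 1) : ℝ) * t ^ (n + 1) ≤ (1 / 4) ^ (n + 1) := by
          calc (Nat.centralBinom (n + 1) : ℝ) * t ^ (n + 1) ≤ 4 ^ (n + 1) * (1 / 16) ^ (n + 1) := by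
                gcongr
                exact cb_le_real _
            _ = (1 / 4) ^ (n + 1) := by rw [← mul_pow]; norm_num
        have h4 : ((1 : ℝ) / 4) ^ (n + 1) = (1 / 4) ^ n / 4 := by rw [pow_succ]; ring
        have h5 : (0 : ℝ) < (1 / 4) ^ n := by positivity
        rw [h2]
        linarith
    have := key n
    have h5 : (0 : ℝ) < (1 / 4) ^ n := by positivity
    linarith

theorem SS_sq (n : ℕ) {t : ℝ} (h0 : 0 < t) (h1 : t ≤ 1 / 16) :
    0 ≤ 1 - (1 - 4 * t) * SS n t ^ 2 ∧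
      1 - (1 - 4 * t) * SS n t ^ 2 ≤ 2 ^ (3 * n + 4) * t ^ (n + 1) := by
  have hG : ∀ s : ℝ, HasDerivAt (fun s : ℝ => (1 - 4 * s) * SS n s ^ 2)
      (-(2 * (4 * n + 2) * Nat.centralBinom n * s ^ n * SS n s)) s := by
    intro s
    have e1 : HasDerivAt (fun s : ℝ => 1 - 4 * s) (-4) s := by
      have := ((hasDerivAt_id s).const_mul (4 : ℝ)).const_sub 1
      simpa using this
    have e2 : HasDerivAt (fun s : ℝ => SS n s ^ 2) (2 * SS n s ^ (2 - 1) * DS n s) s := by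
      exact_mod_cast (SS_deriv n s).fun_pow 2
    have e3 := e1.fun_mul e2
    refine e3.congr_deriv ?_
    have h4 := DS_eq n s
    simp only [Nat.add_one_sub_one, pow_one]
    linear_combination 2 * SS n s * h4
  obtain ⟨c, hc, hslope⟩ := exists_hasDerivAt_eq_slope (fun s : ℝ => (1 - 4 * s) * SS n s ^ 2)
    (fun s => -(2 * (4 * n + 2) * Nat.centralBinom n * s ^ n * SS n s)) h0
    (fun s _ => (hG s).continuousAt.continuousWithinAt) (fun s _ => hG s)
  have hS0 : SS n 0 = 1 := by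
    unfold SS
    rw [sum_range_succ']
    simp
  have e1 : 1 - (1 - 4 * t) * SS n t ^ 2 =
      2 * (4 * n + 2) * Nat.centralBinom n * c ^ n * SS n c * t := by
    have h2 := hslope
    simp only [hS0, mul_zero, sub_zero, one_pow, mul_one] at h2
    rw [eq_div_iff h0.ne'] at h2
    linarith
  have hc0 : 0 ≤ c := hc.1.le
  obtain ⟨b1, b2⟩ := SS_bounds n hc0 (hc.2.le.trans h1)
  rw [e1]
  constructor
  · positivity
  · have h3 : (4 * (n : ℝ) + 2) ≤ 4 * 2 ^ n := by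
      have : ∀ n : ℕ, 4 * n + 2 ≤ 4 * 2 ^ n := by
        intro n
        induction n with
        | zero => norm_num
        | succ n ih => rw [pow_succ]; have := Nat.one_le_two_pow (n := n); omega
      exact_mod_cast this n
    calc 2 * (4 * (n : ℝ) + 2) * Nat.centralBinom n * c ^ n * SS n c * t
        ≤ 2 * (4 * 2 ^ n) * 4 ^ n * t ^ n * 2 * t := by
          gcongr
          · exact cb_le_real n
          · exact hc.2.le
      _ = 2 ^ (3 * n + 4) * t ^ (n + 1) := by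
        have : (4 : ℝ) ^ n = 2 ^ (2 * n) := by rw [pow_mul]; norm_num
        rw [this]
        ring

/-- `u = (1 - 4t)^(-1/2)` -/
noncomputable def uu (t : ℝ) : ℝ := 1 / Real.sqrt (1 - 4 * t)

theorem sqrt_bounds {t : ℝ} (h0 : 0 < t) (h1 : t ≤ 1 / 16) :
    4 / 5 ≤ Real.sqrt (1 - 4 * t) ∧ Real.sqrt (1 - 4 * t) ≤ 1 ∧
      Real.sqrt (1 - 4 * t) ^ 2 = 1 - 4 * t := by
  refine ⟨?_, ?_, Real.sq_sqrt (by linarith)⟩
  · apply Real.le_sqrt_of_sq_le
    norm_num
    linarith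
  · exact Real.sqrt_le_iff.2 ⟨by norm_num, by linarith⟩

theorem uu_approx (n : ℕ) {t : ℝ} (h0 : 0 < t) (h1 : t ≤ 1 / 16) :
    |uu t - SS n t| ≤ 2 ^ (3 * n + 5) * t ^ (n + 1) := by
  obtain ⟨s1, s2, s3⟩ := sqrt_bounds h0 h1
  obtain ⟨g1, g2⟩ := SS_sq n h0 h1
  obtain ⟨b1, b2⟩ := SS_bounds n h0.le h1
  set r := Real.sqrt (1 - 4 * t) with hr
  have hr0 : 0 < r := by linarith
  rw [← s3] at g1 g2
  have e1 : uu t - SS n t = (1 - r * SS n t) / r := by
    unfold uu; rw [← hr]; field_simp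
  have hq : r * SS n t ≤ 1 := by
    by_contra hcon
    push Not at hcon
    nlinarith
  have hq0 : 0 ≤ r * SS n t := by positivity
  have h5 : 1 - r * SS n t ≤ 1 - r ^ 2 * SS n t ^ 2 := by nlinarith
  rw [e1, abs_of_nonneg (div_nonneg (by linarith) hr0.le), div_le_iff₀ hr0]
  have h6 : (0 : ℝ) ≤ 2 ^ (3 * n + 4) * t ^ (n + 1) := by positivity
  have h7 : (2 : ℝ) ^ (3 * n + 5) = 2 ^ (3 * n + 4) * 2 := by rw [← pow_succ]
  rw [h7]
  nlinarith

theorem geo_approx (n : ℕ) {t : ℝ} (h0 : 0 < t) (h1 : t ≤ 1 / 16) :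
    |uu t ^ 2 - ∑ i ∈ range (n + 1), 4 ^ i * t ^ i| ≤ 2 ^ (3 * n + 5) * t ^ (n + 1) := by
  obtain ⟨s1, s2, s3⟩ := sqrt_bounds h0 h1
  have hp : 0 < 1 - 4 * t := by linarith
  have e1 : uu t ^ 2 = 1 / (1 - 4 * t) := by
    unfold uu; rw [div_pow, s3, one_pow]
  have e2 : (∑ i ∈ range (n + 1), (4 : ℝ) ^ i * t ^ i) = (1 - (4 * t) ^ (n + 1)) / (1 - 4 * t) := by
    have h2 : ∀ i ∈ range (n + 1), (4 : ℝ) ^ i * t ^ i = (4 * t) ^ i := fun i _ => by rw [mul_pow]
    rw [sum_congr rfl h2, geom_sum_eq (by linarith)]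
    rw [← neg_div_neg_eq]
    congr 1 <;> ring
  have e3 : uu t ^ 2 - ∑ i ∈ range (n + 1), 4 ^ i * t ^ i = (4 * t) ^ (n + 1) / (1 - 4 * t) := by
    rw [e1, e2]; field_simp; ring
  rw [e3, abs_of_nonneg (by positivity), div_le_iff₀ hp, mul_pow]
  have h4 : (4 : ℝ) ^ (n + 1) * (4 / 3) ≤ 2 ^ (3 * n + 5) := by
    have : (4 : ℝ) ^ (n + 1) = 2 ^ (2 * n + 2) := by
      rw [show (4 : ℝ) = 2 ^ 2 by norm_num, ← pow_mul]; ring_nf
    rw [this]
    have h5 : (2 : ℝ) ^ (2 * n + 2) * 2 ≤ 2 ^ (3 * n + 5) := by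
      rw [← pow_succ]
      exact pow_le_pow_right₀ (by norm_num) (by omega)
    have h6 : (0 : ℝ) < 2 ^ (2 * n + 2) := by positivity
    linarith
  have h5 : 3 / 4 ≤ 1 - 4 * t := by linarith
  have h6 : (0 : ℝ) ≤ t ^ (n + 1) := by positivity
  have h8 : (0 : ℝ) < 2 ^ (3 * n + 5) := by positivity
  calc (4 : ℝ) ^ (n + 1) * t ^ (n + 1) ≤ (2 ^ (3 * n + 5) * (3 / 4)) * t ^ (n + 1) := by
        gcongr; linarith
    _ ≤ (2 ^ (3 * n + 5) * (1 - 4 * t)) * t ^ (n + 1) := by gcongr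
    _ = _ := by ring

/-- approximation of `u² + ε u` -/
theorem alpha_approx (n : ℕ) {t : ℝ} (h0 : 0 < t) (h1 : t ≤ 1 / 16) {ε : ℤ}
    (hε : ε = 1 ∨ ε = -1) :
    |uu t ^ 2 + ε * uu t - ∑ i ∈ range (n + 1), (cc ε i : ℝ) * t ^ i| ≤
      2 ^ (3 * n + 6) * t ^ (n + 1) := by
  have h2 := uu_approx n h0 h1
  have h3 := geo_approx n h0 h1
  have hεa : |(ε : ℝ)| = 1 := by rcases hε with rfl | rfl <;> simp
  have e1 : (∑ i ∈ range (n + 1), (cc ε i : ℝ) * t ^ i) =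
      ∑ i ∈ range (n + 1), (4 : ℝ) ^ i * t ^ i + ε * SS n t := by
    unfold SS cc
    rw [mul_sum, ← sum_add_distrib]
    refine sum_congr rfl (fun i _ => ?_)
    push_cast
    ring
  have e2 : uu t ^ 2 + ε * uu t - ∑ i ∈ range (n + 1), (cc ε i : ℝ) * t ^ i =
      (uu t ^ 2 - ∑ i ∈ range (n + 1), (4 : ℝ) ^ i * t ^ i) + ε * (uu t - SS n t) := by
    rw [e1]; ring
  rw [e2]
  have h4 : |(ε : ℝ) * (uu t - SS n t)| ≤ 2 ^ (3 * n + 5) * t ^ (n + 1) := by
    rw [abs_mul, hεa, one_mul]; exact h2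
  have h7 : (2 : ℝ) ^ (3 * n + 6) = 2 ^ (3 * n + 5) * 2 := by rw [← pow_succ]
  rw [h7]
  refine (abs_add_le _ _).trans ?_
  linarith

end Pool.Agent.H715.U8
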