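import Mathlib
import Pool.Agent.H715.U8.RealA
import Pool.Graph.R_seed8.H689R2.PellA

set_option autoImplicit false

/-!
`2 v y_l(v) (u² ± u)` is extremely close to an integer congruent to `4 ^ l ± C(2l,l)` modulo `2v`.
-/

namespace Pool.Agent.H715.U8

open Finset Pell Pool.Agent.H689R2

/-- `σ = v - √(v²-1)` -/
noncomputable def sg (v : ℝ) : ℝ := v - Real.sqrt (v ^ 2 - 1)
/-- `τ = v + √(v²-1)` -/
noncomputable def tu (v : ℝ) : ℝ := v + Real.sqrt (v ^ 2 - 1)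

section
variable {v : ℝ}

theorem sq_sqrt_v (hv : 16 ≤ v) : Real.sqrt (v ^ 2 - 1) ^ 2 = v ^ 2 - 1 :=
  Real.sq_sqrt (by nlinarith)

theorem tu_mul_sg (hv : 16 ≤ v) : tu v * sg v = 1 := by
  unfold tu sg
  have := sq_sqrt_v hv
  linear_combination -this

theorem tu_add_sg : tu v + sg v = 2 * v := by unfold tu sg; ring

theorem tu_ge (hv : 16 ≤ v) : v ≤ tu v := by
  unfold tu
  have := Real.sqrt_nonneg (v ^ 2 - 1)
  linarith

theorem tu_le (hv : 16 ≤ v) : tu v ≤ 2 * v := by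
  unfold tu
  have : Real.sqrt (v ^ 2 - 1) ≤ v := Real.sqrt_le_iff.2 ⟨by linarith, by linarith⟩
  linarith

theorem sg_pos (hv : 16 ≤ v) : 0 < sg v := by
  have h1 := tu_mul_sg hv
  have h2 := tu_ge hv
  by_contra hcon
  push Not at hcon
  nlinarith

theorem sg_le (hv : 16 ≤ v) : sg v ≤ 1 / v := by
  have h1 := tu_mul_sg hv
  have h2 := tu_ge hv
  have h3 := sg_pos hv
  rw [le_div_iff₀ (by linarith)]
  nlinarith

theorem sg_le16 (hv : 16 ≤ v) : sg v ≤ 1 / 16 := by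
  refine (sg_le hv).trans ?_
  rw [div_le_div_iff₀ (by linarith) (by norm_num)]
  linarith

theorem delta_ge (hv : 16 ≤ v) : 2 ≤ tu v - sg v := by
  have h2 := tu_ge hv
  have h3 := sg_le16 hv
  linarith

end

theorem yn_formula {v : ℕ} (h1 : 1 < v) (hv : 16 ≤ (v : ℝ)) (n : ℕ) :
    (yn h1 n : ℝ) * (tu v - sg v) = tu v ^ n - sg v ^ n := by
  have hm := tu_mul_sg hv
  have ha := tu_add_sg (v := (v : ℝ))
  induction n using Nat.strong_induction_on with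
  | _ n ih =>
    match n, ih with
    | 0, _ => simp
    | 1, _ => simp
    | n + 2, ih =>
      have i0 := ih n (by omega)
      have i1 := ih (n + 1) (by omega)
      have h2 : (yn h1 (n + 2) : ℝ) = 2 * v * yn h1 (n + 1) - yn h1 n := by
        exact_mod_cast yn_rec h1 n
      have t2 : tu (v : ℝ) ^ 2 = 2 * v * tu v - 1 := by
        linear_combination (tu (v : ℝ)) * ha - hm
      have s2 : sg (v : ℝ) ^ 2 = 2 * v * sg v - 1 := by
        linear_combination (sg (v : ℝ)) * ha - hm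
      rw [h2, pow_add _ n 2, pow_add _ n 2, t2, s2]
      linear_combination 2 * (v : ℝ) * i1 - i0

theorem yn_shift {v : ℕ} (h1 : 1 < v) (hv : 16 ≤ (v : ℝ)) {l i : ℕ} (hi : i ≤ l) :
    (yn h1 l : ℝ) * sg v ^ i * (tu v - sg v) =
      (yn h1 (l - i) : ℝ) * (tu v - sg v) + (sg v ^ (l - i) - sg v ^ (l + i)) := by
  have hm := tu_mul_sg hv
  have f1 := yn_formula h1 hv l
  have f2 := yn_formula h1 hv (l - i)
  obtain ⟨k, rfl⟩ : ∃ k, l = k + i := ⟨l - i, by omega⟩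
  rw [Nat.add_sub_cancel] at f2 ⊢
  have e : tu (v : ℝ) ^ i * sg v ^ i = 1 := by rw [← mul_pow, hm, one_pow]
  rw [f2]
  have e2 : (yn h1 (k + i) : ℝ) * sg v ^ i * (tu v - sg v) =
      ((yn h1 (k + i) : ℝ) * (tu v - sg v)) * sg v ^ i := by ring
  rw [e2, f1]
  rw [pow_add (tu (v : ℝ)) k i, pow_add (sg (v : ℝ)) (k + i) i]
  linear_combination (tu (v : ℝ)) ^ k * e

/-- the integer part -/
noncomputable def YY {v : ℕ} (h1 : 1 < v) (ε : ℤ) (l : ℕ) : ℤ :=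
  ∑ i ∈ range l, cc ε i * yn h1 (l - i)

theorem sum_four (l : ℕ) : ∑ i ∈ range l, (4 : ℝ) ^ i ≤ 4 ^ l / 3 := by
  induction l with
  | zero => simp
  | succ l ih => rw [sum_range_succ, pow_succ]; linarith

theorem main_part {v : ℕ} (h1 : 1 < v) (hv : 16 ≤ (v : ℝ)) {l : ℕ} (hl : 1 ≤ l) {ε : ℤ}
    (hε : ε = 1 ∨ ε = -1) :
    |2 * v * (yn h1 l : ℝ) * (∑ i ∈ range (l + 1), (cc ε i : ℝ) * sg v ^ i) -
      (2 * v * (YY h1 ε l : ℝ) + cc ε l)| ≤ 8 * 4 ^ l * sg v := by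
  set s := sg (v : ℝ) with hs
  set Δ := tu (v : ℝ) - sg v with hΔ
  have hΔ2 : 2 ≤ Δ := delta_ge hv
  have hΔ0 : 0 < Δ := by linarith
  have hs0 : 0 < s := sg_pos hv
  have hs1 : s ≤ 1 / 16 := sg_le16 hv
  have ha := tu_add_sg (v := (v : ℝ))
  -- exact identity
  have e1 : (yn h1 l : ℝ) * (∑ i ∈ range (l + 1), (cc ε i : ℝ) * s ^ i) * Δ =
      (YY h1 ε l : ℝ) * Δ + ∑ i ∈ range (l + 1), (cc ε i : ℝ) * (s ^ (l - i) - s ^ (l + i)) := by
    have e2 : (YY h1 ε l : ℝ) = ∑ i ∈ range (l + 1), (cc ε i : ℝ) * (yn h1 (l - i) : ℝ) := by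
      rw [sum_range_succ]
      unfold YY
      push_cast
      simp
    rw [e2, mul_sum, sum_mul, sum_mul, ← sum_add_distrib]
    refine sum_congr rfl (fun i hi => ?_)
    rw [mem_range] at hi
    have := yn_shift h1 hv (l := l) (i := i) (by omega)
    rw [← hs, ← hΔ] at this
    linear_combination (cc ε i : ℝ) * this
  set Q := ∑ i ∈ range (l + 1), (cc ε i : ℝ) * (s ^ (l - i) - s ^ (l + i)) with hQ
  have c0 : ∀ i, (0 : ℝ) ≤ cc ε i := fun i => by exact_mod_cast cc_nonneg hε i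
  have c1 : ∀ i, (cc ε i : ℝ) ≤ 2 * 4 ^ i := fun i => by exact_mod_cast cc_le hε i
  have hQ1 : Q = (∑ i ∈ range l, (cc ε i : ℝ) * (s ^ (l - i) - s ^ (l + i))) +
      cc ε l * (1 - s ^ (2 * l)) := by
    rw [hQ, sum_range_succ, Nat.sub_self, pow_zero, two_mul]
  have d0 : 0 ≤ ∑ i ∈ range l, (cc ε i : ℝ) * (s ^ (l - i) - s ^ (l + i)) := by
    refine sum_nonneg (fun i _ => mul_nonneg (c0 i) ?_)
    have : s ^ (l + i) ≤ s ^ (l - i) := pow_le_pow_of_le_one hs0.le (by linarith) (by omega)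
    linarith
  have d1 : ∑ i ∈ range l, (cc ε i : ℝ) * (s ^ (l - i) - s ^ (l + i)) ≤ 4 ^ l * s := by
    calc ∑ i ∈ range l, (cc ε i : ℝ) * (s ^ (l - i) - s ^ (l + i))
        ≤ ∑ i ∈ range l, (2 * 4 ^ i) * s := by
          refine sum_le_sum (fun i hi => ?_)
          rw [mem_range] at hi
          have h2 : s ^ (l - i) ≤ s ^ 1 := pow_le_pow_of_le_one hs0.le (by linarith) (by omega)
          rw [pow_one] at h2
          have h3 : 0 < s ^ (l + i) := by positivity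
          have h4 : s ^ (l + i) ≤ s ^ (l - i) := pow_le_pow_of_le_one hs0.le (by linarith) (by omega)
          exact mul_le_mul (c1 i) (by linarith) (by linarith) (by positivity)
      _ = 2 * (∑ i ∈ range l, (4 : ℝ) ^ i) * s := by
          rw [← sum_mul, ← mul_sum]
      _ ≤ 2 * (4 ^ l / 3) * s := by
          have := sum_four l
          gcongr
      _ ≤ 4 ^ l * s := by
          have : (0 : ℝ) < 4 ^ l * s := by positivity
          linarith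
  have hsl : s ^ (2 * l) ≤ s := by
    calc s ^ (2 * l) ≤ s ^ 1 := pow_le_pow_of_le_one hs0.le (by linarith) (by omega)
      _ = s := pow_one s
  have hsl0 : 0 < s ^ (2 * l) := by positivity
  have h4l : (0 : ℝ) < 4 ^ l := by positivity
  have hcl0 := c0 l
  have hcl1 := c1 l
  have q1 : Q - cc ε l ≤ 4 ^ l * s := by
    rw [hQ1]
    have : (cc ε l : ℝ) * (1 - s ^ (2 * l)) ≤ cc ε l := by nlinarith
    linarith
  have q2 : -(2 * 4 ^ l * s) ≤ Q - cc ε l := by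
    rw [hQ1]
    have : (cc ε l : ℝ) * s ^ (2 * l) ≤ 2 * 4 ^ l * s := by
      exact mul_le_mul hcl1 hsl hsl0.le (by positivity)
    have h5 : (cc ε l : ℝ) * (1 - s ^ (2 * l)) = cc ε l - cc ε l * s ^ (2 * l) := by ring
    linarith
  -- κ
  have hκ : 2 * (v : ℝ) = Δ + 2 * s := by rw [hΔ, ← ha]; ring
  have e3 : 2 * v * (yn h1 l : ℝ) * (∑ i ∈ range (l + 1), (cc ε i : ℝ) * s ^ i) -
      (2 * v * (YY h1 ε l : ℝ) + cc ε l) = (2 * s / Δ) * Q + (Q - cc ε l) := by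
    have e4 : (yn h1 l : ℝ) * (∑ i ∈ range (l + 1), (cc ε i : ℝ) * s ^ i) =
        (YY h1 ε l : ℝ) + Q / Δ := by
      field_simp
      linarith
    have e5 : 2 * v * (yn h1 l : ℝ) * (∑ i ∈ range (l + 1), (cc ε i : ℝ) * s ^ i) =
        2 * v * ((yn h1 l : ℝ) * (∑ i ∈ range (l + 1), (cc ε i : ℝ) * s ^ i)) := by ring
    rw [e5, e4, hκ]
    field_simp
    ring
  rw [e3]
  have hQ0 : 0 ≤ Q := by
    rw [hQ1]
    have : 0 ≤ (cc ε l : ℝ) * (1 - s ^ (2 * l)) := mul_nonneg hcl0 (by linarith)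
    linarith
  have hk : 2 * s / Δ ≤ s := by
    rw [div_le_iff₀ hΔ0]; nlinarith
  have hk0 : 0 ≤ 2 * s / Δ := by positivity
  have hQ3 : Q ≤ 3 * 4 ^ l := by nlinarith
  have h6 : (2 * s / Δ) * Q ≤ s * (3 * 4 ^ l) := mul_le_mul hk hQ3 hQ0 hs0.le
  have h7 : 0 ≤ (2 * s / Δ) * Q := mul_nonneg hk0 hQ0
  have h8 : 0 < 4 ^ l * s := by positivity
  rw [abs_le]
  constructor <;> nlinarith

theorem near_coeff {v : ℕ} (h1 : 1 < v) (hv : 16 ≤ (v : ℝ)) {l : ℕ} (hl : 1 ≤ l) {ε : ℤ}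
    (hε : ε = 1 ∨ ε = -1) :
    |2 * v * (yn h1 l : ℝ) * (uu (sg v) ^ 2 + ε * uu (sg v)) -
      (2 * v * (YY h1 ε l : ℝ) + cc ε l)| ≤ 2 ^ (3 * l + 8) * sg v := by
  have hm := main_part h1 hv hl hε
  have hs0 : 0 < sg (v : ℝ) := sg_pos hv
  have hs1 : sg (v : ℝ) ≤ 1 / 16 := sg_le16 hv
  have ha := alpha_approx l hs0 hs1 hε
  have hΔ2 : 2 ≤ tu (v : ℝ) - sg v := delta_ge hv
  have hadd := tu_add_sg (v := (v : ℝ))
  have hy := yn_shift h1 hv (l := l) (i := l) le_rfl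
  rw [Nat.sub_self] at hy
  simp only [yn_zero, Nat.cast_zero, zero_mul, pow_zero, zero_add] at hy
  set s := sg (v : ℝ) with hs
  set Δ := tu (v : ℝ) - s with hΔ
  set A := uu s ^ 2 + ε * uu s
  set B := ∑ i ∈ range (l + 1), (cc ε i : ℝ) * s ^ i
  have hys : (yn h1 l : ℝ) * s ^ l * Δ ≤ 1 := by
    rw [hy]
    have : 0 < s ^ (l + l) := by positivity
    linarith
  have hys0 : 0 ≤ (yn h1 l : ℝ) * s ^ l := by positivity
  have h2v : 2 * (v : ℝ) ≤ 2 * Δ := by rw [hΔ]; linarith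
  have h3 : 2 * (v : ℝ) * (yn h1 l : ℝ) * s ^ l ≤ 2 := by
    calc 2 * (v : ℝ) * (yn h1 l : ℝ) * s ^ l = (yn h1 l : ℝ) * s ^ l * (2 * v) := by ring
      _ ≤ (yn h1 l : ℝ) * s ^ l * (2 * Δ) := by gcongr
      _ = 2 * ((yn h1 l : ℝ) * s ^ l * Δ) := by ring
      _ ≤ 2 := by linarith
  have hyv : (0 : ℝ) ≤ 2 * v * (yn h1 l : ℝ) := by positivity
  have h4 : |2 * v * (yn h1 l : ℝ) * (A - B)| ≤ 2 ^ (3 * l + 7) * s := by
    rw [abs_mul, abs_of_nonneg hyv]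
    calc 2 * (v : ℝ) * (yn h1 l : ℝ) * |A - B| ≤ 2 * v * (yn h1 l : ℝ) *
          (2 ^ (3 * l + 6) * s ^ (l + 1)) := by gcongr
      _ = (2 * (v : ℝ) * (yn h1 l : ℝ) * s ^ l) * (2 ^ (3 * l + 6) * s) := by ring
      _ ≤ 2 * (2 ^ (3 * l + 6) * s) := by gcongr
      _ = 2 ^ (3 * l + 7) * s := by ring
  have e : 2 * v * (yn h1 l : ℝ) * A - (2 * v * (YY h1 ε l : ℝ) + cc ε l) =
      2 * v * (yn h1 l : ℝ) * (A - B) +
      (2 * v * (yn h1 l : ℝ) * B - (2 * v * (YY h1 ε l : ℝ) + cc ε l)) := by ring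
  rw [e]
  refine (abs_add_le _ _).trans ?_
  have h5 : (8 : ℝ) * 4 ^ l ≤ 2 ^ (3 * l + 7) := by
    have : (8 : ℝ) * 4 ^ l = 2 ^ (2 * l + 3) := by
      rw [show (4 : ℝ) = 2 ^ 2 by norm_num, ← pow_mul, pow_add]; norm_num; ring
    rw [this]
    exact pow_le_pow_right₀ (by norm_num) (by omega)
  have h6 : (2 : ℝ) ^ (3 * l + 8) = 2 ^ (3 * l + 7) * 2 := by rw [← pow_succ]
  rw [h6]
  have h7 : 8 * 4 ^ l * s ≤ 2 ^ (3 * l + 7) * s := by gcongr
  linarith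

end Pool.Agent.H715.U8
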