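import Mathlib
import Pool.Agent.H715.U8.RealB

set_option autoImplicit false

/-!
The polynomial inequality that expresses that `E` is close to `2 v' C (u² ± u)`.
-/

namespace Pool.Agent.H715.U8

open Finset Pell Pool.Agent.H689R2

section defs
variable {R : Type*} [CommRing R]

def p0 (v' C E : R) : R := -15 * E ^ 2 - 4 * v' * C * E
def p1 (v v' C E : R) : R := (32 * v - 8) * E ^ 2 + 16 * v' * C * E + 16 * v' ^ 2 * C ^ 2
def nm (v v' C E : R) : R :=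
  p0 v' C E ^ 2 + 2 * v * p0 v' C E * p1 v v' C E + p1 v v' C E ^ 2
/-- the expression whose positivity expresses the near-integer condition -/
def rr (X Z v v' C E : R) : R :=
  X * (v ^ 4 * v' ^ 2 * C ^ 2 * E ^ 4) - X ^ 2 * (Z * nm v v' C E) ^ 2

end defs

theorem rr_neg {R : Type*} [CommRing R] (X Z v v' C E : R) :
    rr X Z v v' (-C) (-E) = rr X Z v v' C E := by
  unfold rr nm p0 p1; ring

section
variable {v v' C E : ℝ}

theorem nm_eq (hv : 16 ≤ v) :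
    nm v v' C E = (p0 v' C E + p1 v v' C E * sg v) * (p0 v' C E + p1 v v' C E * tu v) := by
  have hm := tu_mul_sg hv
  have ha := tu_add_sg (v := v)
  unfold nm
  generalize p0 v' C E = a
  generalize p1 v v' C E = b
  linear_combination (-(a * b)) * ha - b ^ 2 * hm

theorem sg_sq (hv : 16 ≤ v) : sg v ^ 2 = 2 * v * sg v - 1 := by
  have hm := tu_mul_sg hv
  have ha := tu_add_sg (v := v)
  linear_combination (sg v) * ha - hm

theorem tu_sq (hv : 16 ≤ v) : tu v ^ 2 = 2 * v * tu v - 1 := by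
  have hm := tu_mul_sg hv
  have ha := tu_add_sg (v := v)
  linear_combination (tu v) * ha - hm

theorem phi_s (hv : 16 ≤ v) :
    p0 v' C E + p1 v v' C E * sg v =
      ((1 - 4 * sg v) * E - 2 * v' * C) ^ 2 - 4 * v' ^ 2 * C ^ 2 * (1 - 4 * sg v) := by
  have h := sg_sq hv
  unfold p0 p1
  linear_combination -(16 * E ^ 2) * h

theorem phi_t (hv : 16 ≤ v) :
    p0 v' C E + p1 v v' C E * tu v =
      ((4 * tu v - 1) * E + 2 * v' * C) ^ 2 + 4 * v' ^ 2 * C ^ 2 * (4 * tu v - 1) := by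
  have h := tu_sq hv
  unfold p0 p1
  linear_combination -(16 * E ^ 2) * h

theorem phi_t_lower (hv : 16 ≤ v) : 4 * v ^ 2 * E ^ 2 ≤ p0 v' C E + p1 v v' C E * tu v := by
  rw [phi_t hv]
  have h2 := tu_ge hv
  obtain ⟨w, hw⟩ : ∃ w, w = 4 * tu v - 1 := ⟨_, rfl⟩
  have hw3 : 3 * v ≤ w := by rw [hw]; linarith
  rw [← hw]
  have e : (w * E + 2 * v' * C) ^ 2 + 4 * v' ^ 2 * C ^ 2 * w =
      w ^ 2 * E ^ 2 / 2 + (w * E + 4 * v' * C) ^ 2 / 2 + 4 * (v' * C) ^ 2 * (w - 1) := by ring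
  rw [e]
  have h3 : 0 ≤ (w * E + 4 * v' * C) ^ 2 := sq_nonneg _
  have h4 : 0 ≤ 4 * (v' * C) ^ 2 * (w - 1) := mul_nonneg (by positivity) (by linarith)
  have h5 : (3 * v) ^ 2 ≤ w ^ 2 := pow_le_pow_left₀ (by linarith) hw3 2
  have h6 : (3 * v) ^ 2 * E ^ 2 ≤ w ^ 2 * E ^ 2 := mul_le_mul_of_nonneg_right h5 (sq_nonneg _)
  have h7 : 0 ≤ v ^ 2 * E ^ 2 := by positivity
  nlinarith

theorem real_sound {Z X : ℝ} (hv : 16 ≤ v) (hv' : 0 < v') (hC : 0 < C) (hX : 1 ≤ X) (hZ : 1 ≤ Z)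
    (h : 0 < rr X Z v v' C E) :
    ∃ ε : ℤ, (ε = 1 ∨ ε = -1) ∧
      |E - 2 * v' * C * (uu (sg v) ^ 2 + ε * uu (sg v))| < 1 / (4 * Z) := by
  have hs0 := sg_pos hv
  have hs1 := sg_le16 hv
  obtain ⟨r1, r2, r3⟩ := sqrt_bounds hs0 hs1
  have hv0 : 0 < v := by linarith
  have hZ0 : 0 < Z := by linarith
  have hvC : 0 < v' * C := by positivity
  -- |Z nm| < v² v' C E²
  have h1 : (Z * nm v v' C E) ^ 2 < (v ^ 2 * v' * C * E ^ 2) ^ 2 := by
    unfold rr at h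
    have e1 : X * (v ^ 4 * v' ^ 2 * C ^ 2 * E ^ 4) - X ^ 2 * (Z * nm v v' C E) ^ 2 =
        X * ((v ^ 2 * v' * C * E ^ 2) ^ 2 - X * (Z * nm v v' C E) ^ 2) := by ring
    rw [e1] at h
    have h2 := (pos_iff_pos_of_mul_pos h).1 (by linarith)
    have h3 : (Z * nm v v' C E) ^ 2 ≤ X * (Z * nm v v' C E) ^ 2 :=
      le_mul_of_one_le_left (sq_nonneg _) hX
    linarith
  have h2 : |Z * nm v v' C E| < v ^ 2 * v' * C * E ^ 2 :=
    abs_lt_of_sq_lt_sq h1 (by positivity)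
  have hE : 0 < E ^ 2 := by
    rcases (sq_nonneg E).lt_or_eq with h3 | h3
    · exact h3
    · rw [← h3, mul_zero] at h2
      exact absurd h2 (not_lt.2 (abs_nonneg _))
  rw [nm_eq hv, abs_mul, abs_mul, abs_of_pos hZ0] at h2
  have ht := phi_t_lower (v' := v') (C := C) (E := E) hv
  have ht0 : 0 < 4 * v ^ 2 * E ^ 2 := by positivity
  rw [abs_of_pos (a := p0 v' C E + p1 v v' C E * tu v) (by linarith)] at h2
  have h4 : |p0 v' C E + p1 v v' C E * sg v| * (4 * Z) < v' * C := by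
    by_contra hcon
    push Not at hcon
    have h5 : v' * C * (v ^ 2 * E ^ 2) ≤
        (|p0 v' C E + p1 v v' C E * sg v| * (4 * Z)) * (v ^ 2 * E ^ 2) := by gcongr
    have h6 : Z * (|p0 v' C E + p1 v v' C E * sg v| * (4 * v ^ 2 * E ^ 2)) ≤
        Z * (|p0 v' C E + p1 v v' C E * sg v| * (p0 v' C E + p1 v v' C E * tu v)) := by gcongr
    have e5 : v' * C * (v ^ 2 * E ^ 2) = v ^ 2 * v' * C * E ^ 2 := by ring
    have e6 : (|p0 v' C E + p1 v v' C E * sg v| * (4 * Z)) * (v ^ 2 * E ^ 2) =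
      Z * (|p0 v' C E + p1 v v' C E * sg v| * (4 * v ^ 2 * E ^ 2)) := by ring
    linarith
  rw [phi_s hv] at h4
  set ρ := Real.sqrt (1 - 4 * sg v) with hρ
  have hρ0 : 0 < ρ := by linarith
  have hθ : 3 / 4 ≤ ρ ^ 2 := by rw [r3]; linarith
  have hu : uu (sg v) = 1 / ρ := rfl
  rw [← r3] at h4
  obtain ⟨a, ha⟩ : ∃ a, a = ρ ^ 2 * E - 2 * v' * C * (1 + ρ) := ⟨_, rfl⟩
  obtain ⟨b, hb⟩ : ∃ b, b = ρ ^ 2 * E - 2 * v' * C * (1 - ρ) := ⟨_, rfl⟩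
  have hab : (ρ ^ 2 * E - 2 * v' * C) ^ 2 - 4 * v' ^ 2 * C ^ 2 * ρ ^ 2 = a * b := by
    rw [ha, hb]; ring
  have hba : b - a = 4 * (v' * C) * ρ := by rw [ha, hb]; ring
  rw [hab, abs_mul] at h4
  have hba2 : 16 / 5 * (v' * C) ≤ b - a := by rw [hba]; nlinarith
  -- final step
  have fin : ∀ x y : ℝ, |x| * |y| * (4 * Z) < v' * C → 8 / 5 * (v' * C) ≤ |y| →
      |x / ρ ^ 2| < 1 / (4 * Z) := by
    intro x y hxy hy
    rw [abs_div, abs_of_pos (by positivity : (0 : ℝ) < ρ ^ 2), div_lt_div_iff₀ (by positivity)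
      (by positivity), one_mul]
    have h7 : |x| * (8 / 5 * (v' * C)) * (4 * Z) ≤ |x| * |y| * (4 * Z) := by gcongr
    have h8 : (|x| * (8 / 5) * (4 * Z)) * (v' * C) < 1 * (v' * C) := by linarith
    have h9 := lt_of_mul_lt_mul_right h8 hvC.le
    linarith
  rcases le_or_gt 0 (a + b) with hs | hs
  · refine ⟨1, Or.inl rfl, ?_⟩
    have e : E - 2 * v' * C * (uu (sg v) ^ 2 + ((1 : ℤ) : ℝ) * uu (sg v)) = a / ρ ^ 2 := by
      rw [hu, ha]; push_cast; field_simp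
    rw [e]
    refine fin a b h4 ?_
    have : 0 ≤ b := by linarith
    rw [abs_of_nonneg this]
    linarith
  · refine ⟨-1, Or.inr rfl, ?_⟩
    have e : E - 2 * v' * C * (uu (sg v) ^ 2 + ((-1 : ℤ) : ℝ) * uu (sg v)) = b / ρ ^ 2 := by
      rw [hu, hb]; push_cast; field_simp; ring
    rw [e]
    refine fin b a (by rw [mul_comm |b| |a|]; exact h4) ?_
    have : a < 0 := by linarith
    rw [abs_of_neg this]
    linarith

theorem real_complete {Z X N1 η : ℝ} (hv : 16 ≤ v) (hv' : 1 ≤ v') (hC : 1 ≤ C) (hX : 1 ≤ X)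
    (hXN : X ≤ N1 ^ 2) (hN1 : 1 ≤ N1) (hZ : 1 ≤ Z) (hη0 : 0 ≤ η) (hη2 : η * N1 * 8192 ≤ 1)
    (hE : |E - 2 * v' * C * (uu (sg v) ^ 2 + ((1 : ℤ) : ℝ) * uu (sg v))| ≤ η / Z) :
    0 < rr X Z v v' C E := by
  have hs0 := sg_pos hv
  have hs1 := sg_le16 hv
  obtain ⟨r1, r2, r3⟩ := sqrt_bounds hs0 hs1
  have hv0 : 0 < v := by linarith
  have hZ0 : 0 < Z := by linarith
  have hvC : 1 ≤ v' * C := by nlinarith
  set ρ := Real.sqrt (1 - 4 * sg v) with hρ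
  have hρ0 : 0 < ρ := by linarith
  have hθ : 3 / 4 ≤ ρ ^ 2 := by rw [r3]; linarith
  have hθ1 : ρ ^ 2 ≤ 1 := by rw [r3]; linarith
  have hu : uu (sg v) = 1 / ρ := rfl
  obtain ⟨m, hm⟩ : ∃ m, m = v' * C := ⟨_, rfl⟩
  rw [← hm] at hvC
  obtain ⟨a, ha⟩ : ∃ a, a = ρ ^ 2 * E - 2 * m * (1 + ρ) := ⟨_, rfl⟩
  obtain ⟨b, hb⟩ : ∃ b, b = ρ ^ 2 * E - 2 * m * (1 - ρ) := ⟨_, rfl⟩
  have e1 : E - 2 * v' * C * (uu (sg v) ^ 2 + ((1 : ℤ) : ℝ) * uu (sg v)) = a / ρ ^ 2 := by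
    rw [hu, ha, hm]; push_cast; field_simp
  rw [e1, abs_div, abs_of_pos (by positivity : (0 : ℝ) < ρ ^ 2), div_le_iff₀ (by positivity)] at hE
  have hηZ : 0 ≤ η / Z := by positivity
  have ha1 : |a| ≤ η / Z := by nlinarith
  have hη1 : η ≤ 1 / 8192 := by nlinarith
  have hηZ1 : η / Z ≤ 1 / 8192 := by
    calc η / Z ≤ η / 1 := by gcongr
      _ ≤ 1 / 8192 := by rw [div_one]; exact hη1
  have ha2 := abs_le.1 ha1
  -- bounds on E
  have hE1 : 2 * m ≤ E := by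
    have h1 : 2 * m * (1 + ρ) - 1 / 8192 ≤ ρ ^ 2 * E := by linarith
    have h2 : 2 * m * (9 / 5) ≤ 2 * m * (1 + ρ) := by gcongr; linarith
    have hE0 : 0 < E := by
      by_contra hcon
      push Not at hcon
      have : ρ ^ 2 * E ≤ 0 := mul_nonpos_of_nonneg_of_nonpos (by positivity) hcon
      linarith
    have h3 : ρ ^ 2 * E ≤ E := by nlinarith
    linarith
  have hE2 : E ≤ 6 * m := by
    have h1 : ρ ^ 2 * E ≤ 2 * m * (1 + ρ) + 1 / 8192 := by linarith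
    have h2 : 2 * m * (1 + ρ) ≤ 2 * m * 2 := by gcongr; linarith
    have h3 : 3 / 4 * E ≤ ρ ^ 2 * E := by
      have : 0 ≤ E := by linarith
      gcongr
    linarith
  have hb1 : |b| ≤ 6 * m := by
    have hρ1 : 0 ≤ 1 - ρ := by linarith
    have h1 : 0 ≤ 2 * m * (1 - ρ) := by positivity
    have h2 : 2 * m * (1 - ρ) ≤ 2 * m * 1 := by gcongr; linarith
    have hE0 : 0 ≤ E := by linarith
    have h3 : ρ ^ 2 * E ≤ E := by nlinarith
    have h4 : 0 ≤ ρ ^ 2 * E := by positivity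
    rw [abs_le]
    constructor <;> linarith
  -- φ(σ)
  have hφs : |p0 v' C E + p1 v v' C E * sg v| ≤ η / Z * (6 * m) := by
    rw [phi_s hv, ← r3]
    have hab : (ρ ^ 2 * E - 2 * v' * C) ^ 2 - 4 * v' ^ 2 * C ^ 2 * ρ ^ 2 = a * b := by
      rw [ha, hb, hm]; ring
    rw [hab, abs_mul]
    exact mul_le_mul ha1 hb1 (abs_nonneg _) hηZ
  -- φ(τ)
  have hτ1 := tu_ge hv
  have hτ2 := tu_le hv
  have hφt : p0 v' C E + p1 v v' C E * tu v ≤ 3600 * v ^ 2 * m ^ 2 := by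
    rw [phi_t hv]
    obtain ⟨w, hw⟩ : ∃ w, w = 4 * tu v - 1 := ⟨_, rfl⟩
    rw [← hw]
    have hw0 : 0 ≤ w := by rw [hw]; linarith
    have hw1 : w ≤ 8 * v := by rw [hw]; linarith
    have h1 : w * E + 2 * v' * C ≤ 49 * v * m := by
      have h2 : w * E ≤ (8 * v) * (6 * m) := mul_le_mul hw1 hE2 (by linarith) (by linarith)
      have h3 : 2 * v' * C = 2 * m := by rw [hm]; ring
      have h4 : 2 * m ≤ v * m := by
        have : (2 : ℝ) ≤ v := by linarith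
        gcongr
      linarith
    have h0 : 0 ≤ w * E + 2 * v' * C := by
      have : 0 ≤ w * E := mul_nonneg hw0 (by linarith)
      have : 0 ≤ 2 * v' * C := by positivity
      linarith
    have h5 : (w * E + 2 * v' * C) ^ 2 ≤ (49 * v * m) ^ 2 := pow_le_pow_left₀ h0 h1 2
    have h6 : 4 * v' ^ 2 * C ^ 2 * w ≤ 32 * v * m ^ 2 := by
      have : 4 * v' ^ 2 * C ^ 2 * w = 4 * m ^ 2 * w := by rw [hm]; ring
      rw [this]
      have : 4 * m ^ 2 * w ≤ 4 * m ^ 2 * (8 * v) := by gcongr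
      linarith
    have h7 : 32 * v * m ^ 2 ≤ 2 * v ^ 2 * m ^ 2 := by
      have : 32 * v ≤ 2 * v ^ 2 := by nlinarith
      gcongr
    have h8 : (49 * v * m) ^ 2 = 2401 * (v ^ 2 * m ^ 2) := by ring
    have h9 : 0 ≤ v ^ 2 * m ^ 2 := by positivity
    nlinarith
  have hφt0 : 0 ≤ p0 v' C E + p1 v v' C E * tu v := by
    have := phi_t_lower (v' := v') (C := C) (E := E) hv
    have h2 : 0 ≤ 4 * v ^ 2 * E ^ 2 := by positivity
    linarith
  have hnm : |Z * nm v v' C E| ≤ η * (21600 * v ^ 2 * m ^ 3) := by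
    rw [nm_eq hv, abs_mul, abs_mul, abs_of_pos hZ0, abs_of_nonneg hφt0]
    calc Z * (|p0 v' C E + p1 v v' C E * sg v| * (p0 v' C E + p1 v v' C E * tu v))
        ≤ Z * ((η / Z * (6 * m)) * (3600 * v ^ 2 * m ^ 2)) := by gcongr
      _ = η * (21600 * v ^ 2 * m ^ 3) := by field_simp; ring
  have hnm2 : (Z * nm v v' C E) ^ 2 ≤ (η * (21600 * v ^ 2 * m ^ 3)) ^ 2 := by
    rw [← sq_abs]
    exact pow_le_pow_left₀ (abs_nonneg _) hnm 2
  unfold rr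
  have e1 : X * (v ^ 4 * v' ^ 2 * C ^ 2 * E ^ 4) - X ^ 2 * (Z * nm v v' C E) ^ 2 =
      X * (v ^ 4 * m ^ 2 * E ^ 4 - X * (Z * nm v v' C E) ^ 2) := by rw [hm]; ring
  rw [e1]
  apply mul_pos (by linarith)
  have h10 : X * (Z * nm v v' C E) ^ 2 ≤ N1 ^ 2 * (η * (21600 * v ^ 2 * m ^ 3)) ^ 2 := by gcongr
  have h11 : N1 ^ 2 * (η * (21600 * v ^ 2 * m ^ 3)) ^ 2 =
      (η * N1 * 21600) ^ 2 * (v ^ 4 * m ^ 6) := by ring
  have h12 : (η * N1 * 21600) ^ 2 ≤ 3 ^ 2 := by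
    apply pow_le_pow_left₀ (by positivity)
    linarith
  have h13 : (2 * m) ^ 4 ≤ E ^ 4 := pow_le_pow_left₀ (by linarith) hE1 4
  have h14 : v ^ 4 * m ^ 2 * (2 * m) ^ 4 ≤ v ^ 4 * m ^ 2 * E ^ 4 := by gcongr
  have h15 : v ^ 4 * m ^ 2 * (2 * m) ^ 4 = 16 * (v ^ 4 * m ^ 6) := by ring
  have h16 : 0 < v ^ 4 * m ^ 6 := by positivity
  have h17 : (η * N1 * 21600) ^ 2 * (v ^ 4 * m ^ 6) ≤ 3 ^ 2 * (v ^ 4 * m ^ 6) := by gcongr
  linarith

end

end Pool.Agent.H715.U8
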