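import Mathlib
import Pool.Agent.H715.U8.RealC

set_option autoImplicit false

/-!
The near-integer test for `Z ∣ 4 ^ l ± C(2l,l)`.
-/

namespace Pool.Agent.H715.U8

open Finset Pell Pool.Agent.H689R2

theorem rr_cast (X Z v v' C E : ℤ) :
    ((rr X Z v v' C E : ℤ) : ℝ) = rr (X : ℝ) Z v v' C E := by
  unfold rr nm p0 p1; push_cast; ring

theorem two_pow_sg {v l : ℕ} (hbig : 2 ^ (3 * l + 8) * 8192 ≤ v) :
    (2 : ℝ) ^ (3 * l + 8) * sg v ≤ 1 / 8192 := by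
  have hp : 1 ≤ 2 ^ (3 * l + 8) := Nat.one_le_two_pow
  have hv16 : 16 ≤ v := by omega
  have hv : (16 : ℝ) ≤ v := by exact_mod_cast hv16
  have h1 := sg_le hv
  have h2 : (2 : ℝ) ^ (3 * l + 8) * 8192 ≤ v := by exact_mod_cast hbig
  have hv0 : (0 : ℝ) < v := by linarith
  calc (2 : ℝ) ^ (3 * l + 8) * sg v ≤ 2 ^ (3 * l + 8) * (1 / v) := by gcongr
    _ ≤ 1 / 8192 := by
      rw [mul_one_div, div_le_div_iff₀ hv0 (by norm_num)]
      linarith

theorem test_sound_pos {v Z v' l : ℕ} (h1 : 1 < v) (hl : 1 ≤ l) (hv : v = Z * v')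
    (hbig : 2 ^ (3 * l + 8) * 8192 ≤ v) {X E : ℤ} (hX : 1 ≤ X)
    (h : 0 < rr X (Z : ℤ) v v' (yn h1 l) E) :
    ∃ ε : ℤ, (ε = 1 ∨ ε = -1) ∧ (Z : ℤ) ∣ cc ε l := by
  have hp : 1 ≤ 2 ^ (3 * l + 8) := Nat.one_le_two_pow
  have hv16 : 16 ≤ v := by omega
  have hvR : (16 : ℝ) ≤ v := by exact_mod_cast hv16
  have hZ : 0 < Z := by
    rcases Nat.eq_zero_or_pos Z with h0 | h0
    · subst h0; omega
    · exact h0
  have hv' : 0 < v' := by
    rcases Nat.eq_zero_or_pos v' with h0 | h0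
    · subst h0; omega
    · exact h0
  have hC : 0 < yn h1 l := yn_pos h1 hl
  have hr : (0 : ℝ) < rr (X : ℝ) (Z : ℝ) v v' (yn h1 l) E := by
    have := rr_cast X (Z : ℤ) v v' (yn h1 l) E
    push_cast at this
    rw [← this]
    exact_mod_cast h
  obtain ⟨ε, hε, h2⟩ := real_sound hvR (by exact_mod_cast hv') (by exact_mod_cast hC)
    (by exact_mod_cast hX) (by exact_mod_cast hZ) hr
  refine ⟨ε, hε, ?_⟩
  have hZ0 : (0 : ℝ) < Z := by exact_mod_cast hZ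
  have h3 := near_coeff h1 hvR hl hε
  have h4 := two_pow_sg hbig
  set α := uu (sg (v : ℝ)) ^ 2 + (ε : ℝ) * uu (sg v)
  have hvZ : (v : ℝ) = Z * v' := by exact_mod_cast hv
  have h5 : |(Z : ℝ) * E - 2 * v * (yn h1 l) * α| < 1 / 4 := by
    have e : (Z : ℝ) * E - 2 * v * (yn h1 l) * α = Z * (E - 2 * v' * (yn h1 l) * α) := by
      rw [hvZ]; ring
    rw [e, abs_mul, abs_of_pos hZ0]
    calc (Z : ℝ) * |E - 2 * v' * (yn h1 l) * α| < Z * (1 / (4 * Z)) := by gcongr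
      _ = 1 / 4 := by field_simp
  have h6 : |(Z : ℝ) * E - (2 * v * (YY h1 ε l : ℝ) + cc ε l)| < 1 := by
    have e : (Z : ℝ) * E - (2 * v * (YY h1 ε l : ℝ) + cc ε l) =
        (Z * E - 2 * v * (yn h1 l) * α) +
        (2 * v * (yn h1 l) * α - (2 * v * (YY h1 ε l : ℝ) + cc ε l)) := by ring
    rw [e]
    refine lt_of_le_of_lt (abs_add_le _ _) ?_
    linarith
  have h7 : |(Z : ℤ) * E - (2 * v * YY h1 ε l + cc ε l)| < 1 := by
    have : ((|(Z : ℤ) * E - (2 * v * YY h1 ε l + cc ε l)| : ℤ) : ℝ) < ((1 : ℤ) : ℝ) := by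
      push_cast; exact h6
    exact_mod_cast this
  have h8 := Int.abs_lt_one_iff.1 h7
  have h9 : cc ε l = Z * (E - 2 * v' * YY h1 ε l) := by
    have : (v : ℤ) = Z * v' := by exact_mod_cast hv
    rw [this] at h8
    linear_combination -h8
  exact ⟨_, h9⟩

theorem test_sound {v Z v' l : ℕ} (h1 : 1 < v) (hl : 1 ≤ l) (hv : v = Z * v')
    (hbig : 2 ^ (3 * l + 8) * 8192 ≤ v) {X C E : ℤ} (hX : 1 ≤ X) (hC : |C| = yn h1 l)
    (h : 0 < rr X (Z : ℤ) v v' C E) :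
    ∃ ε : ℤ, (ε = 1 ∨ ε = -1) ∧ (Z : ℤ) ∣ cc ε l := by
  rcases le_total 0 C with h0 | h0
  · rw [abs_of_nonneg h0] at hC
    rw [hC] at h
    exact test_sound_pos h1 hl hv hbig hX h
  · rw [abs_of_nonpos h0] at hC
    rw [← rr_neg, hC] at h
    exact test_sound_pos h1 hl hv hbig hX h

theorem test_complete {v Z v' l N1 : ℕ} (h1 : 1 < v) (hl : 1 ≤ l) (hv : v = Z * v')
    (hN1 : 1 ≤ N1) (hbig : 2 ^ (3 * l + 8) * N1 * 8192 ≤ v) {X : ℤ} (hX : 1 ≤ X)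
    (hXN : X ≤ (N1 : ℤ) ^ 2) (hd : (Z : ℤ) ∣ cc 1 l) :
    ∃ E : ℕ, 0 < rr X (Z : ℤ) v v' (yn h1 l) E := by
  have hp : 1 ≤ 2 ^ (3 * l + 8) := Nat.one_le_two_pow
  have hbig2 : 2 ^ (3 * l + 8) * 8192 ≤ v := by
    refine le_trans ?_ hbig
    exact Nat.mul_le_mul_right _ (Nat.le_mul_of_pos_right _ hN1)
  have hv16 : 16 ≤ v := by omega
  have hvR : (16 : ℝ) ≤ v := by exact_mod_cast hv16
  have hZ : 0 < Z := by
    rcases Nat.eq_zero_or_pos Z with h0 | h0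
    · subst h0; omega
    · exact h0
  have hv' : 0 < v' := by
    rcases Nat.eq_zero_or_pos v' with h0 | h0
    · subst h0; omega
    · exact h0
  have hC : 0 < yn h1 l := yn_pos h1 hl
  obtain ⟨q, hq⟩ := hd
  have hq0 : 0 ≤ q := by
    have h2 := cc_nonneg (ε := 1) (Or.inl rfl) l
    rw [hq] at h2
    exact nonneg_of_mul_nonneg_right h2 (by exact_mod_cast hZ)
  have hY : 0 ≤ YY h1 1 l := by
    unfold YY
    exact sum_nonneg (fun i _ => mul_nonneg (cc_nonneg (Or.inl rfl) i) (by positivity))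
  have hE0 : 0 ≤ 2 * v' * YY h1 1 l + q := by positivity
  obtain ⟨E, hE⟩ := Int.eq_ofNat_of_zero_le hE0
  refine ⟨E, ?_⟩
  have hZE : (Z : ℤ) * E = 2 * v * YY h1 1 l + cc 1 l := by
    have : (v : ℤ) = Z * v' := by exact_mod_cast hv
    rw [← hE, hq, this]; ring
  have h3 := near_coeff h1 hvR hl (ε := 1) (Or.inl rfl)
  have hZ0 : (0 : ℝ) < Z := by exact_mod_cast hZ
  have hv0 : (0 : ℝ) < v := by linarith
  have hs := sg_le hvR
  have hs0 := sg_pos hvR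
  have hvZ : (v : ℝ) = Z * v' := by exact_mod_cast hv
  have key : 0 < rr (X : ℝ) (Z : ℝ) v v' (yn h1 l) E := by
    refine real_complete (N1 := N1) (η := 2 ^ (3 * l + 8) * sg v) hvR (by exact_mod_cast hv')
      (by exact_mod_cast hC) (by exact_mod_cast hX) (by exact_mod_cast hXN)
      (by exact_mod_cast hN1) (by exact_mod_cast hZ) (by positivity) ?_ ?_
    · have h2 : (2 : ℝ) ^ (3 * l + 8) * N1 * 8192 ≤ v := by exact_mod_cast hbig
      calc (2 : ℝ) ^ (3 * l + 8) * sg v * N1 * 8192 ≤ 2 ^ (3 * l + 8) * (1 / v) * N1 * 8192 := by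
            gcongr
        _ = (2 ^ (3 * l + 8) * N1 * 8192) / v := by ring
        _ ≤ 1 := by rw [div_le_one hv0]; exact h2
    · rw [le_div_iff₀ hZ0]
      set α := uu (sg (v : ℝ)) ^ 2 + ((1 : ℤ) : ℝ) * uu (sg v)
      have hZE' : (Z : ℝ) * E = 2 * v * (YY h1 1 l : ℝ) + cc 1 l := by exact_mod_cast hZE
      have e : |(E : ℝ) - 2 * v' * (yn h1 l) * α| * Z = |(Z : ℝ) * E - 2 * v * (yn h1 l) * α| := by
        rw [← abs_of_pos hZ0, ← abs_mul, abs_of_pos hZ0, hvZ]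
        congr 1; ring
      rw [e, hZE', abs_sub_comm]
      exact h3
  have := rr_cast X (Z : ℤ) v v' (yn h1 l) E
  push_cast at this
  rw [← this] at key
  exact_mod_cast key

end Pool.Agent.H715.U8
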