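import Mathlib
import Pool.Agent.H715.U8.CodeD
import Pool.Agent.H715.U8.IntTest
import Pool.Agent.H715.U8.Growth
import Pool.Agent.H715.U8.CB
import Pool.Graph.R_seed8.H689R2.RelComb

set_option autoImplicit false

/-!
The equation in eight unknowns attached to a quadratic system: soundness.
-/

namespace Pool.Agent.H715.U8

open Finset Pell Pool.Agent.H689R2

theorem index_orth {b β S T N l r : ℕ} {ε : ℤ} (hb : b = 2 ^ β) (hN : N = 2 ^ r)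
    (hS : S < N) (hT : T < N)
    (hl : l + 1 = b * (((N - 1 - S) + N * ((N - 1 - T) + N * (S + T))) + 1))
    (hε : ε = 1 ∨ ε = -1) : ((b * N ^ 2 : ℕ) : ℤ) ∣ cc ε l ↔ Orth S T := by
  obtain ⟨R, hR⟩ : ∃ R : ℕ, R = (N - 1 - S) + N * ((N - 1 - T) + N * (S + T)) := ⟨_, rfl⟩
  rw [← hR] at hl
  have hb1 : 1 ≤ b := by rw [hb]; exact Nat.one_le_two_pow
  have hN1 : 1 ≤ N := by omega
  have hRN : N ^ 2 ≤ R + 1 := by
    rcases Nat.eq_zero_or_pos (S + T) with h0 | h0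
    · have hS0 : S = 0 := by omega
      have hT0 : T = 0 := by omega
      subst hS0 hT0
      rw [hR]
      have e : N = (N - 1) + 1 := by omega
      have : N - 1 - 0 + N * (N - 1 - 0 + N * (0 + 0)) + 1 = N ^ 2 := by
        obtain ⟨m, rfl⟩ : ∃ m, N = m + 1 := ⟨N - 1, e⟩
        simp only [Nat.add_sub_cancel, Nat.sub_zero]
        ring
      omega
    · have h1 : N * (N * 1) ≤ N * ((N - 1 - T) + N * (S + T)) := by
        apply Nat.mul_le_mul_left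
        have : N * 1 ≤ N * (S + T) := Nat.mul_le_mul_left _ h0
        omega
      have h2 : N * (N * 1) = N ^ 2 := by ring
      omega
  have hZ : b * N ^ 2 = 2 ^ (β + 2 * r) := by rw [hb, hN]; ring
  have hz : β + 2 * r ≤ 2 * l := by
    have h1 : 2 ^ (β + 2 * r) ≤ l + 1 := by
      rw [← hZ, hl]; exact Nat.mul_le_mul_left _ hRN
    have h2 : β + 2 * r < 2 ^ (β + 2 * r) := Nat.lt_two_pow_self
    omega
  have hlR : l = (b - 1) + 2 ^ β * R := by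
    have : b * (R + 1) = b * R + b := by ring
    rw [this] at hl
    rw [← hb]; omega
  have hsb : sb l = β + sb R := by
    rw [hlR, sb_block β R (b - 1) (by rw [← hb]; omega)]
    have := sb_compl β 0 (by positivity)
    rw [Nat.sub_zero, sb_zero, ← hb] at this
    omega
  rw [hZ, dvd_cc_iff hε hz, hsb]
  rw [hN] at hS hT
  rw [← sb_index_iff hS hT, ← hN, ← hR]
  omega

/-- the base -/
def cb {R : Type*} [CommRing R] (a f : R) : R := ((2 * a + 3) * (2 * f + 1) + 1) ^ 2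

theorem cb_map {R S : Type*} [CommRing R] [CommRing S] (φ : R →+* S) (a f : R) :
    φ (cb a f) = cb (φ a) (φ f) := by
  simp only [cb, map_add, map_mul, map_pow, map_one, map_ofNat]

theorem cb_nat (a : ℕ) (f : ℤ) : ∃ b : ℕ, (b : ℤ) = cb (a : ℤ) f ∧ 4 ≤ b ∧ a ≤ b := by
  obtain ⟨z, hz⟩ : ∃ z : ℤ, z = (2 * (a : ℤ) + 3) * (2 * f + 1) + 1 := ⟨_, rfl⟩
  have h1 : 2 * (a : ℤ) + 2 ≤ |z| := by
    rcases le_or_gt 0 f with h | h
    · have : 2 * (a : ℤ) + 2 ≤ z := by rw [hz]; nlinarith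
      exact this.trans (le_abs_self z)
    · have : 2 * (a : ℤ) + 2 ≤ -z := by rw [hz]; nlinarith
      exact this.trans (neg_le_abs z)
  obtain ⟨n, hn⟩ : ∃ n : ℕ, (n : ℤ) = |z| := ⟨z.natAbs, Int.natCast_natAbs _⟩
  rw [← hn] at h1
  have h2 : 2 * a + 2 ≤ n := by exact_mod_cast h1
  refine ⟨n ^ 2, ?_, ?_, ?_⟩
  · unfold cb
    rw [← hz, ← sq_abs z, ← hn]; push_cast; rfl
  · nlinarith
  · nlinarith

namespace QS

section ring
variable {R : Type*} [CommRing R] (Q : QS)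

def cX (b g : R) : R := (2 * g + 1) * (2 * Q.fN1 b - 2 * g - 1)
def cP (a b g : R) : R := Q.fl a b g ^ 2 + Q.fZ b * Q.fN1 b + 8
def cvp (a b g k : R) : R := ((Q.cP a b g - 1) * k) ^ 2 + 1
def cv (a b g k : R) : R := Q.fZ b * Q.cvp a b g k
def cC (a b g k h : R) : R := Q.fl a b g + (Q.cv a b g k - 1) * h
def cA1 (a b g k h x y : R) : R :=
  qDPI (Q.cv a b g k) (Q.fl a b g) (Q.cC a b g k h) x y
def cA2 (a b g k : R) : R := (Q.cP a b g ^ 2 - 1) * ((Q.cP a b g - 1) * k) ^ 2 + 1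
def cR (a b g k h E x : R) : R :=
  rr (Q.cX b g) (Q.fZ b) (Q.cv a b g k) (Q.cvp a b g k) (Q.cC a b g k h) E * ((x + 1) * k) ^ 2
/-- the left-hand side, as a function of the base -/
def cF' (a b g k h E x y n : R) : R :=
  rcM (Q.cA1 a b g k h x y) (Q.cA2 a b g k) 1 (Q.cR a b g k h E x) n
/-- the left-hand side of the equation -/
def cF (a f g k h E x y n : R) : R := Q.cF' a (cb a f) g k h E x y n

end ring

theorem cF_map {R S : Type*} [CommRing R] [CommRing S] (φ : R →+* S) (Q : QS)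
    (a f g k h E x y n : R) :
    φ (Q.cF a f g k h E x y n) =
      Q.cF (φ a) (φ f) (φ g) (φ k) (φ h) (φ E) (φ x) (φ y) (φ n) := by
  simp only [cF, cF', rcM, rcK, cR, cA2, cA1, cC, cv, cvp, cP, cX, rr, nm, p0, p1, qDPI, qD, qE,
    qP, qG, qH, qI, map_mul, map_add, map_sub, map_pow, map_one, map_ofNat, map_neg,
    Q.map_simps φ, Q.map_fZ φ, Q.map_fN1 φ, cb_map φ]

variable (Q : QS)

theorem fN1_nat (b : ℕ) : Q.fN1 (b : ℤ) = (((2 * b ^ Q.EE) ^ Q.LL : ℕ) : ℤ) := by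
  unfold fN1 fB fH; push_cast; rfl

theorem fN_nat (b : ℕ) : Q.fN (b : ℤ) = (((2 * b ^ Q.EE) ^ (Q.LL + Q.JJ + 1) : ℕ) : ℤ) := by
  unfold fN fB fH; push_cast; rfl

theorem fZ_nat (b : ℕ) :
    Q.fZ (b : ℤ) = ((b * ((2 * b ^ Q.EE) ^ (Q.LL + Q.JJ + 1)) ^ 2 : ℕ) : ℤ) := by
  unfold fZ; rw [Q.fN_nat b]; push_cast; rfl

theorem X_pos {N1 : ℕ} {g : ℤ} (h : 0 < (2 * g + 1) * (2 * (N1 : ℤ) - 2 * g - 1)) :
    0 ≤ g ∧ g < N1 := by
  have hN : (0 : ℤ) ≤ N1 := by positivity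
  rcases (mul_pos_iff.1 h) with ⟨h1, h2⟩ | ⟨h1, h2⟩
  · constructor <;> omega
  · exfalso; omega

theorem rr_X_pos {X Z v v' C E : ℤ} (h : 0 < rr X Z v v' C E) : 0 < X := by
  by_contra hX
  push Not at hX
  unfold rr at h
  have h1 : 0 ≤ X ^ 2 * (Z * nm v v' C E) ^ 2 := by positivity
  have h2 : X * (v ^ 4 * v' ^ 2 * C ^ 2 * E ^ 4) ≤ 0 :=
    mul_nonpos_of_nonpos_of_nonneg hX (by positivity)
  linarith

theorem core_sound {a : ℕ} {f g k h E x y : ℤ} {n : ℕ}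
    (hF : Q.cF (a : ℤ) f g k h E x y n = 0) : ∃ w : ℕ → ℕ, w 0 = 1 ∧ Q.Sat a w := by
  obtain ⟨b, hb, hb4, hab⟩ := cb_nat a f
  have hb2 : 2 ≤ b := by omega
  obtain ⟨hH1, hH2⟩ := Q.H_ge hb2
  unfold cF at hF
  rw [← hb] at hF
  obtain ⟨N1, hN1⟩ : ∃ N1 : ℕ, N1 = (2 * b ^ Q.EE) ^ Q.LL := ⟨_, rfl⟩
  obtain ⟨N, hN⟩ : ∃ N : ℕ, N = (2 * b ^ Q.EE) ^ (Q.LL + Q.JJ + 1) := ⟨_, rfl⟩
  obtain ⟨Z, hZ⟩ : ∃ Z : ℕ, Z = b * N ^ 2 := ⟨_, rfl⟩
  have eN1 : Q.fN1 (b : ℤ) = N1 := by rw [Q.fN1_nat, ← hN1]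
  have eN : Q.fN (b : ℤ) = N := by rw [Q.fN_nat, ← hN]
  have eZ : Q.fZ (b : ℤ) = Z := by rw [Q.fZ_nat, ← hN, ← hZ]
  have hN1pos : 1 ≤ N1 := by rw [hN1]; exact Nat.one_le_iff_ne_zero.2 (by positivity)
  have hNpos : 1 ≤ N := by rw [hN]; exact Nat.one_le_iff_ne_zero.2 (by positivity)
  have hZ4 : 4 ≤ Z := by
    rw [hZ]
    calc 4 ≤ b * 1 := by omega
      _ ≤ b * N ^ 2 := Nat.mul_le_mul_left _ (Nat.one_le_iff_ne_zero.2 (by positivity))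
  obtain ⟨L, hL⟩ : ∃ L : ℤ, L = Q.fl (a : ℤ) b g := ⟨_, rfl⟩
  obtain ⟨P, hP⟩ : ∃ P : ℕ, P = L.natAbs ^ 2 + Z * N1 + 8 := ⟨_, rfl⟩
  have eP : Q.cP (a : ℤ) b g = P := by
    unfold cP; rw [← hL, eZ, eN1, hP]; push_cast; rw [sq_abs]
  have hP8 : 8 ≤ P := by omega
  obtain ⟨v', hv'⟩ : ∃ v' : ℕ, v' = (((P : ℤ) - 1) * k).natAbs ^ 2 + 1 := ⟨_, rfl⟩
  have evp : Q.cvp (a : ℤ) b g k = v' := by
    unfold cvp; rw [eP, hv']; push_cast; rw [sq_abs]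
  obtain ⟨v, hv⟩ : ∃ v : ℕ, v = Z * v' := ⟨_, rfl⟩
  have ev : Q.cv (a : ℤ) b g k = v := by
    unfold cv; rw [evp, eZ, hv]; push_cast; rfl
  have hv1 : 1 < v := by
    rw [hv]
    calc 1 < 4 * 1 := by norm_num
      _ ≤ Z * v' := Nat.mul_le_mul hZ4 (by omega)
  have eA1 : Q.cA1 (a : ℤ) b g k h x y = qDPI (v : ℤ) L (L + ((v : ℤ) - 1) * h) x y := by
    unfold cA1 cC; rw [ev, ← hL]
  have eA2 : Q.cA2 (a : ℤ) b g k = ((P : ℤ) ^ 2 - 1) * (((P : ℤ) - 1) * k) ^ 2 + 1 := by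
    unfold cA2; rw [eP]
  have eR : Q.cR (a : ℤ) b g k h E x =
      rr ((2 * g + 1) * (2 * (N1 : ℤ) - 2 * g - 1)) (Z : ℤ) v v' (L + ((v : ℤ) - 1) * h) E *
        ((x + 1) * k) ^ 2 := by
    unfold cR cX cC; rw [ev, evp, eZ, eN1, ← hL]
  have q1 : 0 < Q.cA1 (a : ℤ) b g k h x y := by rw [eA1]; exact qDPI_posZ hv1
  have q2 : 0 < Q.cA2 (a : ℤ) b g k := by
    rw [eA2]
    have : (0 : ℤ) ≤ (P : ℤ) ^ 2 - 1 := sub_nonneg.2 (one_le_pow₀ (by exact_mod_cast (by omega)))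
    positivity
  unfold cF' at hF
  obtain ⟨⟨s1, s2, -⟩, hR⟩ := rcM_sound q1 q2 one_pos hF
  rw [eA1] at s1
  rw [eA2] at s2
  rw [eR] at hR
  have hxk : (x + 1) * k ≠ 0 := by
    intro h0; rw [h0] at hR; simp at hR
  have hx : x + 1 ≠ 0 := left_ne_zero_of_mul hxk
  have hk : k ≠ 0 := right_ne_zero_of_mul hxk
  have hrr : 0 < rr ((2 * g + 1) * (2 * (N1 : ℤ) - 2 * g - 1)) (Z : ℤ) v v'
      (L + ((v : ℤ) - 1) * h) E := (pos_iff_pos_of_mul_pos hR).2 (by positivity)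
  have hX := rr_X_pos hrr
  obtain ⟨hg0, hg1⟩ := X_pos hX
  obtain ⟨g', rfl⟩ := Int.eq_ofNat_of_zero_le hg0
  have hgN1 : g' < N1 := by exact_mod_cast hg1
  rw [hN1] at hgN1
  obtain ⟨n', S, T, hn', -, hS, hT, hSz, hTz, hSN, hTN⟩ := Q.ST_nat hb2 hab hgN1
  rw [← hN] at hSN hTN
  obtain ⟨l, hlz, hl⟩ := Q.index_nat hb2 hSz hTz eN.symm hSN hTN
  rw [← hlz] at hL
  subst hL
  have hl1 : 3 ≤ l := by
    have : b * 1 ≤ b * (((N - 1 - S) + N * ((N - 1 - T) + N * (S + T))) + 1) :=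
      Nat.mul_le_mul_left _ (by omega)
    omega
  have hP' : P = l ^ 2 + Z * N1 + 8 := by rw [hP, Int.natAbs_natCast]
  have hbig := size_bound (v := v) hP' (by omega : 1 ≤ Z) hk s2 (by
    rw [hv, hv']; push_cast; rw [sq_abs])
  have hbig2 : 2 ^ (3 * l + 8) * 8192 ≤ v := by
    refine le_trans ?_ hbig
    exact Nat.mul_le_mul_right _ (Nat.le_mul_of_pos_right _ hN1pos)
  have hv2l : 2 * l + 1 ≤ v := by
    have h1 : 3 * l + 8 < 2 ^ (3 * l + 8) := Nat.lt_two_pow_self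
    omega
  have hC : (l : ℤ) ≤ |(l : ℤ) + ((v : ℤ) - 1) * h| := by
    have hv2 : 2 * (l : ℤ) + 1 ≤ v := by exact_mod_cast hv2l
    have hl0 : (0 : ℤ) ≤ l := by positivity
    rcases lt_trichotomy h 0 with h0 | h0 | h0
    · refine le_trans ?_ (neg_le_abs _)
      have : ((v : ℤ) - 1) * h ≤ ((v : ℤ) - 1) * (-1) :=
        mul_le_mul_of_nonneg_left (by omega) (by linarith)
      linarith
    · rw [h0, mul_zero, add_zero]; exact le_abs_self _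
    · refine le_trans ?_ (le_abs_self _)
      have : 0 ≤ ((v : ℤ) - 1) * h := mul_nonneg (by linarith) h0.le
      linarith
  have hCy := main_soundZ hv1 (by omega : 0 < l) hC hx s1
  obtain ⟨ε, hε, hdvd⟩ := test_sound hv1 (by omega : 1 ≤ l) hv hbig2 (by linarith) hCy hrr
  obtain ⟨β, hβ⟩ := pow_two_of_dvd_cc (b := b) (by omega) (by rw [hZ]; exact dvd_mul_right _ _)
    (by rw [hl]; exact dvd_mul_right _ _) hdvd
  have hβ1 : 1 ≤ β := by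
    rcases Nat.eq_zero_or_pos β with h0 | h0
    · subst h0; simp at hβ; omega
    · exact h0
  have hNr : N = 2 ^ ((β * Q.EE + 1) * (Q.LL + Q.JJ + 1)) := by
    rw [hN, Q.base_eq hβ, ← pow_mul]
  rw [hZ] at hdvd
  have horth := (index_orth hβ hNr hSN hTN hl hε).1 hdvd
  obtain ⟨w, hw, hsat⟩ := (Q.coding hβ1 hβ hab hgN1 hn' hS hT).1 horth
  exact ⟨w, hw.1, hsat⟩

end QS

end Pool.Agent.H715.U8
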