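import Mathlib
import Pool.Agent.H715.U8.Core

set_option autoImplicit false

/-!
The equation in eight unknowns attached to a quadratic system: completeness.
-/

namespace Pool.Agent.H715.U8

open Finset Pell Pool.Agent.H689R2

theorem exists_quot {a c M : ℕ} (h : a ≡ c [MOD M]) (hc : c ≤ a) : ∃ q, a = c + M * q := by
  obtain ⟨q, hq⟩ := (Nat.modEq_iff_dvd' hc).1 h.symm
  exact ⟨q, by omega⟩

theorem yn_ge_self {a : ℕ} (a1 : 1 < a) (n : ℕ) : n ≤ yn a1 n := by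
  induction n with
  | zero => exact Nat.zero_le _
  | succ n ih => exact lt_of_le_of_lt ih ((strictMono_y a1) (Nat.lt_succ_self n))

namespace QS

variable (Q : QS)

theorem core_complete {a : ℕ} {w : ℕ → ℕ} (h0 : w 0 = 1) (hw : Q.Sat a w) :
    ∃ f g k h E x y n : ℕ, Q.cF (a : ℤ) f g k h E x y n = 0 := by
  obtain ⟨f, γ, hfγ, hMγ⟩ := exists_pow a (a + ∑ i ∈ range Q.ν, w (i + 1))
  obtain ⟨b, hb⟩ : ∃ b : ℕ, b = (2 ^ γ) ^ 2 := ⟨_, rfl⟩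
  obtain ⟨β, hβdef⟩ : ∃ β : ℕ, β = 2 * γ := ⟨_, rfl⟩
  have hβ : b = 2 ^ β := by rw [hb, hβdef, ← pow_mul, mul_comm γ 2]
  have hγ4 : 4 ≤ 2 ^ γ := by rw [← hfγ]; nlinarith
  have hγb : 2 ^ γ ≤ b := by rw [hb, sq]; exact Nat.le_mul_of_pos_left _ (by omega)
  have hb4 : 4 ≤ b := by omega
  have hb2 : 2 ≤ b := by omega
  have hβ1 : 1 ≤ β := by
    rcases Nat.eq_zero_or_pos γ with h1 | h1
    · subst h1; simp at hγ4
    · omega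
  have hab : a ≤ b := by omega
  have hwb : ∀ i < Q.ν, w (i + 1) < b := by
    intro i hi
    have : w (i + 1) ≤ ∑ i ∈ range Q.ν, w (i + 1) :=
      single_le_sum (f := fun i => w (i + 1)) (fun _ _ => Nat.zero_le _) (mem_range.2 hi)
    omega
  have hbz : (b : ℤ) = cb (a : ℤ) (f : ℤ) := by
    unfold cb
    rw [hb, ← hfγ]; push_cast; ring
  obtain ⟨hH1, hH2⟩ := Q.H_ge hb2
  obtain ⟨N1, hN1⟩ : ∃ N1 : ℕ, N1 = (2 * b ^ Q.EE) ^ Q.LL := ⟨_, rfl⟩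
  obtain ⟨N, hN⟩ : ∃ N : ℕ, N = (2 * b ^ Q.EE) ^ (Q.LL + Q.JJ + 1) := ⟨_, rfl⟩
  obtain ⟨Z, hZ⟩ : ∃ Z : ℕ, Z = b * N ^ 2 := ⟨_, rfl⟩
  have eN1 : Q.fN1 (b : ℤ) = N1 := by rw [Q.fN1_nat, ← hN1]
  have eN : Q.fN (b : ℤ) = N := by rw [Q.fN_nat, ← hN]
  have eZ : Q.fZ (b : ℤ) = Z := by rw [Q.fZ_nat, ← hN, ← hZ]
  have hN1pos : 1 ≤ N1 := by rw [hN1]; exact Nat.one_le_iff_ne_zero.2 (by positivity)
  have hNpos : 1 ≤ N := by rw [hN]; exact Nat.one_le_iff_ne_zero.2 (by positivity)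
  have hZ4 : 4 ≤ Z := by
    rw [hZ]
    calc 4 ≤ b * 1 := by omega
      _ ≤ b * N ^ 2 := Nat.mul_le_mul_left _ (Nat.one_le_iff_ne_zero.2 (by positivity))
  obtain ⟨g, hg⟩ : ∃ g : ℕ, g = ∑ i ∈ range Q.ν, w (i + 1) * (2 * b ^ Q.EE) ^ ex (i + 1) :=
    ⟨_, rfl⟩
  have hshape : Q.Shape b w g := ⟨h0, hwb, hg⟩
  have hgN1 := (Q.mask_complete hβ1 hβ hshape).1
  obtain ⟨n', S, T, hn', -, hS, hT, hSz, hTz, hSN, hTN⟩ := Q.ST_nat hb2 hab hgN1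
  rw [← hN] at hSN hTN
  obtain ⟨l, hlz, hl⟩ := Q.index_nat hb2 hSz hTz eN.symm hSN hTN
  have hl1 : 3 ≤ l := by
    have : b * 1 ≤ b * (((N - 1 - S) + N * ((N - 1 - T) + N * (S + T))) + 1) :=
      Nat.mul_le_mul_left _ (by omega)
    omega
  have horth := (Q.coding hβ1 hβ hab hgN1 hn' hS hT).2 ⟨w, hshape, hw⟩
  have hNr : N = 2 ^ ((β * Q.EE + 1) * (Q.LL + Q.JJ + 1)) := by
    rw [hN, Q.base_eq hβ, ← pow_mul]
  have hdvd := (index_orth hβ hNr hSN hTN hl (ε := 1) (Or.inl rfl)).2 horth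
  rw [← hZ] at hdvd
  obtain ⟨P, hP⟩ : ∃ P : ℕ, P = l ^ 2 + Z * N1 + 8 := ⟨_, rfl⟩
  have hP8 : 8 ≤ P := by omega
  have eP : Q.cP (a : ℤ) b g = P := by
    unfold cP; rw [← hlz, eZ, eN1, hP]; push_cast; ring
  obtain ⟨k, hk, s2⟩ := growth_complete hP8
  obtain ⟨v', hv'⟩ : ∃ v' : ℕ, v' = ((P - 1) * k) ^ 2 + 1 := ⟨_, rfl⟩
  have hv'z : (v' : ℤ) = (((P : ℤ) - 1) * k) ^ 2 + 1 := by
    rw [hv']; push_cast [Nat.cast_sub (by omega : 1 ≤ P)]; ring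
  have evp : Q.cvp (a : ℤ) b g k = v' := by
    unfold cvp; rw [eP, hv'z]
  obtain ⟨v, hv⟩ : ∃ v : ℕ, v = Z * v' := ⟨_, rfl⟩
  have ev : Q.cv (a : ℤ) b g k = v := by
    unfold cv; rw [evp, eZ, hv]; push_cast; rfl
  have hv1 : 1 < v := by
    rw [hv]
    calc 1 < 4 * 1 := by norm_num
      _ ≤ Z * v' := Nat.mul_le_mul hZ4 (by omega)
  have hbig := size_bound (v := v) hP (by omega : 1 ≤ Z) (by exact_mod_cast hk) s2 (by
    rw [hv, ← hv'z]; push_cast; rfl)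
  have hX1 : (1 : ℤ) ≤ (2 * g + 1) * (2 * (N1 : ℤ) - 2 * g - 1) := by
    have h1 : (g : ℤ) + 1 ≤ N1 := by
      have : g + 1 ≤ N1 := by rw [hN1]; exact hgN1
      exact_mod_cast this
    have h2 : (0 : ℤ) ≤ g := by positivity
    calc (1 : ℤ) = 1 * 1 := by norm_num
      _ ≤ _ := mul_le_mul (by linarith) (by linarith) (by norm_num) (by linarith)
  have hX2 : (2 * (g : ℤ) + 1) * (2 * (N1 : ℤ) - 2 * g - 1) ≤ (N1 : ℤ) ^ 2 := by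
    nlinarith [sq_nonneg ((N1 : ℤ) - (2 * g + 1))]
  obtain ⟨E, hE⟩ := test_complete hv1 (by omega : 1 ≤ l) hv hN1pos hbig hX1 hX2 hdvd
  obtain ⟨h, hh⟩ : ∃ h, yn hv1 l = l + (v - 1) * h :=
    exists_quot (yn_modEq_a_sub_one hv1 l) (yn_ge_self hv1 l)
  have hhz : ((yn hv1 l : ℕ) : ℤ) = (l : ℤ) + ((v : ℤ) - 1) * h := by
    rw [hh]; push_cast [Nat.cast_sub hv1.le]; ring
  obtain ⟨x, y, s1⟩ := main_complete hv1 (B := l) (by omega)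
  have eA1 : Q.cA1 (a : ℤ) b g k h x y = qDPI (v : ℤ) l ((yn hv1 l : ℕ) : ℤ) x y := by
    unfold cA1 cC; rw [ev, ← hlz, hhz]
  have eA2 : Q.cA2 (a : ℤ) b g k = ((P : ℤ) ^ 2 - 1) * (((P : ℤ) - 1) * k) ^ 2 + 1 := by
    unfold cA2; rw [eP]
  have eR : Q.cR (a : ℤ) b g k h E x =
      rr ((2 * g + 1) * (2 * (N1 : ℤ) - 2 * g - 1)) (Z : ℤ) v v' ((yn hv1 l : ℕ) : ℤ) E *
        (((x : ℤ) + 1) * k) ^ 2 := by
    unfold cR cX cC; rw [ev, evp, eZ, eN1, ← hlz, hhz]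
  have hkz : (k : ℤ) ≠ 0 := by exact_mod_cast hk
  have hxz : (x : ℤ) + 1 ≠ 0 := by positivity
  have q1 : 0 < Q.cA1 (a : ℤ) b g k h x y := by rw [eA1]; exact qDPI_posZ hv1
  have q2 : 0 < Q.cA2 (a : ℤ) b g k := by
    rw [eA2]
    have : (0 : ℤ) ≤ (P : ℤ) ^ 2 - 1 := sub_nonneg.2 (one_le_pow₀ (by exact_mod_cast (by omega)))
    positivity
  have q3 : 0 < Q.cR (a : ℤ) b g k h E x := by
    rw [eR]
    have : 0 < (((x : ℤ) + 1) * k) ^ 2 := by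
      have := mul_ne_zero hxz hkz
      positivity
    exact mul_pos hE this
  obtain ⟨n, hn⟩ := rcM_complete (A1 := Q.cA1 (a : ℤ) b g k h x y) (A2 := Q.cA2 (a : ℤ) b g k)
    (A3 := 1) (r := Q.cR (a : ℤ) b g k h E x) (by rw [eA1]; exact s1) (by rw [eA2]; exact s2)
    ⟨1, by norm_num⟩ q1 q2 one_pos q3
  refine ⟨f, g, k, h, E, x, y, n, ?_⟩
  unfold cF cF'
  rw [← hbz]
  exact hn

end QS

end Pool.Agent.H715.U8
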