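import Mathlib
import Pool.Agent.H715.U8.CoreC
import Pool.Graph.R_pool_sql_team_22a80281.Lib.lead_.MRDP

set_option autoImplicit false

/-!
Every Diophantine set of natural numbers is given by a quadratic system.
-/

namespace Pool.Agent.H715.U8

open Finset LeadMRDP

/-- the three terms of a flat constraint: coefficient and two indices -/
def ctm {V : Type} (ix : V → ℕ) : Con V → ℕ → ℤ × ℕ × ℕ
  | .add x _ _, 0 => (1, 0, ix x)
  | .add _ y _, 1 => (-1, 0, ix y)
  | .add _ _ z, _ + 2 => (-1, 0, ix z)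
  | .mul x _ _, 0 => (1, 0, ix x)
  | .mul _ y z, 1 => (-1, ix y, ix z)
  | .mul _ _ _, _ + 2 => (0, 0, 0)
  | .one x, 0 => (1, 0, ix x)
  | .one _, 1 => (-1, 0, 0)
  | .one _, _ + 2 => (0, 0, 0)

theorem ctm_le {V : Type} {ix : V → ℕ} {ν : ℕ} (h : ∀ x, ix x ≤ ν) (c : Con V) (j : ℕ) :
    (ctm ix c j).2.1 ≤ ν ∧ (ctm ix c j).2.2 ≤ ν := by
  cases c <;> rcases j with _ | _ | j <;> simp [ctm, h]

/-- the terms of the whole system, with the parameter equation at the end -/
def stm {V : Type} (ix : V → ℕ) (x0 : V) (L : List (Con V)) (k j : ℕ) : ℤ × ℕ × ℕ :=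
  if h : k < L.length then ctm ix (L.get ⟨k, h⟩) j
  else match j with
    | 0 => (1, 0, ix x0)
    | 1 => (-1, 0, 0)
    | _ + 2 => (0, 0, 0)

theorem stm_le {V : Type} {ix : V → ℕ} {ν : ℕ} (h : ∀ x, ix x ≤ ν) (x0 : V) (L : List (Con V))
    (k j : ℕ) : (stm ix x0 L k j).2.1 ≤ ν ∧ (stm ix x0 L k j).2.2 ≤ ν := by
  unfold stm
  split_ifs with hk
  · exact ctm_le h _ _
  · rcases j with _ | _ | j <;> simp [h]

/-- the quadratic system of a flat system -/
def mkQS {V : Type} (ν : ℕ) (ix : V → ℕ) (h : ∀ x, ix x ≤ ν) (x0 : V) (L : List (Con V)) : QS where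
  ν := ν
  K := L.length + 1
  α := fun k j => (stm ix x0 L k j).1
  s := fun k j => if k = L.length ∧ j = 1 then 1 else 0
  p := fun k j => (stm ix x0 L k j).2.1
  q := fun k j => (stm ix x0 L k j).2.2
  hs := fun k j => by split_ifs <;> omega
  hp := fun k j => (stm_le h x0 L k j).1
  hq := fun k j => (stm_le h x0 L k j).2

theorem mkQS_sat {V : Type} (ν : ℕ) (ix : V → ℕ) (h : ∀ x, ix x ≤ ν) (x0 : V) (L : List (Con V))
    (a : ℕ) (w : ℕ → ℕ) (h0 : w 0 = 1) :
    (mkQS ν ix h x0 L).Sat a w ↔ w (ix x0) = a ∧ ∀ c ∈ L, c.sat (fun x => w (ix x)) := by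
  have hcon : ∀ (c : Con V), (∑ j ∈ range 3, (ctm ix c j).1 *
      (((w (ctm ix c j).2.1 : ℕ) : ℤ) * (w (ctm ix c j).2.2 : ℕ)) = 0) ↔
        c.sat (fun x => w (ix x)) := by
    intro c
    cases c with
    | add x y z =>
      simp only [sum_range_succ, sum_range_zero, ctm, h0, Con.sat]
      push_cast
      constructor
      · intro h1
        have : ((w (ix x) : ℕ) : ℤ) = w (ix y) + w (ix z) := by linarith
        exact_mod_cast this
      · intro h1
        rw [h1]; push_cast; ring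
    | mul x y z =>
      simp only [sum_range_succ, sum_range_zero, ctm, h0, Con.sat]
      push_cast
      constructor
      · intro h1
        have : ((w (ix x) : ℕ) : ℤ) = w (ix y) * w (ix z) := by linarith
        exact_mod_cast this
      · intro h1
        rw [h1]; push_cast; ring
    | one x =>
      simp only [sum_range_succ, sum_range_zero, ctm, h0, Con.sat]
      push_cast
      constructor
      · intro h1
        have : ((w (ix x) : ℕ) : ℤ) = 1 := by linarith
        exact_mod_cast this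
      · intro h1
        rw [h1]; norm_num
  constructor
  · intro hsat
    constructor
    · have h1 := hsat L.length (Nat.lt_succ_self _)
      simp only [QS.val, mkQS, stm, lt_irrefl, dif_neg, not_false_iff, sum_range_succ,
        sum_range_zero, h0] at h1
      simp at h1
      have : ((w (ix x0) : ℕ) : ℤ) = a := by linarith
      exact_mod_cast this
    · intro c hc
      obtain ⟨⟨k, hk⟩, rfl⟩ := List.mem_iff_get.1 hc
      have h1 := hsat k (Nat.lt_succ_of_lt hk)
      rw [← hcon]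
      simp only [QS.val, mkQS, stm] at h1
      rw [← h1]
      refine sum_congr rfl (fun j _ => ?_)
      rw [dif_pos hk, if_neg (by omega)]
      simp
  · rintro ⟨h1, h2⟩ k hk
    have hk' : k < L.length + 1 := hk
    rcases Nat.lt_succ_iff_lt_or_eq.1 hk' with h3 | h3
    · have h4 := (hcon _).2 (h2 (L.get ⟨k, h3⟩) (List.get_mem L ⟨k, h3⟩))
      simp only [QS.val, mkQS, stm]
      rw [← h4]
      refine sum_congr rfl (fun j _ => ?_)
      rw [dif_pos h3, if_neg (by omega)]
      simp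
    · subst h3
      simp only [QS.val, mkQS, stm, lt_irrefl, dif_neg, not_false_iff, sum_range_succ,
        sum_range_zero, h0, h1]
      simp

/-- every Diophantine set is given by a quadratic system -/
theorem exists_QS {S : ℕ → Prop} (h : Dioph {v : Unit → ℕ | S (v ())}) :
    ∃ Q : QS, ∀ a, S a ↔ ∃ w : ℕ → ℕ, w 0 = 1 ∧ Q.Sat a w := by
  classical
  obtain ⟨V, hV, x0, L, hL⟩ := dioph_flat h
  obtain ⟨ν, ⟨e⟩⟩ := Finite.exists_equiv_fin V
  have hix : ∀ x : V, (fun x => (e x : ℕ) + 1) x ≤ ν := fun x => (e x).2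
  refine ⟨mkQS ν (fun x => (e x : ℕ) + 1) hix x0 L, fun a => ?_⟩
  rw [hL]
  constructor
  · rintro ⟨v, hv, hs⟩
    refine ⟨fun i => if h : i - 1 < ν ∧ 0 < i then v (e.symm ⟨i - 1, h.1⟩) else 1, by simp, ?_⟩
    have key : ∀ x : V, (fun i => if h : i - 1 < ν ∧ 0 < i then v (e.symm ⟨i - 1, h.1⟩) else 1)
        ((e x : ℕ) + 1) = v x := by
      intro x
      have hx : (e x : ℕ) + 1 - 1 < ν ∧ 0 < (e x : ℕ) + 1 := ⟨by simp, by omega⟩
      simp
    rw [mkQS_sat _ _ _ _ _ _ _ (by simp)]
    refine ⟨(key x0).trans hv, ?_⟩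
    intro c hc
    have := hs c hc
    have e2 : (fun x => (fun i => if h : i - 1 < ν ∧ 0 < i then
        v (e.symm ⟨i - 1, h.1⟩) else 1) ((e x : ℕ) + 1)) = v := funext key
    rw [e2]; exact this
  · rintro ⟨w, h0, hw⟩
    rw [mkQS_sat _ _ _ _ _ _ _ h0] at hw
    exact ⟨fun x => w ((e x : ℕ) + 1), hw.1, hw.2⟩

end Pool.Agent.H715.U8
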