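import Mathlib

set_option autoImplicit false

/-!
From a parametric family of equations to the decision problem on lists of monomials.
-/

namespace Pool.Agent.H715.U8

open Finset MvPolynomial

theorem primrec_natCast_int : Primrec (fun n : ℕ => (n : ℤ)) := by
  rw [← Primrec.encode_iff]
  have h : (fun n : ℕ => Encodable.encode (n : ℤ)) = fun n => 2 * n := by
    funext n; rfl
  rw [h]
  exact Primrec.nat_mul.comp (Primrec.const 2) Primrec.id

theorem primrec_neg_natCast_int : Primrec (fun n : ℕ => -(n : ℤ)) := by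
  rw [← Primrec.encode_iff]
  have h : (fun n : ℕ => Encodable.encode (-(n : ℤ))) = fun n => 2 * n - 1 := by
    funext n
    cases n with
    | zero => rfl
    | succ n => rfl
  rw [h]
  exact Primrec.nat_sub.comp (Primrec.nat_mul.comp (Primrec.const 2) Primrec.id) (Primrec.const 1)

theorem primrec_coeff (c : ℤ) (e : ℕ) : Primrec (fun a : ℕ => c * (a : ℤ) ^ e) := by
  have hp : ∀ k : ℕ, Primrec (fun a : ℕ => k * a ^ e) := by
    intro k
    refine Primrec.nat_mul.comp (Primrec.const k) ?_
    induction e with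
    | zero => simpa using Primrec.const 1
    | succ e ih =>
      have : (fun a : ℕ => a ^ (e + 1)) = fun a => a ^ e * a := by funext a; rw [pow_succ]
      rw [this]
      exact Primrec.nat_mul.comp ih Primrec.id
  rcases le_total 0 c with h | h
  · obtain ⟨k, rfl⟩ := Int.eq_ofNat_of_zero_le h
    refine (primrec_natCast_int.comp (hp k)).of_eq (fun a => ?_)
    push_cast; ring
  · obtain ⟨k, hk⟩ := Int.eq_ofNat_of_zero_le (neg_nonneg.2 h)
    have hc : c = -(k : ℤ) := by rw [← hk]; ring
    subst hc
    refine (primrec_neg_natCast_int.comp (hp k)).of_eq (fun a => ?_)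
    push_cast; ring

theorem primrec_spec {n : ℕ} (L : List (ℤ × ℕ × (Fin n → ℕ))) :
    Primrec (fun a : ℕ => L.map (fun t => (t.1 * (a : ℤ) ^ t.2.1, t.2.2))) := by
  induction L with
  | nil => exact Primrec.const []
  | cons t L ih =>
    simp only [List.map_cons]
    exact Primrec.list_cons.comp ((primrec_coeff t.1 t.2.1).pair (Primrec.const t.2.2)) ih

/-- undecidability of one parametric family gives undecidability of the decision problem -/
theorem htp_of_family {n : ℕ} (P : MvPolynomial (Fin (n + 1)) ℤ)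
    (h : ¬ ComputablePred (fun a : ℕ => ∃ y : Fin n → ℤ, eval (Fin.cons (a : ℤ) y) P = 0)) :
    ¬ ComputablePred (fun l : List (ℤ × (Fin n → ℕ)) =>
      ∃ y : Fin n → ℤ, (l.map fun t => t.1 * ∏ i, y i ^ t.2 i).sum = 0) := by
  intro hc
  apply h
  obtain ⟨L, hL⟩ : ∃ L : List (ℤ × ℕ × (Fin n → ℕ)), L =
    P.support.toList.map (fun m => (P.coeff m, m 0, fun i => m i.succ)) := ⟨_, rfl⟩
  have h1 : ComputablePred (fun a : ℕ => ∃ y : Fin n → ℤ,
      ((L.map (fun t => (t.1 * (a : ℤ) ^ t.2.1, t.2.2))).map
        fun t => t.1 * ∏ i, y i ^ t.2 i).sum = 0) :=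
    ComputablePred.computable_of_manyOneReducible ⟨_, (primrec_spec L).to_comp, fun a => Iff.rfl⟩ hc
  refine h1.of_eq (fun a => ?_)
  refine exists_congr (fun y => ?_)
  have e : ((L.map (fun t => (t.1 * (a : ℤ) ^ t.2.1, t.2.2))).map
      fun t => t.1 * ∏ i, y i ^ t.2 i).sum = eval (Fin.cons (a : ℤ) y) P := by
    rw [MvPolynomial.eval_eq', hL, List.map_map, List.map_map, ← Finset.sum_map_toList]
    congr 1
    refine List.map_congr_left (fun m _ => ?_)
    simp only [Function.comp]
    rw [Fin.prod_univ_succ]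
    simp only [Fin.cons_zero, Fin.cons_succ]
    ring
  rw [e]

end Pool.Agent.H715.U8
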