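import Mathlib
import Pool.Agent.H715.U8.FromDioph

set_option autoImplicit false

/-!
A universal polynomial with eight unknowns.
-/

namespace Pool.Agent.H715.U8

open Finset LeadMRDP Dioph MvPolynomial

/-- recursively enumerable sets are Diophantine -/
theorem dioph_of_REPred {S : ℕ → Prop} (h : REPred S) : Dioph {v : Unit → ℕ | S (v ())} := by
  have hf : Nat.Partrec (fun n => (Part.assert (S n) fun _ => Part.some ()).map fun _ => 0) := by
    rw [← Partrec.nat_iff]
    exact Partrec.map h (Computable.const 0).to₂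
  have d := ex_one (P := fun y (v : Unit → ℕ) =>
      y ∈ (Part.assert (S (v ())) fun _ => Part.some ()).map fun _ => 0)
    (partrec_GD hf _ _ _ (up (proj_dioph ())) var0)
  refine Dioph.ext d fun v => ?_
  simp [Part.assert]

/-- the universal set -/
def U (m : ℕ) : Prop := ∃ i x y : ℕ, (i + 1 + x) ^ 2 + (i + 1) = m ∧
  y ∈ Nat.Partrec.Code.eval (Denumerable.ofNat Nat.Partrec.Code i) x

theorem U_dioph : Dioph {v : Unit → ℕ | U (v ())} := by
  have hf : Nat.Partrec (fun n => Nat.Partrec.Code.eval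
      (Denumerable.ofNat Nat.Partrec.Code n.unpair.1) n.unpair.2) := by
    rw [← Partrec.nat_iff]
    exact Nat.Partrec.Code.eval_part.comp
      ((Computable.ofNat _).comp (Computable.fst.comp Computable.unpair))
      (Computable.snd.comp Computable.unpair)
  -- variables: y = none, x = some none, i = some (some none), m = some (some (some ()))
  have dy : DiophFn fun w : Option (Option (Option Unit)) → ℕ => w none := var0
  have dx : DiophFn fun w : Option (Option (Option Unit)) → ℕ => w (some none) := up var0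
  have di : DiophFn fun w : Option (Option (Option Unit)) → ℕ => w (some (some none)) :=
    up (up var0)
  have dm : DiophFn fun w : Option (Option (Option Unit)) → ℕ => w (some (some (some ()))) :=
    up (up (up (proj_dioph ())))
  have ds := add_dioph (add_dioph di (cst 1)) dx
  have d1 := eq_dioph (add_dioph (mul_dioph ds ds) (add_dioph di (cst 1))) dm
  have d2 := partrec_GD hf _ _ _ (pair_dioph di dx) dy
  have d := ex1_dioph (ex1_dioph (ex1_dioph (d1.inter d2)))
  refine Dioph.ext d fun v => ?_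
  simp only [Set.mem_setOf_eq, U]
  constructor
  · rintro ⟨i, x, y, h1, h2⟩
    refine ⟨i, x, y, ?_, ?_⟩
    · rw [sq]; exact h1
    · have := h2
      simp only [Set.mem_setOf_eq] at this
      simpa using this
  · rintro ⟨i, x, y, h1, h2⟩
    refine ⟨i, x, y, ?_, ?_⟩
    · rw [sq] at h1; exact h1
    · show y ∈ Nat.Partrec.Code.eval (Denumerable.ofNat Nat.Partrec.Code
        (Nat.unpair (Nat.pair i x)).1) (Nat.unpair (Nat.pair i x)).2
      simpa using h2

theorem pairing_inj {i x j y : ℕ} (h : (i + x) ^ 2 + i = (j + y) ^ 2 + j) : i = j ∧ x = y := by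
  have h1 : i + x = j + y := by
    rcases lt_trichotomy (i + x) (j + y) with h2 | h2 | h2
    · exfalso
      have : (i + x + 1) ^ 2 ≤ (j + y) ^ 2 := Nat.pow_le_pow_left h2 2
      nlinarith
    · exact h2
    · exfalso
      have : (j + y + 1) ^ 2 ≤ (i + x) ^ 2 := Nat.pow_le_pow_left h2 2
      nlinarith
  rw [h1] at h
  omega

theorem U_spec (i x : ℕ) : U ((i + 1 + x) ^ 2 + (i + 1)) ↔
    (Nat.Partrec.Code.eval (Denumerable.ofNat Nat.Partrec.Code i) x).Dom := by
  constructor
  · rintro ⟨j, z, y, h1, h2⟩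
    obtain ⟨h3, h4⟩ := pairing_inj h1
    have h5 : j = i := by omega
    subst h5 h4
    exact Part.dom_iff_mem.2 ⟨y, h2⟩
  · intro h
    obtain ⟨y, hy⟩ := Part.dom_iff_mem.1 h
    exact ⟨i, x, y, rfl, hy⟩

/-- every recursively enumerable set has an index -/
theorem exists_index {S : ℕ → Prop} (h : REPred S) : ∃ i : ℕ, ∀ x, S x ↔
    (Nat.Partrec.Code.eval (Denumerable.ofNat Nat.Partrec.Code i) x).Dom := by
  have hf : Nat.Partrec (fun n => (Part.assert (S n) fun _ => Part.some ()).map fun _ => 0) := by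
    rw [← Partrec.nat_iff]
    exact Partrec.map h (Computable.const 0).to₂
  obtain ⟨c, hc⟩ := Nat.Partrec.Code.exists_code.1 hf
  refine ⟨Encodable.encode c, fun x => ?_⟩
  rw [Denumerable.ofNat_encode, hc]
  simp [Part.assert]

/-- the polynomial attached to a quadratic system; variables `0, 1` are the parameters -/
noncomputable def PQ (Q : QS) : MvPolynomial (Fin 10) ℤ :=
  Q.cF ((X 0 + X 1) ^ 2 + X 0) (X 2) (X 3) (X 4) (X 5) (X 6) (X 7) (X 8) (X 9)

theorem PQ_eval (Q : QS) (v : Fin 10 → ℤ) : eval v (PQ Q) =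
    Q.cF ((v 0 + v 1) ^ 2 + v 0) (v 2) (v 3) (v 4) (v 5) (v 6) (v 7) (v 8) (v 9) := by
  unfold PQ
  rw [Q.cF_map (eval v)]
  simp only [map_add, map_pow, eval_X]

theorem exists_universal : ∃ P : MvPolynomial (Fin 10) ℤ, ∀ S : ℕ → Prop, REPred S →
    ∃ i : ℕ, 0 < i ∧ ∀ x : ℕ, S x ↔ ∃ y : Fin 8 → ℕ,
      eval (Fin.cons (i : ℤ) (Fin.cons (x : ℤ) (fun j => (y j : ℤ))) : Fin 10 → ℤ) P = 0 := by
  obtain ⟨Q, hQ⟩ := exists_QS U_dioph
  refine ⟨PQ Q, fun S hS => ?_⟩
  obtain ⟨i, hi⟩ := exists_index hS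
  refine ⟨i + 1, Nat.succ_pos i, fun x => ?_⟩
  rw [hi x, ← U_spec, hQ]
  have hcast : (((i + 1 + x) ^ 2 + (i + 1) : ℕ) : ℤ) =
      (((i + 1 : ℕ) : ℤ) + x) ^ 2 + ((i + 1 : ℕ) : ℤ) := by push_cast; ring
  constructor
  · rintro ⟨w, h0, hw⟩
    obtain ⟨f, g, k, h, E, x', y', n, hF⟩ := Q.core_complete h0 hw
    refine ⟨![f, g, k, h, E, x', y', n], ?_⟩
    rw [PQ_eval]
    rw [hcast] at hF
    exact hF
  · rintro ⟨y, hy⟩
    rw [PQ_eval] at hy
    have hy' : Q.cF (((((i + 1 + x) ^ 2 + (i + 1) : ℕ) : ℤ))) (y 0) (y 1) (y 2) (y 3) (y 4)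
        (y 5) (y 6) ((y 7 : ℕ) : ℤ) = 0 := by
      rw [hcast]; exact hy
    exact Q.core_sound hy'

end Pool.Agent.H715.U8
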