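import Mathlib
import Pool.Agent.H715.U8.Uni
import Pool.Graph.R_seed8.H591R2.ThreeSq

set_option autoImplicit false

/-!
Ten integer unknowns.
-/

namespace Pool.Agent.H715.U8

open Finset Pool.Agent.H689R2 MvPolynomial

section ring
variable {R : Type*} [CommRing R]

/-- the relation combining polynomial, evaluated at half of `m` and scaled -/
def rcM2 (A1 A2 A3 r m : R) : R :=
  rcK (m - 2 * ((2 * r - 1) * (1 + A1 + A2 + A3) ^ 3)) (4 * ((2 * r - 1) ^ 2 * A1))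
    (4 * ((2 * r - 1) ^ 2 * (1 + A1 + A2 + A3) ^ 2 * A2))
    (4 * ((2 * r - 1) ^ 2 * (1 + A1 + A2 + A3) ^ 4 * A3))

theorem rcK_scale (u X Y Z : R) :
    rcK (2 * u) (4 * X) (4 * Y) (4 * Z) = 256 * rcK u X Y Z := by
  unfold rcK
  ring

theorem rcM2_eq (A1 A2 A3 r m : R) : rcM2 A1 A2 A3 r (2 * m) = 256 * rcM A1 A2 A3 r m := by
  unfold rcM2 rcM
  rw [← mul_sub, rcK_scale]

/-- twice a sum of three triangular numbers -/
def tri (p q s : R) : R := p * (p + 1) + q * (q + 1) + s * (s + 1)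

end ring

theorem tri_nonneg (p q s : ℤ) : ∃ n : ℕ, tri p q s = 2 * (n : ℤ) := by
  have h1 : ∀ p : ℤ, ∃ n : ℕ, p * (p + 1) = 2 * (n : ℤ) := by
    intro p
    have h2 : 0 ≤ p * (p + 1) := by
      rcases le_or_gt 0 p with h | h
      · positivity
      · have h3 : p + 1 ≤ 0 := by omega
        nlinarith
    obtain ⟨c, hc⟩ := Int.even_mul_succ_self p
    have h3 : 0 ≤ c := by omega
    obtain ⟨n, rfl⟩ := Int.eq_ofNat_of_zero_le h3
    exact ⟨n, by rw [hc]; ring⟩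
  obtain ⟨a, ha⟩ := h1 p
  obtain ⟨b, hb⟩ := h1 q
  obtain ⟨c, hc⟩ := h1 s
  exact ⟨a + b + c, by unfold tri; rw [ha, hb, hc]; push_cast; ring⟩

theorem exists_tri (n : ℕ) : ∃ p q s : ℤ, tri p q s = 2 * (n : ℤ) := by
  obtain ⟨x, y, z, h⟩ := Pool.Agent.H591R2.three_squares (m := 8 * n + 3) (by omega)
  have hodd : ∀ x y z : ℤ, x ^ 2 + y ^ 2 + z ^ 2 = ((8 * n + 3 : ℕ) : ℤ) → ∃ p : ℤ, x = 2 * p + 1 := by
    intro x y z h
    rcases Int.even_or_odd x with hx | hx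
    · exfalso
      obtain ⟨a, ha⟩ := hx
      have key : ∀ t : ℤ, t ^ 2 % 8 = 0 ∨ t ^ 2 % 8 = 1 ∨ t ^ 2 % 8 = 4 := by
        intro t
        have h8 : t % 8 = 0 ∨ t % 8 = 1 ∨ t % 8 = 2 ∨ t % 8 = 3 ∨ t % 8 = 4 ∨ t % 8 = 5 ∨
          t % 8 = 6 ∨ t % 8 = 7 := by omega
        rcases h8 with h8 | h8 | h8 | h8 | h8 | h8 | h8 | h8 <;>
          simp [sq, Int.mul_emod, h8]
      have hx4 : x ^ 2 % 8 = 0 ∨ x ^ 2 % 8 = 4 := by
        have : x ^ 2 = 4 * a ^ 2 := by rw [ha]; ring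
        omega
      have hy := key y
      have hz := key z
      have h' : (x ^ 2 + y ^ 2 + z ^ 2) % 8 = 3 := by rw [h]; push_cast; omega
      omega
    · exact hx
  obtain ⟨p, hp⟩ := hodd x y z h
  obtain ⟨q, hq⟩ := hodd y x z (by rw [← h]; ring)
  obtain ⟨s, hs⟩ := hodd z x y (by rw [← h]; ring)
  refine ⟨p, q, s, ?_⟩
  rw [hp, hq, hs] at h
  unfold tri
  push_cast at h
  linarith

namespace QS

/-- the equation with ten unknowns -/
def cG {R : Type*} [CommRing R] (Q : QS) (a f g k h E x y p q s : R) : R :=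
  rcM2 (Q.cA1 a (cb a f) g k h x y) (Q.cA2 a (cb a f) g k) 1 (Q.cR a (cb a f) g k h E x)
    (tri p q s)

theorem cG_map {R S : Type*} [CommRing R] [CommRing S] (φ : R →+* S) (Q : QS)
    (a f g k h E x y p q s : R) :
    φ (Q.cG a f g k h E x y p q s) =
      Q.cG (φ a) (φ f) (φ g) (φ k) (φ h) (φ E) (φ x) (φ y) (φ p) (φ q) (φ s) := by
  simp only [cG, rcM2, tri, rcK, cR, cA2, cA1, cC, cv, cvp, cP, cX, rr, nm, p0, p1, qDPI, qD, qE,
    qP, qG, qH, qI, map_mul, map_add, map_sub, map_pow, map_one, map_ofNat, map_neg,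
    Q.map_simps φ, Q.map_fZ φ, Q.map_fN1 φ, cb_map φ]

theorem cG_eq (Q : QS) (a f g k h E x y p q s : ℤ) {n : ℕ} (hn : tri p q s = 2 * (n : ℤ)) :
    Q.cG a f g k h E x y p q s = 256 * Q.cF a f g k h E x y n := by
  unfold cG cF cF'
  rw [hn, rcM2_eq]

theorem int_iff (Q : QS) (a : ℕ) : (∃ w : ℕ → ℕ, w 0 = 1 ∧ Q.Sat a w) ↔
    ∃ f g k h E x y p q s : ℤ, Q.cG (a : ℤ) f g k h E x y p q s = 0 := by
  constructor
  · rintro ⟨w, h0, hw⟩
    obtain ⟨f, g, k, h, E, x, y, n, hF⟩ := Q.core_complete h0 hw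
    obtain ⟨p, q, s, hn⟩ := exists_tri n
    exact ⟨f, g, k, h, E, x, y, p, q, s, by rw [Q.cG_eq _ _ _ _ _ _ _ _ _ _ _ hn, hF, mul_zero]⟩
  · rintro ⟨f, g, k, h, E, x, y, p, q, s, hG⟩
    obtain ⟨n, hn⟩ := tri_nonneg p q s
    rw [Q.cG_eq _ _ _ _ _ _ _ _ _ _ _ hn] at hG
    exact Q.core_sound ((mul_eq_zero.1 hG).resolve_left (by norm_num))

end QS

end Pool.Agent.H715.U8
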