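import Mathlib
import Pool.Agent.H715.U8.IntTen
import Pool.Agent.H715.U8.HTP

set_option autoImplicit false

/-!
Undecidability for ten integer unknowns.
-/

namespace Pool.Agent.H715.U8

open Finset MvPolynomial LeadMRDP

/-- the polynomial with one parameter and ten unknowns -/
noncomputable def PG (Q : QS) : MvPolynomial (Fin 11) ℤ :=
  Q.cG (X 0) (X 1) (X 2) (X 3) (X 4) (X 5) (X 6) (X 7) (X 8) (X 9) (X 10)

theorem PG_eval (Q : QS) (v : Fin 11 → ℤ) : eval v (PG Q) =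
    Q.cG (v 0) (v 1) (v 2) (v 3) (v 4) (v 5) (v 6) (v 7) (v 8) (v 9) (v 10) := by
  unfold PG
  rw [Q.cG_map (eval v)]
  simp only [eval_X]

theorem exists_family_ten : ∃ P : MvPolynomial (Fin 11) ℤ,
    ¬ ComputablePred (fun a : ℕ => ∃ y : Fin 10 → ℤ, eval (Fin.cons (a : ℤ) y) P = 0) := by
  obtain ⟨S, hS, hD⟩ := exists_noncomputable
  obtain ⟨Q, hQ⟩ := exists_QS hD
  refine ⟨PG Q, fun hc => hS (hc.of_eq fun a => ?_)⟩
  rw [hQ, Q.int_iff]
  constructor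
  · rintro ⟨y, hy⟩
    rw [PG_eval] at hy
    exact ⟨y 0, y 1, y 2, y 3, y 4, y 5, y 6, y 7, y 8, y 9, hy⟩
  · rintro ⟨f, g, k, h, E, x, y, p, q, s, hG⟩
    refine ⟨![f, g, k, h, E, x, y, p, q, s], ?_⟩
    rw [PG_eval]
    exact hG

theorem htp_ten : ¬ ComputablePred (fun l : List (ℤ × (Fin 10 → ℕ)) =>
    ∃ y : Fin 10 → ℤ, (l.map fun t => t.1 * ∏ i, y i ^ t.2 i).sum = 0) := by
  obtain ⟨P, hP⟩ := exists_family_ten
  exact htp_of_family P hP

end Pool.Agent.H715.U8
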